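import Mathlib

set_option autoImplicit false
set_option linter.all false

namespace Pool.Agent.H921Z.Loop

open Subgroup

variable {G : Type*} [Group G] [Finite G] {p : ℕ} [Fact p.Prime]

/-- the normaliser step of the Baer-Suzuki argument -/
theorem norm_step (D : Set G) (hconj : ∀ d ∈ D, ∀ e ∈ D, d * e * d⁻¹ ∈ D) (P M : Subgroup G)
    (hP : IsPGroup p P) (hM : M ≤ P) (hne : ∃ x ∈ D, x ∈ P ∧ x ∉ M) :
    ∃ x ∈ D, x ∈ P ∧ x ∉ M ∧ ∀ i ∈ D, i ∈ M → x * i * x⁻¹ ∈ D ∧ x * i * x⁻¹ ∈ M := by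
  obtain ⟨M', hMM', hmax⟩ := Finite.exists_le_maximal
    (p := fun K : Subgroup G => K ≤ P ∧ ∀ i ∈ D, i ∈ K → i ∈ M) (a := M) ⟨hM, fun _ _ h => h⟩
  haveI := hP.isNilpotent
  have hnc : NormalizerCondition P := Group.normalizerCondition_of_isNilpotent
  have hlt : M'.subgroupOf P < ⊤ := by
    rw [lt_top_iff_ne_top]
    intro h
    obtain ⟨x, hxD, hxP, hxM⟩ := hne
    have : (⟨x, hxP⟩ : P) ∈ M'.subgroupOf P := h ▸ mem_top _
    exact hxM (hmax.prop.2 x hxD this)
  have h2 := hnc _ hlt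
  let N : Subgroup G := (normalizer (M'.subgroupOf P : Set P)).map P.subtype
  have hNP : N ≤ P := map_subtype_le _
  have hMN : M' ≤ N := by
    intro g hg
    exact ⟨⟨g, hmax.prop.1 hg⟩, h2.le hg, rfl⟩
  by_cases h3 : ∀ i ∈ D, i ∈ N → i ∈ M
  · exfalso
    have h4 : N ≤ M' := hmax.le_of_ge ⟨hNP, h3⟩ hMN
    apply h2.not_ge
    intro g hg
    exact h4 ⟨g, hg, rfl⟩
  · push Not at h3
    obtain ⟨x, hxD, ⟨x', hx', rfl⟩, hxM⟩ := h3
    refine ⟨x', hxD, x'.2, hxM, fun i hi hiM => ⟨hconj _ hxD _ hi, ?_⟩⟩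
    apply hmax.prop.2 _ (hconj _ hxD _ hi)
    have := (mem_normalizer_iff.1 hx' ⟨i, hM hiM⟩).1 (hMM' hiM)
    exact this

/-- The Baer-Suzuki theorem. -/
theorem baer_suzuki (D : Set G) (hconj : ∀ d ∈ D, ∀ e ∈ D, d * e * d⁻¹ ∈ D)
    (hpair : ∀ x ∈ D, ∀ y ∈ D, IsPGroup p (closure ({x, y} : Set G))) :
    IsPGroup p (closure D) := by
  let good : Set G → Prop := fun A => A ⊆ D ∧ IsPGroup p (closure A)
  have hsat : ∀ A, Maximal good A → ∀ x ∈ D, x ∈ closure A → x ∈ A := by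
    intro A hA x hxD hx
    have h1 : good (D ∩ closure A) := ⟨Set.inter_subset_left,
      hA.prop.2.to_le ((closure_le _).2 Set.inter_subset_right)⟩
    exact hA.le_of_ge h1 (fun a ha => ⟨hA.prop.1 ha, subset_closure ha⟩) ⟨hxD, hx⟩
  have huniq : ∀ A B, Maximal good A → Maximal good B → A = B := by
    by_contra hcon
    push Not at hcon
    obtain ⟨A0, B0, hA0, hB0, hne0⟩ := hcon
    obtain ⟨⟨A, B⟩, ⟨hA, hB, hne⟩, hmx⟩ := Set.exists_max_image
      {q : Set G × Set G | Maximal good q.1 ∧ Maximal good q.2 ∧ q.1 ≠ q.2}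
      (fun q => (q.1 ∩ q.2).ncard) (Set.toFinite _) ⟨(A0, B0), hA0, hB0, hne0⟩
    simp only at hA hB hne hmx
    have key : ∀ A B, Maximal good A → Maximal good B → A ≠ B →
        ∃ x ∈ A, x ∉ B ∧ x ∈ normalizer (closure (A ∩ B) : Set G) := by
      intro A B hA hB hne
      have hex : ∃ x ∈ A, x ∉ B := by
        by_contra h
        push Not at h
        exact hne (le_antisymm h (hA.le_of_ge hB.prop h))
      obtain ⟨x0, hx0, hx0'⟩ := hex
      obtain ⟨x, hxD, hxP, hxM, hx⟩ := norm_step D hconj (closure A) (closure A ⊓ closure B)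
        hA.prop.2 inf_le_left ⟨x0, hA.prop.1 hx0, subset_closure hx0,
          fun h => hx0' (hsat B hB x0 (hA.prop.1 hx0) h.2)⟩
      refine ⟨x, hsat A hA x hxD hxP, fun h => hxM ⟨hxP, subset_closure h⟩, ?_⟩
      apply normalizer_le_normalizer_closure
      apply mem_normalizer_fintype
      intro i hi
      obtain ⟨h1, h2⟩ := hx i (hA.prop.1 hi.1) ⟨subset_closure hi.1, subset_closure hi.2⟩
      exact ⟨hsat A hA _ h1 h2.1, hsat B hB _ h1 h2.2⟩
    obtain ⟨x, hxA, hxB, hx⟩ := key A B hA hB hne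
    obtain ⟨y, hyB, hyA, hy⟩ := key B A hB hA hne.symm
    rw [Set.inter_comm] at hy
    have hg : good ((A ∩ B) ∪ {x, y}) := by
      refine ⟨?_, ?_⟩
      · rintro z (hz | rfl | rfl)
        · exact hA.prop.1 hz.1
        · exact hA.prop.1 hxA
        · exact hB.prop.1 hyB
      · rw [Subgroup.closure_union]
        apply IsPGroup.to_sup_of_normal_left'
        · exact hA.prop.2.to_le (closure_mono Set.inter_subset_left)
        · exact hpair x (hA.prop.1 hxA) y (hB.prop.1 hyB)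
        · rw [closure_le]
          rintro z (rfl | rfl)
          · exact hx
          · exact hy
    obtain ⟨C, hC1, hC⟩ := Finite.exists_le_maximal (p := good) hg
    have hAC : A = C := by
      by_contra h
      have h1 := hmx (A, C) ⟨hA, hC, h⟩
      have h2 : A ∩ B ⊂ A ∩ C := by
        refine ⟨fun z hz => ⟨hz.1, hC1 (Or.inl hz)⟩, fun h3 => hxB (h3 ⟨hxA, hC1 ?_⟩).2⟩
        exact Or.inr (Or.inl rfl)
      exact absurd (Set.ncard_lt_ncard h2 (Set.toFinite _)) (not_lt.2 h1)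
    apply hyA
    rw [hAC]
    exact hC1 (Or.inr (Or.inr rfl))
  obtain ⟨C, -, hC⟩ := Finite.exists_le_maximal (p := good) (a := ∅)
    ⟨Set.empty_subset _, by rw [Subgroup.closure_empty]; exact IsPGroup.of_bot⟩
  have : D ⊆ C := by
    intro d hd
    obtain ⟨C', h1, hC'⟩ := Finite.exists_le_maximal (p := good) (a := {d, d})
      ⟨by rintro z (rfl | rfl) <;> exact hd, hpair d hd d hd⟩
    rw [huniq C C' hC hC']
    exact h1 (Or.inl rfl)
  exact hC.prop.2.to_le (closure_mono this)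

omit [Finite G] in
theorem pgroup_zpowers {x : G} {k : ℕ} (h : x ^ p ^ k = 1) : IsPGroup p (zpowers x) := by
  rintro ⟨g, n, rfl⟩
  refine ⟨k, Subtype.ext ?_⟩
  simp only [SubgroupClass.coe_pow, OneMemClass.coe_one]
  rw [← zpow_natCast, ← zpow_mul, mul_comm, zpow_mul, zpow_natCast, h, one_zpow]

/-- two involutions whose product is a `2`-element generate a `2`-group -/
theorem dihedral {x y : G} (hx : x * x = 1) (hy : y * y = 1) {k : ℕ} (h : (x * y) ^ 2 ^ k = 1) :
    IsPGroup 2 (closure ({x, y} : Set G)) := by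
  have h1 : IsPGroup 2 (zpowers x) := pgroup_zpowers (k := 1) (by rw [pow_one, pow_two, hx])
  have h2 : IsPGroup 2 (zpowers (x * y)) := pgroup_zpowers h
  have hxi : x⁻¹ = x := inv_eq_of_mul_eq_one_right hx
  have hyi : y⁻¹ = y := inv_eq_of_mul_eq_one_right hy
  have h3 : zpowers x ≤ normalizer (zpowers (x * y) : Set G) := by
    rw [zpowers_le]
    apply mem_normalizer_fintype
    rintro _ ⟨n, rfl⟩
    have : x * (x * y) * x⁻¹ = (x * y)⁻¹ := by
      rw [mul_inv_rev, hxi, hyi, ← mul_assoc, hx, one_mul]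
    refine ⟨-n, ?_⟩
    show (x * y) ^ (-n) = x * (x * y) ^ n * x⁻¹
    rw [← conj_zpow, this, inv_zpow', ]
  refine (h2.to_sup_of_normal_left' h1 h3).to_le ?_
  rw [closure_le]
  rintro z (rfl | rfl)
  · exact mem_sup_right (mem_zpowers _)
  · have : z = x * (x * z) := by rw [← mul_assoc, hx, one_mul]
    rw [this]
    exact mul_mem (mem_sup_right (mem_zpowers _))
      (mem_sup_left (by rw [← this]; exact mem_zpowers _))

end Pool.Agent.H921Z.Loop
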