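import Pool.Agent.H921Z.Loop.Two

set_option autoImplicit false
set_option linter.all false

namespace Pool.Agent.H921Z.Loop

open Pool.Agent.H284Z Equiv

/-- permutations preserving a set -/
def stab {α : Type} [Finite α] (U : Set α) : Subgroup (Perm α) := subOf
  { carrier := {g | ∀ u ∈ U, g u ∈ U}
    one_mem' := fun _ hu => hu
    mul_mem' := fun {a b} ha hb u hu => ha _ (hb u hu) }

theorem not_dvd_card2 {Q : Type} [ALoop Q] [Finite Q] (h : ∀ y : Q, y * y = 1) {q : ℕ}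
    (hq : q.Prime) (h2 : q ≠ 2) : ¬ q ∣ Nat.card Q := by
  obtain ⟨k, hk⟩ := card_of_exp_two h
  rw [hk]
  exact not_dvd_pow Nat.prime_two hq h2

theorem engel : ∀ (n : ℕ) (Q : Type) [ALoop Q] [Finite Q], Nat.card Q = n →
    (∀ y : Q, y * y = 1) → (∀ x : Q, ∃ j, L x ^ 2 ^ j = 1) → IsPGroup 2 (Mlt Q) := by
  intro n
  induction n using Nat.strong_induction_on with
  | _ n ih =>
  intro Q _ _ hn h hE
  have hc := e2_comm h
  refine pgroup_of_no_prime _ Nat.prime_two (fun q hq h2 g0 hg0 hgq => ?_)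
  obtain ⟨y0, -, hy0⟩ := fix_single hq hgq (X := Set.univ) (fun _ _ => Set.mem_univ _)
    (by rw [Nat.card_univ]; exact not_dvd_card2 h hq h2)
  have hsa : (L y0)⁻¹ * g0 * L y0 ∈ AutG Q := by
    have := conj_aut hg0 y0
    rwa [hy0] at this
  have hsm : (L y0)⁻¹ * g0 * L y0 ∈ Mlt Q := mul_mem (mul_mem (inv_mem (L_mem _)) hg0) (L_mem _)
  have hsq : ((L y0)⁻¹ * g0 * L y0) ^ q = 1 := by
    have : (L y0)⁻¹ * g0 * L y0 = (L y0)⁻¹ * g0 * ((L y0)⁻¹)⁻¹ := by rw [inv_inv]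
    rw [this, conj_pow, hgq]; group
  suffices hs1 : (L y0)⁻¹ * g0 * L y0 = 1 by
    calc g0 = L y0 * ((L y0)⁻¹ * g0 * L y0) * (L y0)⁻¹ := by group
      _ = 1 := by rw [hs1]; group
  generalize (L y0)⁻¹ * g0 * L y0 = s at hsa hsm hsq
  by_contra hs1
  obtain ⟨U, hU0, hU⟩ := Finite.exists_le_maximal (p := fun U : Submonoid Q => U ≠ ⊤)
    (a := fixSub s hsa) (fun e => hs1 (Equiv.ext (fun x => by
      have : x ∈ fixSub s hsa := e ▸ Submonoid.mem_top x
      exact this)))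
  obtain ⟨z0, hz0⟩ : ∃ z, z ∉ U := by
    by_contra hcon
    push Not at hcon
    exact hU.prop (eq_top_iff.2 (fun x _ => hcon x))
  have hMU : IsPGroup 2 (Mlt U) := ih _ (hn ▸ Finite.card_subtype_lt hz0) U rfl
    (fun y => Subtype.ext (h y)) (fun x => by
      obtain ⟨j, hj⟩ := hE x
      refine ⟨j, Equiv.ext (fun y => Subtype.ext ?_)⟩
      have := lift_pow U.subtype (g := L x) (g' := L (x : Q)) (fun _ => rfl) (2 ^ j) y
      rw [hj] at this
      exact this)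
  have hPU1 : ∀ g ∈ Subgroup.closure (L '' (U : Set Q)),
      g ∈ Mlt Q ∧ ∃ g' ∈ Mlt U, ∀ u : U, g u = g' u := by
    intro g hg
    induction hg using Subgroup.closure_induction with
    | mem g hg => obtain ⟨x, hx, rfl⟩ := hg; exact ⟨L_mem x, L ⟨x, hx⟩, L_mem _, fun _ => rfl⟩
    | one => exact ⟨one_mem _, 1, one_mem _, fun _ => rfl⟩
    | mul g k _ _ ihg ihk =>
      obtain ⟨hg, g', hg', e1⟩ := ihg
      obtain ⟨hk, k', hk', e2⟩ := ihk
      exact ⟨mul_mem hg hk, g' * k', mul_mem hg' hk', fun u => by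
        rw [Perm.mul_apply, e2, e1]; rfl⟩
    | inv g _ ih =>
      obtain ⟨hg, g', hg', e1⟩ := ih
      refine ⟨inv_mem hg, g'⁻¹, inv_mem hg', fun u => ?_⟩
      rw [Perm.inv_eq_iff_eq, e1]; simp
  have hPU : IsPGroup 2 (Subgroup.closure (L '' (U : Set Q))) := by
    apply ce
    · rintro _ ⟨x, -, rfl⟩; exact hE x
    · intro g hg
      obtain ⟨hgm, g', hg', e⟩ := hPU1 g hg
      obtain ⟨j, hj⟩ := hMU ⟨g', hg'⟩
      have hj' : g' ^ 2 ^ j = 1 := congrArg Subtype.val hj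
      have e2 : ∀ u ∈ U, (g ^ 2 ^ j) u = u := by
        intro u hu
        have := lift_pow U.subtype (g := g') (g' := g) (fun u => (e u).symm) (2 ^ j) ⟨u, hu⟩
        rw [hj'] at this
        exact this.symm
      refine ⟨j, ?_⟩
      rintro _ ⟨x, hx, rfl⟩
      have := aut_L (aut_of_mem (pow_mem hgm (2 ^ j)) (e2 1 (one_mem _))) x
      rw [e2 x hx] at this
      exact this
  obtain ⟨S, hS0, hS⟩ := Finite.exists_le_maximal (p := fun S : Subgroup (Perm Q) =>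
    S ≤ Mlt Q ∧ IsPGroup 2 S ∧ S ≤ stab (U : Set Q)) (a := Subgroup.closure (L '' (U : Set Q)))
    ⟨fun g hg => (hPU1 g hg).1, hPU, by
      rw [Subgroup.closure_le]
      rintro _ ⟨x, hx, rfl⟩ u hu
      exact mul_mem hx hu⟩
  obtain ⟨hS1, hS2, hS3⟩ := hS.prop
  have hLS : ∀ u ∈ U, L u ∈ S := fun u hu => hS0 (Subgroup.subset_closure ⟨u, hu, rfl⟩)
  obtain ⟨k, hk⟩ := card_of_exp_two h
  rcases growth hk (Mlt Q) S 1 (fun y => ⟨L y, L_mem y, mul_one y⟩) hS2 hS1 with htr | hgr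
  · obtain ⟨r, hr, e⟩ := htr z0
    exact hz0 (e ▸ hS3 hr 1 (one_mem U))
  obtain ⟨g, hg, hgS, hgn, j, hj⟩ := hgr
  have key : ∀ g ∈ Mlt Q, g ∈ Subgroup.normalizer (S : Set (Perm Q)) →
      (∀ σ ∈ S, ∃ u ∈ U, σ (g 1) = g 1 * u) ∧ (∀ u ∈ U, g 1 * (g 1 * u) ∈ U) ∧
        (g 1 ∈ U → g ∈ stab (U : Set Q)) := by
    intro g hg hgn
    have ha : (L (g 1))⁻¹ * g ∈ AutG Q := aut_of_mem (mul_mem (inv_mem (L_mem _)) hg) (by simp)
    set γ := (L (g 1))⁻¹ * g with hγ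
    have spec : ∀ z, g z = g 1 * γ z := fun z => by simp [hγ]
    have a1 : ∀ σ ∈ S, ∃ u ∈ U, σ (g 1) = g 1 * γ u := by
      intro σ hσ
      have h1 : g⁻¹ * σ * g ∈ S := (Subgroup.mem_normalizer_iff''.1 hgn σ).1 hσ
      refine ⟨_, hS3 h1 1 (one_mem U), ?_⟩
      rw [← spec]; simp
    have a2 : γ⁻¹ ∈ stab (U : Set Q) := by
      intro u hu
      obtain ⟨u', hu', e⟩ := a1 _ (hLS u hu)
      rw [H284Z.L_apply, hc u] at e
      rw [lcan e]; simpa using hu'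
    have a3 : γ ∈ stab (U : Set Q) := by simpa using inv_mem a2
    refine ⟨fun σ hσ => ?_, fun u hu => ?_, fun h1 u hu => ?_⟩
    · obtain ⟨u, hu, e⟩ := a1 σ hσ
      exact ⟨_, a3 u hu, e⟩
    · have h1 := (Subgroup.mem_normalizer_iff.1 hgn _).1 (hLS _ (a2 u hu))
      have h3 := hS3 h1 1 (one_mem U)
      have e1 : γ (g⁻¹ 1) = g 1 := by
        apply lcan (a := g 1)
        rw [← spec, h]; simp
      have e2 : (g * L (γ⁻¹ u) * g⁻¹) 1 = g 1 * (g 1 * u) := by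
        simp only [Perm.mul_apply, H284Z.L_apply]
        rw [spec, ha, e1, hc (g 1) u]; simp
      exact e2 ▸ h3
    · rw [spec]; exact mul_mem h1 (a3 u hu)
  obtain ⟨k1, k2, k3⟩ := key g hg hgn
  have hy : g 1 ∉ U := by
    intro h1
    have := hS.le_of_ge (y := S ⊔ Subgroup.zpowers g) ⟨sup_le hS1 (Subgroup.zpowers_le.2 hg),
      hS2.to_sup_of_normal_left' (pgroup_zpowers hj) (Subgroup.zpowers_le.2 hgn),
      sup_le hS3 (Subgroup.zpowers_le.2 (k3 h1))⟩ le_sup_left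
    exact hgS (this (Subgroup.mem_sup_right (Subgroup.mem_zpowers g)))
  set y := g 1 with hy0'
  have m1 : ∀ u ∈ U, ∀ u' ∈ U, ∃ w ∈ U, u * (y * u') = y * w := by
    intro u hu u' hu'
    obtain ⟨w, hw, e⟩ := k1 _ (mul_mem (hLS u hu) (hLS u' hu'))
    exact ⟨w, hw, by rw [← e, hc y]; rfl⟩
  have m2 : ∀ u ∈ U, ∀ u' ∈ U, (y * u) * (y * u') ∈ U := by
    intro u hu u' hu'
    obtain ⟨l1, l2, -⟩ := key (L u * g) (mul_mem (L_mem u) hg)
      (mul_mem (Subgroup.le_normalizer (hLS u hu)) hgn)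
    have e0 : (L u * g) 1 = y * u := hc u y
    rw [e0] at l1 l2
    obtain ⟨w, hw, e⟩ := l1 _ (mul_mem (hLS u' hu') (inv_mem (hLS u hu)))
    have e1 : (L u' * (L u)⁻¹) (y * u) = y * u' := by
      rw [Perm.mul_apply, hc y u, Linv_mul]; exact hc u' y
    rw [← e1, e]
    exact l2 w hw
  let U1 : Submonoid Q :=
    { carrier := {z | z ∈ U ∨ ∃ w ∈ U, z = y * w}
      one_mem' := Or.inl (one_mem U)
      mul_mem' := by
        rintro a b (ha | ⟨u, hu, rfl⟩) (hb | ⟨u', hu', rfl⟩)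
        · exact Or.inl (mul_mem ha hb)
        · exact Or.inr (m1 a ha u' hu')
        · rw [hc]; exact Or.inr (m1 b hb u hu)
        · exact Or.inl (m2 u hu u' hu') }
  have hU1 : U1 = ⊤ := by
    by_contra hne
    exact hy (hU.le_of_ge hne (fun a ha => Or.inl ha) (Or.inr ⟨1, one_mem U, (mul_one y).symm⟩))
  have hcos : ∀ z, z ∉ U ↔ ∃ w ∈ U, z = y * w := by
    intro z
    constructor
    · intro hz
      have : z ∈ U1 := hU1 ▸ Submonoid.mem_top z
      exact this.resolve_left hz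
    · rintro ⟨w, hw, rfl⟩ h1
      exact hy (rdiv_mem hw h1)
  have law : ∀ z a, z * a ∈ U ↔ (z ∈ U ↔ a ∈ U) := by
    intro z a
    by_cases hz : z ∈ U <;> by_cases ha : a ∈ U
    · simp [hz, ha, mul_mem hz ha]
    · simp only [hz, ha, iff_false, not_true, iff_false]
      exact fun h1 => ha (ldiv_mem hz h1)
    · simp only [hz, ha, iff_true, iff_false]
      exact fun h1 => hz (rdiv_mem ha h1)
    · obtain ⟨u, hu, rfl⟩ := (hcos z).1 hz
      obtain ⟨u', hu', rfl⟩ := (hcos a).1 ha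
      simp [hz, ha, m2 u hu u' hu']
  let B : Subgroup (Perm Q) := subOf
    { carrier := {g | ∀ a b, (a ∈ U ↔ b ∈ U) → (g a ∈ U ↔ g b ∈ U)}
      one_mem' := fun _ _ e => e
      mul_mem' := fun {g k} hg hk a b e => hg _ _ (hk a b e) }
  have hB : Mlt Q ≤ B := by
    have : ∀ z, L z ∈ B := fun z a b e => by
      simp only [H284Z.L_apply]; rw [law, law, e]
    rw [Mlt, Subgroup.closure_le]
    rintro _ (⟨z, rfl⟩ | ⟨z, rfl⟩)
    · exact this z
    · rw [R_eq_L h]; exact this z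
  obtain ⟨a, ha, hfa⟩ := fix_single hq hsq (X := {z | ∃ w ∈ U, z = y * w}) (by
    intro a ha
    refine (hcos _).1 (fun h1 => (hcos a).2 ha ?_)
    have := hB (inv_mem hsm) (s a) 1 (by simp [h1, one_mem U])
    rw [H284Z.inv_one (aut_one hsa)] at this
    simpa [one_mem U] using this) (by rw [card_coset]; exact not_dvd_sub h U hq h2)
  exact (hcos a).2 ha (hU0 hfa)

theorem e2_main {Q : Type} [ALoop Q] [Finite Q] (h : ∀ y : Q, y * y = 1) :
    ∃ O : Subgroup (Perm Q), IsPGroup 2 O ∧ ∀ x y, mm x y ∈ O := by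
  obtain ⟨O, -, hO⟩ := Finite.exists_le_maximal (p := fun O : Subgroup (Perm Q) =>
    O ≤ Mlt Q ∧ Mlt Q ≤ Subgroup.normalizer (O : Set (Perm Q)) ∧ IsPGroup 2 O) (a := ⊥)
    ⟨bot_le, Subgroup.le_normalizer_of_normal, IsPGroup.of_bot⟩
  obtain ⟨hO1, hO2, hO3⟩ := hO.prop
  have hmax : ∀ N : Subgroup (Perm Q), N ≤ Mlt Q →
      Mlt Q ≤ Subgroup.normalizer (N : Set (Perm Q)) → IsPGroup 2 N → N ≤ O := by
    intro N h1 h2 h3
    exact le_sup_right.trans (hO.le_of_ge (y := O ⊔ N) ⟨sup_le hO1 h1,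
      fun g hg => norm_sup (hO2 hg) (h2 hg), hO3.to_sup_of_normal_left' h3 (h1.trans hO2)⟩
      le_sup_left)
  have hinv : ∀ g ∈ Mlt Q, g 1 = 1 → ∀ r, (∀ y, (L y)⁻¹ * L (y * r) ∈ O) →
      ∀ y, (L y)⁻¹ * L (y * g r) ∈ O := by
    intro g hg g1 r hr y
    obtain ⟨y, rfl⟩ := g.surjective y
    have ha := aut_of_mem hg g1
    have e : ∀ z, L (g z) = g * L z * g⁻¹ := fun z => by rw [aut_L ha]; group
    have : (L (g y))⁻¹ * L (g y * g r) = g * ((L y)⁻¹ * L (y * r)) * g⁻¹ := by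
      rw [← ha, e, e]; group
    rw [this]
    exact conj_mem' hO2 hg (hr y)
  let T : Submonoid Q :=
    { carrier := {r | ∀ y, (L y)⁻¹ * L (y * r) ∈ O}
      one_mem' := fun y => by simp
      mul_mem' := by
        intro r r' hr hr' y
        have := mul_mem (hr y) (hinv _ (LL_mem y r) (aut_one (LL_aut y r)) r' hr' (y * r))
        rw [LL_spec] at this
        simpa [mul_assoc] using this }
  have hT : IsNormal T := fun g hg g1 r hr => hinv g hg g1 r hr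
  obtain ⟨F, inst, π, hs, hker⟩ := exists_quot T hT
  haveI : Finite F := Finite.of_surjective π hs
  have hF : ∀ y : F, y * y = 1 := by
    intro y
    obtain ⟨y, rfl⟩ := hs y
    rw [← map_mul, h, map_one]
  have hMF : IsPGroup 2 (Mlt F) := by
    refine engel _ F rfl hF (fun x => ?_)
    obtain ⟨x, rfl⟩ := hs x
    have hl : ∀ y, π ((L x * L x) y) = (L (π x) * L (π x)) (π y) := fun y => by simp
    have hpos : orderOf (L (π x) * L (π x)) ≠ 0 := (orderOf_pos _).ne'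
    have hn0 : orderOf (L x * L x) ≠ 0 := (orderOf_pos _).ne'
    have e := Nat.eq_prime_pow_of_unique_prime_dvd (p := 2) hpos (fun {q} hq hd => by
      by_contra h2
      have hb : ((L x * L x) ^ (ordCompl[q] (orderOf (L x * L x)))) ^
          q ^ ((orderOf (L x * L x)).factorization q) = 1 := by
        rw [← pow_mul, mul_comm, Nat.ordProj_mul_ordCompl_eq_self, pow_orderOf_eq_one]
      have hb1 : ∀ n : ℕ, ((L x * L x) ^ n) 1 = 1 := fun n =>
        aut_one (pow_mem (aut_of_mem (mul_mem (L_mem x) (L_mem x)) (by simp [h])) n)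
      obtain ⟨V, hV1, hV2, hV3, hV4⟩ := non_engel h (Ipr x) (fun a ha b hb => Ipr_assoc ha hb)
        (pow_mem (mul_mem (L_mem x) (L_mem x)) _) (hb1 _) hq h2 hb (beta_pow h x _)
      have h3 : (L (π x) * L (π x)) ^ (ordCompl[q] (orderOf (L x * L x))) = 1 := by
        ext y
        obtain ⟨y, rfl⟩ := hs y
        obtain ⟨w, -, e⟩ := beta_pow h x (ordCompl[q] (orderOf (L x * L x))) y
        have hw : w ∈ MonoidHom.mker π := by
          rw [hker]; exact fun z => hmax V hV1 hV2 hV3 (hV4 y w e z)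
        rw [← lift_pow π hl, e, map_mul, MonoidHom.mem_mker.1 hw, mul_one]; rfl
      exact Nat.not_dvd_ordCompl hq hn0 (hd.trans (orderOf_dvd_of_pow_eq_one h3)))
    refine ⟨(orderOf (L (π x) * L (π x))).primeFactorsList.length + 1, ?_⟩
    rw [pow_succ', pow_mul, pow_two, ← e, pow_orderOf_eq_one]
  let C : Subgroup (Perm Q) :=
    { carrier := {g | g ∈ Mlt Q ∧ ∀ k ∈ Mlt Q, g * k * g⁻¹ * k⁻¹ ∈ O}
      one_mem' := ⟨one_mem _, fun k _ => by simp⟩
      mul_mem' := by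
        rintro g g' ⟨hg, h1⟩ ⟨hg', h2⟩
        refine ⟨mul_mem hg hg', fun k hk => ?_⟩
        have : g * g' * k * (g * g')⁻¹ * k⁻¹ =
            g * (g' * k * g'⁻¹ * k⁻¹) * g⁻¹ * (g * k * g⁻¹ * k⁻¹) := by group
        rw [this]
        exact mul_mem (conj_mem' hO2 hg (h2 k hk)) (h1 k hk)
      inv_mem' := by
        rintro g ⟨hg, h1⟩
        refine ⟨inv_mem hg, fun k hk => ?_⟩
        have : g⁻¹ * k * g⁻¹⁻¹ * k⁻¹ = g⁻¹ * (g * k * g⁻¹ * k⁻¹)⁻¹ * g⁻¹⁻¹ := by group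
        rw [this]
        exact conj_mem' hO2 (inv_mem hg) (inv_mem (h1 k hk)) }
  have hOC : O ≤ C := fun o ho => ⟨hO1 ho, fun k hk => by
    have : o * k * o⁻¹ * k⁻¹ = o * (k * o⁻¹ * k⁻¹) := by group
    rw [this]
    exact mul_mem ho (conj_mem' hO2 hk (inv_mem ho))⟩
  have hC : Mlt Q ≤ C := by
    refine fg (p := 2) (Mlt Q) O C hO1 hO2 hO3 hmax hOC (fun q hq h2 g hg a hga => ?_)
      (fun c hc g hg => hc.2 g hg)
    obtain ⟨y0, -, hy0⟩ := fix_pp hq hga (X := Set.univ) (fun _ _ => Set.mem_univ _)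
      (by rw [Nat.card_univ]; exact not_dvd_card2 h hq h2)
    have hsa : (L y0)⁻¹ * g * L y0 ∈ AutG Q := by
      have := conj_aut hg y0
      rwa [hy0] at this
    have hsm : (L y0)⁻¹ * g * L y0 ∈ Mlt Q := mul_mem (mul_mem (inv_mem (L_mem _)) hg) (L_mem _)
    have hsq : ((L y0)⁻¹ * g * L y0) ^ q ^ a = 1 := by
      have : (L y0)⁻¹ * g * L y0 = (L y0)⁻¹ * g * ((L y0)⁻¹)⁻¹ := by rw [inv_inv]
      rw [this, conj_pow, hga]; group
    suffices hs1 : (L y0)⁻¹ * g * L y0 ∈ C by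
      have e : g = ((((L y0)⁻¹ * g * L y0) * L y0 * ((L y0)⁻¹ * g * L y0)⁻¹ * (L y0)⁻¹)⁻¹) *
        ((L y0)⁻¹ * g * L y0) := by group
      rw [e]
      exact mul_mem (hOC (inv_mem (hs1.2 _ (L_mem y0)))) hs1
    generalize (L y0)⁻¹ * g * L y0 = s at hsa hsm hsq
    obtain ⟨s', hs', e⟩ := lift_mem π hsm
    have htriv := lift_fix π hs Nat.prime_two hq h2 hMF hsq hs' e
    have hgen : ∀ x, s * L x * s⁻¹ * (L x)⁻¹ ∈ O := by
      intro x
      obtain ⟨u, hu, hu'⟩ := fix_pp hq hsq (X := {z | π z = π x})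
        (fun z hz => (htriv z).trans hz)
        (by rw [card_fiber, hker]; exact not_dvd_sub h T hq h2)
      obtain ⟨r, hr, rfl⟩ := exists_ker π (x := u) (y := x) hu.symm
      have hr' : r ∈ T := by rw [← hker]; exact hr
      have e1 : s * L u * s⁻¹ = L u := by rw [aut_L hsa, hu']; group
      have e2 : s * L (u * r) * s⁻¹ * (L (u * r))⁻¹ = (s * L u * s⁻¹) *
          (s * ((L u)⁻¹ * L (u * r)) * s⁻¹ * ((L u)⁻¹ * L (u * r))⁻¹) * (L u)⁻¹ := by group
      rw [e2, e1]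
      exact conj_mem' hO2 (L_mem u) (mul_mem (conj_mem' hO2 hsm (hr' u)) (inv_mem (hr' u)))
    refine ⟨hsm, fun k hk => ?_⟩
    induction hk using Subgroup.closure_induction with
    | mem k hk =>
      rcases hk with ⟨z, rfl⟩ | ⟨z, rfl⟩
      · exact hgen z
      · rw [R_eq_L h]; exact hgen z
    | one => simp
    | mul k k' hk _ ih ih' =>
      have : s * (k * k') * s⁻¹ * (k * k')⁻¹ =
          (s * k * s⁻¹ * k⁻¹) * (k * (s * k' * s⁻¹ * k'⁻¹) * k⁻¹) := by group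
      rw [this]
      exact mul_mem ih (conj_mem' hO2 hk ih')
    | inv k hk ih =>
      have : s * k⁻¹ * s⁻¹ * k⁻¹⁻¹ = k⁻¹ * (s * k * s⁻¹ * k⁻¹)⁻¹ * k⁻¹⁻¹ := by group
      rw [this]
      exact conj_mem' hO2 (inv_mem hk) (inv_mem ih)
  refine ⟨O, hO3, fun x y => ?_⟩
  have := (hC (inv_mem (R_mem y))).2 _ (inv_mem (L_mem x))
  have e : mm x y = (R y)⁻¹ * (L x)⁻¹ * (R y)⁻¹⁻¹ * (L x)⁻¹⁻¹ := by unfold mm; group
  rwa [e]

variable {Q : Type} [ALoop Q] [Finite Q]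

theorem sy_pgroup (h : ∀ x : Q, ∃ k, pw x (2 ^ k) = 1) :
    IsPGroup 2 (Subgroup.closure (Set.range (sy : Q → Perm Q))) := by
  apply baer_suzuki
  · rintro _ ⟨v, rfl⟩ _ ⟨u, rfl⟩
    exact ⟨_, (sy_conj v u).symm⟩
  · rintro _ ⟨v, rfl⟩ _ ⟨u, rfl⟩
    obtain ⟨k, hk⟩ := h ((L u)⁻¹ v)
    refine dihedral (sy_mul_self v) (sy_mul_self u) (k := k + 1) ?_
    have h1 := rho_pow_eq_one hk
    have h2 : sy v * sy u = L u * rho ((L u)⁻¹ v) * (L u)⁻¹ := by
      rw [rho, ← conj_sy (inv_mem (L_mem u)) v]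
      unfold sy; group
    rw [h2, conj_pow, pow_succ' 2 k, h1]; group

theorem conj_sy' {k : Perm Q} (hk : k ∈ Subgroup.closure (Set.range (sy : Q → Perm Q))) :
    ∀ u, k * sy u * k⁻¹ = sy (k u) := by
  induction hk using Subgroup.closure_induction with
  | mem k hk => obtain ⟨v, rfl⟩ := hk; exact sy_conj v
  | one => intro u; simp
  | mul g k _ _ ihg ihk => intro u; rw [Perm.mul_apply, ← ihg, ← ihk]; group
  | inv k _ ih =>
    intro u
    have := ih (k⁻¹ u)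
    rw [show k (k⁻¹ u) = u by simp] at this
    rw [← this]; group

theorem Mg_two {k : ℕ} (hk : Nat.card Q = 2 ^ k) : IsPGroup 2 (Mg Q) := by
  have hn : Mlt Q ≤ Subgroup.normalizer
      (Subgroup.closure (Set.range (sy : Q → Perm Q)) : Set (Perm Q)) := by
    rw [Subgroup.le_normalizer_closure_iff]
    rintro g hg _ ⟨u, rfl⟩
    exact Subgroup.subset_closure ⟨_, (conj_sy hg u).symm⟩
  refine Mg_pgroup Nat.prime_two _ _ (sy_pgroup (two_elt_of_card hk)) le_rfl hn sy rfl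
    (fun g hg _ x => conj_sy hg x) (fun c hc x => ?_) ?_
  · rw [← conj_sy' hc]
    exact Subgroup.commutator_mem_commutator hc (Subgroup.subset_closure ⟨x, rfl⟩)
  · intro F _ π hs hker
    haveI : Finite F := Finite.of_surjective π hs
    apply e2_main
    intro y
    obtain ⟨x, rfl⟩ := hs y
    rw [← map_mul, ← MonoidHom.mem_mker, hker]
    exact ⟨⟨sy x, Subgroup.subset_closure ⟨x, rfl⟩⟩, sy_apply_one x⟩

theorem middle_nucleus {p k : ℕ} (hp : p.Prime) (hk : Nat.card Q = p ^ k) (h0 : k ≠ 0) :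
    ∃ a : Q, a ≠ 1 ∧ ∀ x y, (x * a) * y = x * (a * y) := by
  refine nucleus_of hp ?_ (hk ▸ dvd_pow_self p h0)
  by_cases h2 : p = 2
  · subst h2; exact Mg_two hk
  · exact Mg_odd hp h2 hk

end Pool.Agent.H921Z.Loop
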