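import Mathlib.Logic.Basic

set_option autoImplicit false
set_option linter.all false

namespace Pool.Agent.H921Z.Loop

/-- Machine-found equational derivation (antiautomorphic inverse property of automorphic loops). -/
theorem aaip_eq {Q : Type} (m : Q → Q → Q) (r : Q → Q → Q) (d : Q → Q → Q) (t : Q → Q → Q → Q) (e a p b q : Q)
    (e0 : ∀ x0 : Q, (m e x0) = x0)
    (e1 : ∀ x0 : Q, (m x0 e) = x0)
    (e2 : ∀ x0 x1 : Q, (m x0 (d x0 x1)) = x1)
    (e3 : ∀ x0 x1 : Q, (d x0 (m x0 x1)) = x1)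
    (e4 : ∀ x0 x1 : Q, (m (r x1 x0) x0) = x1)
    (e5 : ∀ x0 x1 : Q, (r (m x1 x0) x0) = x1)
    (e6 : ∀ x0 x1 : Q, (t e x0 x1) = (m x0 x1))
    (e7 : ∀ x0 x1 x2 x3 : Q, (m x0 (t x1 x2 x3)) = (t (m x0 x1) (m x0 x2) (m x0 x3)))
    (e8 : ∀ x0 x1 x2 x3 : Q, (m (t x1 x2 x3) x0) = (t (m x1 x0) (m x2 x0) (m x3 x0)))
    (e10 : ∀ x0 x1 x2 x3 : Q, (r (t x1 x2 x3) x0) = (t (r x1 x0) (r x2 x0) (r x3 x0)))
    (e11 : (m a p) = e)
    (e13 : (m b q) = e)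
    (e14 : (m q b) = e)
    : (m (m a b) (m q p)) = e := by
  have cm01 : ∀ {y0 y1 z0 z1 : Q}, y0 = z0 → y1 = z1 → m y0 y1 = m z0 z1 := by
    intro y0 y1 z0 z1 h0 h1
    subst h0 h1
    rfl
  have cr01 : ∀ {y0 y1 z0 z1 : Q}, y0 = z0 → y1 = z1 → r y0 y1 = r z0 z1 := by
    intro y0 y1 z0 z1 h0 h1
    subst h0 h1
    rfl
  have cd01 : ∀ {y0 y1 z0 z1 : Q}, y0 = z0 → y1 = z1 → d y0 y1 = d z0 z1 := by
    intro y0 y1 z0 z1 h0 h1
    subst h0 h1
    rfl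
  have ct012 : ∀ {y0 y1 y2 z0 z1 z2 : Q}, y0 = z0 → y1 = z1 → y2 = z2 → t y0 y1 y2 = t z0 z1 z2 := by
    intro y0 y1 y2 z0 z1 z2 h0 h1 h2
    subst h0 h1 h2
    rfl
  have e15 : ∀ x0 : Q, (m e x0) = x0 := by
    intro x0
    have s1 : (m e x0) = x0 := (e0 x0)
    exact s1
  have e16 : ∀ x0 : Q, (m x0 e) = x0 := by
    intro x0
    have s1 : (m x0 e) = x0 := (e1 x0)
    exact s1
  have e17 : ∀ x0 x1 : Q, (m x0 (d x0 x1)) = x1 := by
    intro x0 x1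
    have s1 : (m x0 (d x0 x1)) = x1 := (e2 x0 x1)
    exact s1
  have e18 : ∀ x0 x1 : Q, (d x0 (m x0 x1)) = x1 := by
    intro x0 x1
    have s1 : (d x0 (m x0 x1)) = x1 := (e3 x0 x1)
    exact s1
  have e19 : ∀ x0 x1 : Q, (m (r x0 x1) x1) = x0 := by
    intro x0 x1
    have s1 : (m (r x0 x1) x1) = x0 := (e4 x1 x0)
    exact s1
  have e20 : ∀ x0 x1 : Q, (r (m x0 x1) x1) = x0 := by
    intro x0 x1
    have s1 : (r (m x0 x1) x1) = x0 := (e5 x1 x0)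
    exact s1
  have e21 : ∀ x0 x1 : Q, (t e x0 x1) = (m x0 x1) := by
    intro x0 x1
    have s1 : (t e x0 x1) = (m x0 x1) := (e6 x0 x1)
    exact s1
  have e22 : ∀ x0 x1 x2 x3 : Q, (t (m x0 x1) (m x0 x2) (m x0 x3)) = (m x0 (t x1 x2 x3)) := by
    intro x0 x1 x2 x3
    have s1 : (m x0 (t x1 x2 x3)) = (t (m x0 x1) (m x0 x2) (m x0 x3)) := (e7 x0 x1 x2 x3)
    exact Eq.symm s1
  have e23 : ∀ x0 x1 x2 x3 : Q, (t (m x0 x1) (m x2 x1) (m x3 x1)) = (m (t x0 x2 x3) x1) := by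
    intro x0 x1 x2 x3
    have s1 : (m (t x0 x2 x3) x1) = (t (m x0 x1) (m x2 x1) (m x3 x1)) := (e8 x1 x0 x2 x3)
    exact Eq.symm s1
  have e25 : ∀ x0 x1 x2 x3 : Q, (t (r x0 x1) (r x2 x1) (r x3 x1)) = (r (t x0 x2 x3) x1) := by
    intro x0 x1 x2 x3
    have s1 : (r (t x0 x2 x3) x1) = (t (r x0 x1) (r x2 x1) (r x3 x1)) := (e10 x1 x0 x2 x3)
    exact Eq.symm s1
  have e26 : (m a p) = e := by
    have s1 : (m a p) = e := (e11)
    exact s1
  have e28 : (m b q) = e := by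
    have s1 : (m b q) = e := (e13)
    exact s1
  have e29 : (m q b) = e := by
    have s1 : (m q b) = e := (e14)
    exact s1
  have e33 : ∀ x0 : Q, (r x0 x0) = e := by
    intro x0
    have s1 : (r (m e x0) x0) = (r x0 x0) := (cr01 (e15 x0) rfl)
    have s2 : (r (m e x0) x0) = e := (e20 e x0)
    exact (Eq.symm s1).trans s2
  have e42 : ∀ x0 x1 : Q, (d (r x0 x1) x0) = x1 := by
    intro x0 x1
    have s1 : (d (r x0 x1) (m (r x0 x1) x1)) = (d (r x0 x1) x0) := (cd01 rfl (e19 x0 x1))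
    have s2 : (d (r x0 x1) (m (r x0 x1) x1)) = x1 := (e18 (r x0 x1) x1)
    exact (Eq.symm s1).trans s2
  have e43 : ∀ x0 x1 : Q, (r x0 (d x1 x0)) = x1 := by
    intro x0 x1
    have s1 : (r (m x1 (d x1 x0)) (d x1 x0)) = (r x0 (d x1 x0)) := (cr01 (e17 x1 x0) rfl)
    have s2 : (r (m x1 (d x1 x0)) (d x1 x0)) = x1 := (e20 x1 (d x1 x0))
    exact (Eq.symm s1).trans s2
  have e46 : ∀ x0 x1 x2 : Q, (t x0 (m x0 x1) (m x0 x2)) = (m x0 (m x1 x2)) := by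
    intro x0 x1 x2
    have s1 : (t (m x0 e) (m x0 x1) (m x0 x2)) = (t x0 (m x0 x1) (m x0 x2)) := (ct012 (e16 x0) rfl rfl)
    have s2 : (t (m x0 e) (m x0 x1) (m x0 x2)) = (m x0 (t e x1 x2)) := (e22 x0 e x1 x2)
    have s3 : (m x0 (t e x1 x2)) = (m x0 (m x1 x2)) := (cm01 rfl (e21 x1 x2))
    exact (Eq.symm s1).trans (Eq.trans s2 s3)
  have e61 : ∀ x0 : Q, (t b e (m b x0)) = (m b (m q x0)) := by
    intro x0
    have s1 : (t b (m b q) (m b x0)) = (t b e (m b x0)) := (ct012 rfl (e28) rfl)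
    have s2 : (t b (m b q) (m b x0)) = (m b (m q x0)) := (e46 b q x0)
    exact (Eq.symm s1).trans s2
  have e66 : ∀ x0 : Q, (t q e (m q x0)) = (m q (m b x0)) := by
    intro x0
    have s1 : (t q (m q b) (m q x0)) = (t q e (m q x0)) := (ct012 rfl (e29) rfl)
    have s2 : (t q (m q b) (m q x0)) = (m q (m b x0)) := (e46 q b x0)
    exact (Eq.symm s1).trans s2
  have e75 : ∀ x0 : Q, (m b (m q (d b x0))) = (t b e x0) := by
    intro x0
    have s1 : (t b e (m b (d b x0))) = (m b (m q (d b x0))) := (e61 (d b x0))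
    have s2 : (t b e (m b (d b x0))) = (t b e x0) := (ct012 rfl rfl (e17 b x0))
    exact (Eq.symm s1).trans s2
  have e95 : ∀ x0 x1 x2 : Q, (t x0 (m x1 x0) (m x2 x0)) = (m (m x1 x2) x0) := by
    intro x0 x1 x2
    have s1 : (t (m e x0) (m x1 x0) (m x2 x0)) = (t x0 (m x1 x0) (m x2 x0)) := (ct012 (e15 x0) rfl rfl)
    have s2 : (t (m e x0) (m x1 x0) (m x2 x0)) = (m (t e x1 x2) x0) := (e23 e x0 x1 x2)
    have s3 : (m (t e x1 x2) x0) = (m (m x1 x2) x0) := (cm01 (e21 x1 x2) rfl)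
    exact (Eq.symm s1).trans (Eq.trans s2 s3)
  have e272 : ∀ x0 x1 : Q, (m (m b x0) (m b x1)) = (m b (t q x0 x1)) := by
    intro x0 x1
    have s1 : (t (m b q) (m b x0) (m b x1)) = (t e (m b x0) (m b x1)) := (ct012 (e28) rfl rfl)
    have s2 : (t e (m b x0) (m b x1)) = (m (m b x0) (m b x1)) := (e21 (m b x0) (m b x1))
    have s3 : (t (m b q) (m b x0) (m b x1)) = (m b (t q x0 x1)) := (e22 b q x0 x1)
    exact (Eq.symm (Eq.trans s1 s2)).trans s3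
  have e273 : ∀ x0 : Q, (m b (t q e x0)) = (m b (m b x0)) := by
    intro x0
    have s1 : (m (m b e) (m b x0)) = (m b (t q e x0)) := (e272 e x0)
    have s2 : (m (m b e) (m b x0)) = (m b (m b x0)) := (cm01 (e16 b) rfl)
    exact (Eq.symm s1).trans s2
  have e283 : ∀ x0 : Q, (t q e x0) = (m b x0) := by
    intro x0
    have s1 : (d b (m b (t q e x0))) = (t q e x0) := (e18 b (t q e x0))
    have s2 : (d b (m b (t q e x0))) = (d b (m b (m b x0))) := (cd01 rfl (e273 x0))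
    have s3 : (d b (m b (m b x0))) = (m b x0) := (e18 b (m b x0))
    exact (Eq.symm s1).trans (Eq.trans s2 s3)
  have e284 : ∀ x0 : Q, (m q (m b x0)) = (m b (m q x0)) := by
    intro x0
    have s1 : (t q e (m q x0)) = (m q (m b x0)) := (e66 x0)
    have s2 : (t q e (m q x0)) = (m b (m q x0)) := (e283 (m q x0))
    exact (Eq.symm s1).trans s2
  have e297 : ∀ x0 : Q, (t b e x0) = (m q x0) := by
    intro x0
    have s1 : (m q (m b (d b x0))) = (m b (m q (d b x0))) := (e284 (d b x0))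
    have s2 : (m b (m q (d b x0))) = (t b e x0) := (e75 x0)
    have s3 : (m q (m b (d b x0))) = (m q x0) := (cm01 rfl (e17 b x0))
    exact (Eq.symm (Eq.trans s1 s2)).trans s3
  have e414 : ∀ x0 x1 x2 : Q, (m (r x0 x1) (r x2 x1)) = (r (t x1 x0 x2) x1) := by
    intro x0 x1 x2
    have s1 : (t (r x1 x1) (r x0 x1) (r x2 x1)) = (t e (r x0 x1) (r x2 x1)) := (ct012 (e33 x1) rfl rfl)
    have s2 : (t e (r x0 x1) (r x2 x1)) = (m (r x0 x1) (r x2 x1)) := (e21 (r x0 x1) (r x2 x1))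
    have s3 : (t (r x1 x1) (r x0 x1) (r x2 x1)) = (r (t x1 x0 x2) x1) := (e25 x1 x1 x0 x2)
    exact (Eq.symm (Eq.trans s1 s2)).trans s3
  have e428 : ∀ x0 x1 x2 : Q, (m x0 (m x1 (d x0 x2))) = (t x0 (m x0 x1) x2) := by
    intro x0 x1 x2
    have s1 : (t x0 (m x0 x1) (m x0 (d x0 x2))) = (m x0 (m x1 (d x0 x2))) := (e46 x0 x1 (d x0 x2))
    have s2 : (t x0 (m x0 x1) (m x0 (d x0 x2))) = (t x0 (m x0 x1) x2) := (ct012 rfl rfl (e17 x0 x2))
    exact (Eq.symm s1).trans s2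
  have e429 : ∀ x0 x1 : Q, (t x0 (m x0 x0) x1) = (m x0 x1) := by
    intro x0 x1
    have s1 : (m x0 (m x0 (d x0 x1))) = (t x0 (m x0 x0) x1) := (e428 x0 x0 x1)
    have s2 : (m x0 (m x0 (d x0 x1))) = (m x0 x1) := (cm01 rfl (e17 x0 x1))
    exact (Eq.symm s1).trans s2
  have e430 : ∀ x0 x1 : Q, (m (m x0 x1) x0) = (m x0 (m x1 x0)) := by
    intro x0 x1
    have s1 : (t x0 (m x0 x0) (m x1 x0)) = (m (m x0 x1) x0) := (e95 x0 x0 x1)
    have s2 : (t x0 (m x0 x0) (m x1 x0)) = (m x0 (m x1 x0)) := (e429 x0 (m x1 x0))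
    exact (Eq.symm s1).trans s2
  have e432 : ∀ x0 x1 : Q, (d (m x0 x1) (m x0 (m x1 x0))) = x0 := by
    intro x0 x1
    have s1 : (d (m x0 x1) (m (m x0 x1) x0)) = (d (m x0 x1) (m x0 (m x1 x0))) := (cd01 rfl (e430 x0 x1))
    have s2 : (d (m x0 x1) (m (m x0 x1) x0)) = x0 := (e18 (m x0 x1) x0)
    exact (Eq.symm s1).trans s2
  have e434 : ∀ x0 x1 : Q, (d (m x0 (r x1 x0)) (m x0 x1)) = x0 := by
    intro x0 x1
    have s1 : (d (m x0 (r x1 x0)) (m x0 (m (r x1 x0) x0))) = (d (m x0 (r x1 x0)) (m x0 x1)) := (cd01 rfl (cm01 rfl (e19 x1 x0)))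
    have s2 : (d (m x0 (r x1 x0)) (m x0 (m (r x1 x0) x0))) = x0 := (e432 x0 (r x1 x0))
    exact (Eq.symm s1).trans s2
  have e435 : ∀ x0 : Q, (d (m x0 (r e x0)) x0) = x0 := by
    intro x0
    have s1 : (d (m x0 (r e x0)) (m x0 e)) = (d (m x0 (r e x0)) x0) := (cd01 rfl (e16 x0))
    have s2 : (d (m x0 (r e x0)) (m x0 e)) = x0 := (e434 x0 e)
    exact (Eq.symm s1).trans s2
  have e436 : ∀ x0 : Q, (m x0 (r e x0)) = e := by
    intro x0
    have s1 : (r x0 (d (m x0 (r e x0)) x0)) = (m x0 (r e x0)) := (e43 x0 (m x0 (r e x0)))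
    have s2 : (r x0 (d (m x0 (r e x0)) x0)) = (r x0 x0) := (cr01 rfl (e435 x0))
    have s3 : (r x0 x0) = e := (e33 x0)
    exact (Eq.symm s1).trans (Eq.trans s2 s3)
  have e437 : ∀ x0 : Q, (r e x0) = (d x0 e) := by
    intro x0
    have s1 : (d x0 (m x0 (r e x0))) = (r e x0) := (e18 x0 (r e x0))
    have s2 : (d x0 (m x0 (r e x0))) = (d x0 e) := (cd01 rfl (e436 x0))
    exact (Eq.symm s1).trans s2
  have e438 : ∀ x0 : Q, (d (d x0 e) e) = x0 := by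
    intro x0
    have s1 : (d (r e x0) e) = (d (d x0 e) e) := (cd01 (e437 x0) rfl)
    have s2 : (d (r e x0) e) = x0 := (e42 e x0)
    exact (Eq.symm s1).trans s2
  have e690 : ∀ x0 x1 : Q, (m (r x0 x1) (d x1 e)) = (r (t x1 x0 e) x1) := by
    intro x0 x1
    have s1 : (m (r x0 x1) (r e x1)) = (m (r x0 x1) (d x1 e)) := (cm01 rfl (e437 x1))
    have s2 : (m (r x0 x1) (r e x1)) = (r (t x1 x0 e) x1) := (e414 x0 x1 e)
    exact (Eq.symm s1).trans s2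
  have e845 : ∀ x0 x1 x2 : Q, (t (m x0 x1) x0 (m x0 x2)) = (m x0 (t x1 e x2)) := by
    intro x0 x1 x2
    have s1 : (t (m x0 x1) (m x0 e) (m x0 x2)) = (t (m x0 x1) x0 (m x0 x2)) := (ct012 rfl (e16 x0) rfl)
    have s2 : (t (m x0 x1) (m x0 e) (m x0 x2)) = (m x0 (t x1 e x2)) := (e22 x0 x1 e x2)
    exact (Eq.symm s1).trans s2
  have e846 : ∀ x0 x1 : Q, (t (m x0 x1) x0 x0) = (m x0 (t x1 e e)) := by
    intro x0 x1
    have s1 : (t (m x0 x1) x0 (m x0 e)) = (t (m x0 x1) x0 x0) := (ct012 rfl rfl (e16 x0))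
    have s2 : (t (m x0 x1) x0 (m x0 e)) = (m x0 (t x1 e e)) := (e845 x0 x1 e)
    exact (Eq.symm s1).trans s2
  have e847 : ∀ x0 : Q, (t (m a x0) a e) = (m a (t x0 e p)) := by
    intro x0
    have s1 : (t (m a x0) a (m a p)) = (t (m a x0) a e) := (ct012 rfl rfl (e26))
    have s2 : (t (m a x0) a (m a p)) = (m a (t x0 e p)) := (e845 a x0 p)
    exact (Eq.symm s1).trans s2
  have e855 : ∀ x0 x1 : Q, (m x0 (t (d x0 x1) e e)) = (t x1 x0 x0) := by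
    intro x0 x1
    have s1 : (t (m x0 (d x0 x1)) x0 x0) = (m x0 (t (d x0 x1) e e)) := (e846 x0 (d x0 x1))
    have s2 : (t (m x0 (d x0 x1)) x0 x0) = (t x1 x0 x0) := (ct012 (e17 x0 x1) rfl rfl)
    exact (Eq.symm s1).trans s2
  have e930 : ∀ x0 x1 : Q, (d x0 (t x1 x0 x0)) = (t (d x0 x1) e e) := by
    intro x0 x1
    have s1 : (d x0 (m x0 (t (d x0 x1) e e))) = (d x0 (t x1 x0 x0)) := (cd01 rfl (e855 x0 x1))
    have s2 : (d x0 (m x0 (t (d x0 x1) e e))) = (t (d x0 x1) e e) := (e18 x0 (t (d x0 x1) e e))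
    exact (Eq.symm s1).trans s2
  have e935 : ∀ x0 : Q, (t (d x0 e) e e) = x0 := by
    intro x0
    have s1 : (d x0 (t e x0 x0)) = (t (d x0 e) e e) := (e930 x0 e)
    have s2 : (d x0 (t e x0 x0)) = (d x0 (m x0 x0)) := (cd01 rfl (e21 x0 x0))
    have s3 : (d x0 (m x0 x0)) = x0 := (e18 x0 x0)
    exact (Eq.symm s1).trans (Eq.trans s2 s3)
  have e936 : ∀ x0 : Q, (t x0 e e) = (d x0 e) := by
    intro x0
    have s1 : (t (d (r e x0) e) e e) = (t x0 e e) := (ct012 (e42 e x0) rfl rfl)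
    have s2 : (t (d (r e x0) e) e e) = (r e x0) := (e935 (r e x0))
    have s3 : (r e x0) = (d x0 e) := (e437 x0)
    exact (Eq.symm s1).trans (Eq.trans s2 s3)
  have e937 : ∀ x0 x1 : Q, (t (m x0 x1) x0 x0) = (m x0 (d x1 e)) := by
    intro x0 x1
    have s1 : (t (m x0 x1) x0 x0) = (m x0 (t x1 e e)) := (e846 x0 x1)
    have s2 : (m x0 (t x1 e e)) = (m x0 (d x1 e)) := (cm01 rfl (e936 x1))
    exact (Eq.trans s1 s2)
  have e939 : ∀ x0 x1 : Q, (d x0 (t x1 x0 x0)) = (d (d x0 x1) e) := by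
    intro x0 x1
    have s1 : (d x0 (t x1 x0 x0)) = (t (d x0 x1) e e) := (e930 x0 x1)
    have s2 : (t (d x0 x1) e e) = (d (d x0 x1) e) := (e936 (d x0 x1))
    exact (Eq.trans s1 s2)
  have e1026 : ∀ x0 x1 : Q, (r (t (t x0 x1 e) x1 x1) x0) = x1 := by
    intro x0 x1
    have s1 : (t (m (r x1 x0) (d x0 e)) (r x1 x0) (r x1 x0)) = (t (r (t x0 x1 e) x0) (r x1 x0) (r x1 x0)) := (ct012 (e690 x1 x0) rfl rfl)
    have s2 : (t (r (t x0 x1 e) x0) (r x1 x0) (r x1 x0)) = (r (t (t x0 x1 e) x1 x1) x0) := (e25 (t x0 x1 e) x0 x1 x1)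
    have s3 : (t (m (r x1 x0) (d x0 e)) (r x1 x0) (r x1 x0)) = (m (r x1 x0) (d (d x0 e) e)) := (e937 (r x1 x0) (d x0 e))
    have s4 : (m (r x1 x0) (d (d x0 e) e)) = (m (r x1 x0) x0) := (cm01 rfl (e438 x0))
    have s5 : (m (r x1 x0) x0) = x1 := (e19 x1 x0)
    exact (Eq.symm (Eq.trans s1 s2)).trans (Eq.trans (Eq.trans s3 s4) s5)
  have e1027 : ∀ x0 x1 : Q, (d (d x0 (t x1 x0 e)) e) = x1 := by
    intro x0 x1
    have s1 : (d (r (t (t x1 x0 e) x0 x0) x1) (t (t x1 x0 e) x0 x0)) = (d x0 (t (t x1 x0 e) x0 x0)) := (cd01 (e1026 x1 x0) rfl)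
    have s2 : (d x0 (t (t x1 x0 e) x0 x0)) = (d (d x0 (t x1 x0 e)) e) := (e939 x0 (t x1 x0 e))
    have s3 : (d (r (t (t x1 x0 e) x0 x0) x1) (t (t x1 x0 e) x0 x0)) = x1 := (e42 (t (t x1 x0 e) x0 x0) x1)
    exact (Eq.symm (Eq.trans s1 s2)).trans s3
  have e1029 : ∀ x0 x1 : Q, (d x0 (t x1 x0 e)) = (d x1 e) := by
    intro x0 x1
    have s1 : (r e (d (d x0 (t x1 x0 e)) e)) = (d x0 (t x1 x0 e)) := (e43 e (d x0 (t x1 x0 e)))
    have s2 : (r e (d (d x0 (t x1 x0 e)) e)) = (r e x1) := (cr01 rfl (e1027 x0 x1))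
    have s3 : (r e x1) = (d x1 e) := (e437 x1)
    exact (Eq.symm s1).trans (Eq.trans s2 s3)
  have e1038 : ∀ x0 : Q, (d (m a x0) e) = (t x0 e p) := by
    intro x0
    have s1 : (d a (t (m a x0) a e)) = (d (m a x0) e) := (e1029 a (m a x0))
    have s2 : (d a (t (m a x0) a e)) = (d a (m a (t x0 e p))) := (cd01 rfl (e847 x0))
    have s3 : (d a (m a (t x0 e p))) = (t x0 e p) := (e18 a (t x0 e p))
    exact (Eq.symm s1).trans (Eq.trans s2 s3)
  have e1044 : ∀ x0 : Q, (m (m a x0) (t x0 e p)) = e := by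
    intro x0
    have s1 : (m (m a x0) (d (m a x0) e)) = (m (m a x0) (t x0 e p)) := (cm01 rfl (e1038 x0))
    have s2 : (m (m a x0) (d (m a x0) e)) = e := (e17 (m a x0) e)
    exact (Eq.symm s1).trans s2
  have e1046 : (m (m a b) (m q p)) = e := by
    have s1 : (m (m a b) (t b e p)) = (m (m a b) (m q p)) := (cm01 rfl (e297 p))
    have s2 : (m (m a b) (t b e p)) = e := (e1044 b)
    exact (Eq.symm s1).trans s2
  have e1047 : (m (m a b) (m q p)) = e := by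
    have s1 : (m (m a b) (m q p)) = e := (e1046)
    exact s1
  exact e1047

/-- Machine-found equational derivation (Pasch configuration in commutative automorphic loops of exponent two). -/
theorem pasch_eq {Q : Type} (m : Q → Q → Q) (d : Q → Q → Q) (t : Q → Q → Q → Q) (e b p u c q a : Q)
    (mc : ∀ x y, m x y = m y x)
    (t12 : ∀ x y z, t x y z = t y x z) (t23 : ∀ x y z, t x y z = t x z y)
    (e0 : ∀ x0 : Q, (m x0 e) = x0)
    (e1 : ∀ x0 : Q, (m x0 x0) = e)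
    (e2 : ∀ x0 x1 : Q, (m x0 (d x0 x1)) = x1)
    (e3 : ∀ x0 x1 : Q, (d x0 (m x0 x1)) = x1)
    (e4 : ∀ x0 x1 : Q, (t x0 x1 e) = (m x0 x1))
    (e6 : ∀ x0 x1 x2 x3 : Q, (m x0 (t x1 x2 x3)) = (t (m x0 x1) (m x0 x2) (m x0 x3)))
    (e7 : ∀ x0 x1 x2 x3 : Q, (d x0 (t x1 x2 x3)) = (t (d x0 x1) (d x0 x2) (d x0 x3)))
    (e8 : (m b p) = u)
    (e9 : (m c q) = u)
    (e10 : (t p c a) = u)
    : (t b q a) = u := by
  have cm01 : ∀ {y0 y1 z0 z1 : Q}, y0 = z0 → y1 = z1 → m y0 y1 = m z0 z1 := by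
    intro y0 y1 z0 z1 h0 h1
    subst h0 h1
    rfl
  have cm10 : ∀ {y0 y1 z0 z1 : Q}, y0 = z1 → y1 = z0 → m y0 y1 = m z0 z1 := by
    intro y0 y1 z0 z1 h0 h1
    subst h0 h1
    exact mc _ _
  have cd01 : ∀ {y0 y1 z0 z1 : Q}, y0 = z0 → y1 = z1 → d y0 y1 = d z0 z1 := by
    intro y0 y1 z0 z1 h0 h1
    subst h0 h1
    rfl
  have ct012 : ∀ {y0 y1 y2 z0 z1 z2 : Q}, y0 = z0 → y1 = z1 → y2 = z2 → t y0 y1 y2 = t z0 z1 z2 := by
    intro y0 y1 y2 z0 z1 z2 h0 h1 h2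
    subst h0 h1 h2
    rfl
  have ct021 : ∀ {y0 y1 y2 z0 z1 z2 : Q}, y0 = z0 → y1 = z2 → y2 = z1 → t y0 y1 y2 = t z0 z1 z2 := by
    intro y0 y1 y2 z0 z1 z2 h0 h1 h2
    subst h0 h1 h2
    first | exact t12 _ _ _ | exact t23 _ _ _ | exact (t12 _ _ _).trans (t23 _ _ _) | exact (t23 _ _ _).trans (t12 _ _ _) | exact ((t12 _ _ _).trans (t23 _ _ _)).trans (t12 _ _ _)
  have ct102 : ∀ {y0 y1 y2 z0 z1 z2 : Q}, y0 = z1 → y1 = z0 → y2 = z2 → t y0 y1 y2 = t z0 z1 z2 := by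
    intro y0 y1 y2 z0 z1 z2 h0 h1 h2
    subst h0 h1 h2
    first | exact t12 _ _ _ | exact t23 _ _ _ | exact (t12 _ _ _).trans (t23 _ _ _) | exact (t23 _ _ _).trans (t12 _ _ _) | exact ((t12 _ _ _).trans (t23 _ _ _)).trans (t12 _ _ _)
  have ct120 : ∀ {y0 y1 y2 z0 z1 z2 : Q}, y0 = z1 → y1 = z2 → y2 = z0 → t y0 y1 y2 = t z0 z1 z2 := by
    intro y0 y1 y2 z0 z1 z2 h0 h1 h2
    subst h0 h1 h2
    first | exact t12 _ _ _ | exact t23 _ _ _ | exact (t12 _ _ _).trans (t23 _ _ _) | exact (t23 _ _ _).trans (t12 _ _ _) | exact ((t12 _ _ _).trans (t23 _ _ _)).trans (t12 _ _ _)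
  have ct201 : ∀ {y0 y1 y2 z0 z1 z2 : Q}, y0 = z2 → y1 = z0 → y2 = z1 → t y0 y1 y2 = t z0 z1 z2 := by
    intro y0 y1 y2 z0 z1 z2 h0 h1 h2
    subst h0 h1 h2
    first | exact t12 _ _ _ | exact t23 _ _ _ | exact (t12 _ _ _).trans (t23 _ _ _) | exact (t23 _ _ _).trans (t12 _ _ _) | exact ((t12 _ _ _).trans (t23 _ _ _)).trans (t12 _ _ _)
  have ct210 : ∀ {y0 y1 y2 z0 z1 z2 : Q}, y0 = z2 → y1 = z1 → y2 = z0 → t y0 y1 y2 = t z0 z1 z2 := by
    intro y0 y1 y2 z0 z1 z2 h0 h1 h2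
    subst h0 h1 h2
    first | exact t12 _ _ _ | exact t23 _ _ _ | exact (t12 _ _ _).trans (t23 _ _ _) | exact (t23 _ _ _).trans (t12 _ _ _) | exact ((t12 _ _ _).trans (t23 _ _ _)).trans (t12 _ _ _)
  have e11 : ∀ x0 : Q, (m x0 e) = x0 := by
    intro x0
    have s1 : (m x0 e) = x0 := (e0 x0)
    exact s1
  have e12 : ∀ x0 : Q, (m x0 x0) = e := by
    intro x0
    have s1 : (m x0 x0) = e := (e1 x0)
    exact s1
  have e13 : ∀ x0 x1 : Q, (m x0 (d x0 x1)) = x1 := by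
    intro x0 x1
    have s1 : (m x0 (d x0 x1)) = x1 := (e2 x0 x1)
    exact s1
  have e14 : ∀ x0 x1 : Q, (d x0 (m x0 x1)) = x1 := by
    intro x0 x1
    have s1 : (d x0 (m x0 x1)) = x1 := (e3 x0 x1)
    exact s1
  have e15 : ∀ x0 x1 : Q, (t x0 x1 e) = (m x0 x1) := by
    intro x0 x1
    have s1 : (t x0 x1 e) = (m x0 x1) := (e4 x0 x1)
    exact s1
  have e17 : ∀ x0 x1 x2 x3 : Q, (t (m x0 x1) (m x0 x2) (m x0 x3)) = (m x0 (t x1 x2 x3)) := by
    intro x0 x1 x2 x3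
    have s1 : (m x0 (t x1 x2 x3)) = (t (m x0 x1) (m x0 x2) (m x0 x3)) := (e6 x0 x1 x2 x3)
    exact Eq.symm s1
  have e18 : ∀ x0 x1 x2 x3 : Q, (t (d x0 x1) (d x0 x2) (d x0 x3)) = (d x0 (t x1 x2 x3)) := by
    intro x0 x1 x2 x3
    have s1 : (d x0 (t x1 x2 x3)) = (t (d x0 x1) (d x0 x2) (d x0 x3)) := (e7 x0 x1 x2 x3)
    exact Eq.symm s1
  have e19 : (m b p) = u := by
    have s1 : (m b p) = u := (e8)
    exact s1
  have e20 : (m c q) = u := by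
    have s1 : (m c q) = u := (e9)
    exact s1
  have e21 : (t p c a) = u := by
    have s1 : (t p c a) = u := (e10)
    exact s1
  have e23 : ∀ x0 : Q, (d x0 x0) = e := by
    intro x0
    have s1 : (d x0 (m x0 e)) = (d x0 x0) := (cd01 rfl (e11 x0))
    have s2 : (d x0 (m x0 e)) = e := (e14 x0 e)
    exact (Eq.symm s1).trans s2
  have e24 : ∀ x0 : Q, (d x0 e) = x0 := by
    intro x0
    have s1 : (d x0 (m x0 x0)) = (d x0 e) := (cd01 rfl (e12 x0))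
    have s2 : (d x0 (m x0 x0)) = x0 := (e14 x0 x0)
    exact (Eq.symm s1).trans s2
  have e25 : (d b u) = p := by
    have s1 : (d b (m b p)) = (d b u) := (cd01 rfl (e19))
    have s2 : (d b (m b p)) = p := (e14 b p)
    exact (Eq.symm s1).trans s2
  have e26 : (d p u) = b := by
    have s1 : (d p (m b p)) = (d p u) := (cd01 rfl (e19))
    have s2 : (d p (m b p)) = b := (Eq.trans (cd01 rfl (cm10 rfl rfl)) (e14 p b))
    exact (Eq.symm s1).trans s2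
  have e27 : (d c u) = q := by
    have s1 : (d c (m c q)) = (d c u) := (cd01 rfl (e20))
    have s2 : (d c (m c q)) = q := (e14 c q)
    exact (Eq.symm s1).trans s2
  have e28 : (d q u) = c := by
    have s1 : (d q (m c q)) = (d q u) := (cd01 rfl (e20))
    have s2 : (d q (m c q)) = c := (Eq.trans (cd01 rfl (cm10 rfl rfl)) (e14 q c))
    exact (Eq.symm s1).trans s2
  have e29 : ∀ x0 x1 : Q, (d (d x0 x1) x1) = x0 := by
    intro x0 x1
    have s1 : (d (d x0 x1) (m x0 (d x0 x1))) = (d (d x0 x1) x1) := (cd01 rfl (e13 x0 x1))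
    have s2 : (d (d x0 x1) (m x0 (d x0 x1))) = x0 := (Eq.trans (cd01 rfl (cm10 rfl rfl)) (e14 (d x0 x1) x0))
    exact (Eq.symm s1).trans s2
  have e30 : ∀ x0 x1 x2 : Q, (t x0 (m x0 x1) (m x0 x2)) = (m x0 (m x1 x2)) := by
    intro x0 x1 x2
    have s1 : (t (m x0 e) (m x0 x1) (m x0 x2)) = (t x0 (m x0 x1) (m x0 x2)) := (ct012 (e11 x0) rfl rfl)
    have s2 : (t (m x0 e) (m x0 x1) (m x0 x2)) = (m x0 (t x1 x2 e)) := (Eq.trans (e17 x0 e x1 x2) (cm01 rfl (ct201 rfl rfl rfl)))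
    have s3 : (m x0 (t x1 x2 e)) = (m x0 (m x1 x2)) := (cm01 rfl (e15 x1 x2))
    exact (Eq.symm s1).trans (Eq.trans s2 s3)
  have e31 : ∀ x0 : Q, (t b u (m x0 b)) = (m b (m x0 p)) := by
    intro x0
    have s1 : (t b (m b p) (m x0 b)) = (t b u (m x0 b)) := (ct012 rfl (e19) rfl)
    have s2 : (t b (m b p) (m x0 b)) = (m b (m x0 p)) := (Eq.trans (Eq.trans (ct012 rfl rfl (cm10 rfl rfl)) (e30 b p x0)) (cm01 rfl (cm10 rfl rfl)))
    exact (Eq.symm s1).trans s2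
  have e32 : ∀ x0 : Q, (t p u (m x0 p)) = (m p (m x0 b)) := by
    intro x0
    have s1 : (t p (m b p) (m x0 p)) = (t p u (m x0 p)) := (ct012 rfl (e19) rfl)
    have s2 : (t p (m b p) (m x0 p)) = (m p (m x0 b)) := (Eq.trans (Eq.trans (ct012 rfl (cm10 rfl rfl) (cm10 rfl rfl)) (e30 p b x0)) (cm01 rfl (cm10 rfl rfl)))
    exact (Eq.symm s1).trans s2
  have e34 : ∀ x0 : Q, (t u q (m x0 q)) = (m q (m x0 c)) := by
    intro x0
    have s1 : (t q (m c q) (m x0 q)) = (t u q (m x0 q)) := (Eq.trans (ct012 rfl (e20) rfl) (ct102 rfl rfl rfl))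
    have s2 : (t q (m c q) (m x0 q)) = (m q (m x0 c)) := (Eq.trans (Eq.trans (ct012 rfl (cm10 rfl rfl) (cm10 rfl rfl)) (e30 q c x0)) (cm01 rfl (cm10 rfl rfl)))
    exact (Eq.symm s1).trans s2
  have e36 : ∀ x0 : Q, (m p (m b (d p x0))) = (t x0 p u) := by
    intro x0
    have s1 : (t p u (m p (d p x0))) = (m p (m b (d p x0))) := (Eq.trans (Eq.trans (ct012 rfl rfl (cm10 rfl rfl)) (e32 (d p x0))) (cm01 rfl (cm10 rfl rfl)))
    have s2 : (t p u (m p (d p x0))) = (t x0 p u) := (Eq.trans (ct012 rfl rfl (e13 p x0)) (ct120 rfl rfl rfl))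
    exact (Eq.symm s1).trans s2
  have e38 : ∀ x0 : Q, (m q (m c (d q x0))) = (t x0 u q) := by
    intro x0
    have s1 : (t u q (m q (d q x0))) = (m q (m c (d q x0))) := (Eq.trans (Eq.trans (ct012 rfl rfl (cm10 rfl rfl)) (e34 (d q x0))) (cm01 rfl (cm10 rfl rfl)))
    have s2 : (t u q (m q (d q x0))) = (t x0 u q) := (Eq.trans (ct012 rfl rfl (e13 q x0)) (ct120 rfl rfl rfl))
    exact (Eq.symm s1).trans s2
  have e41 : ∀ x0 : Q, (d p (t x0 p u)) = (m b (d p x0)) := by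
    intro x0
    have s1 : (d p (m p (m b (d p x0)))) = (d p (t x0 p u)) := (cd01 rfl (e36 x0))
    have s2 : (d p (m p (m b (d p x0)))) = (m b (d p x0)) := (e14 p (m b (d p x0)))
    exact (Eq.symm s1).trans s2
  have e42 : ∀ x0 : Q, (d (m b (d p x0)) (t x0 p u)) = p := by
    intro x0
    have s1 : (d (m b (d p x0)) (m p (m b (d p x0)))) = (d (m b (d p x0)) (t x0 p u)) := (cd01 rfl (e36 x0))
    have s2 : (d (m b (d p x0)) (m p (m b (d p x0)))) = p := (Eq.trans (cd01 rfl (cm10 rfl rfl)) (e14 (m b (d p x0)) p))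
    exact (Eq.symm s1).trans s2
  have e45 : ∀ x0 : Q, (d q (t x0 u q)) = (m c (d q x0)) := by
    intro x0
    have s1 : (d q (m q (m c (d q x0)))) = (d q (t x0 u q)) := (cd01 rfl (e38 x0))
    have s2 : (d q (m q (m c (d q x0)))) = (m c (d q x0)) := (e14 q (m c (d q x0)))
    exact (Eq.symm s1).trans s2
  have e46 : ∀ x0 : Q, (d (m c (d q x0)) (t x0 u q)) = q := by
    intro x0
    have s1 : (d (m c (d q x0)) (m q (m c (d q x0)))) = (d (m c (d q x0)) (t x0 u q)) := (cd01 rfl (e38 x0))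
    have s2 : (d (m c (d q x0)) (m q (m c (d q x0)))) = q := (Eq.trans (cd01 rfl (cm10 rfl rfl)) (e14 (m c (d q x0)) q))
    exact (Eq.symm s1).trans s2
  have e47 : ∀ x0 x1 x2 : Q, (m (m x0 x1) (m x0 x2)) = (m x0 (t x0 x1 x2)) := by
    intro x0 x1 x2
    have s1 : (t (m x0 x0) (m x0 x1) (m x0 x2)) = (t e (m x0 x1) (m x0 x2)) := (ct012 (e12 x0) rfl rfl)
    have s2 : (t e (m x0 x1) (m x0 x2)) = (m (m x0 x1) (m x0 x2)) := (Eq.trans (ct201 rfl rfl rfl) (e15 (m x0 x1) (m x0 x2)))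
    have s3 : (t (m x0 x0) (m x0 x1) (m x0 x2)) = (m x0 (t x0 x1 x2)) := (e17 x0 x0 x1 x2)
    exact (Eq.symm (Eq.trans s1 s2)).trans s3
  have e50 : ∀ x0 : Q, (m c (t x0 c q)) = (m u (m x0 c)) := by
    intro x0
    have s1 : (m (m c q) (m x0 c)) = (m c (t x0 c q)) := (Eq.trans (Eq.trans (cm01 rfl (cm10 rfl rfl)) (e47 c q x0)) (cm01 rfl (ct120 rfl rfl rfl)))
    have s2 : (m (m c q) (m x0 c)) = (m u (m x0 c)) := (cm01 (e20) rfl)
    exact (Eq.symm s1).trans s2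
  have e56 : ∀ x0 : Q, (d c (m u (m x0 c))) = (t x0 c q) := by
    intro x0
    have s1 : (d c (m c (t x0 c q))) = (d c (m u (m x0 c))) := (cd01 rfl (e50 x0))
    have s2 : (d c (m c (t x0 c q))) = (t x0 c q) := (e14 c (t x0 c q))
    exact (Eq.symm s1).trans s2
  have e62 : ∀ x0 : Q, (t c q (d c x0)) = (d c (m x0 u)) := by
    intro x0
    have s1 : (d c (m u (m c (d c x0)))) = (t c q (d c x0)) := (Eq.trans (Eq.trans (cd01 rfl (cm01 rfl (cm10 rfl rfl))) (e56 (d c x0))) (ct201 rfl rfl rfl))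
    have s2 : (d c (m u (m c (d c x0)))) = (d c (m x0 u)) := (Eq.trans (cd01 rfl (cm01 rfl (e13 c x0))) (cd01 rfl (cm10 rfl rfl)))
    exact (Eq.symm s1).trans s2
  have e64 : ∀ x0 x1 x2 : Q, (m (d x0 x1) (d x0 x2)) = (d x0 (t x0 x1 x2)) := by
    intro x0 x1 x2
    have s1 : (t (d x0 x1) (d x0 x2) (d x0 x0)) = (t e (d x0 x1) (d x0 x2)) := (Eq.trans (ct012 rfl rfl (e23 x0)) (ct120 rfl rfl rfl))
    have s2 : (t e (d x0 x1) (d x0 x2)) = (m (d x0 x1) (d x0 x2)) := (Eq.trans (ct201 rfl rfl rfl) (e15 (d x0 x1) (d x0 x2)))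
    have s3 : (t (d x0 x1) (d x0 x2) (d x0 x0)) = (d x0 (t x0 x1 x2)) := (Eq.trans (e18 x0 x1 x2 x0) (cd01 rfl (ct120 rfl rfl rfl)))
    exact (Eq.symm (Eq.trans s1 s2)).trans s3
  have e65 : ∀ x0 x1 x2 : Q, (t x0 (d x0 x1) (d x0 x2)) = (d x0 (m x1 x2)) := by
    intro x0 x1 x2
    have s1 : (t (d x0 x1) (d x0 x2) (d x0 e)) = (t x0 (d x0 x1) (d x0 x2)) := (Eq.trans (ct012 rfl rfl (e24 x0)) (ct120 rfl rfl rfl))
    have s2 : (t (d x0 x1) (d x0 x2) (d x0 e)) = (d x0 (t x1 x2 e)) := (e18 x0 x1 x2 e)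
    have s3 : (d x0 (t x1 x2 e)) = (d x0 (m x1 x2)) := (cd01 rfl (e15 x1 x2))
    exact (Eq.symm s1).trans (Eq.trans s2 s3)
  have e66 : ∀ x0 x1 x2 : Q, (m x0 (m x1 (d x0 x2))) = (t x0 x2 (m x0 x1)) := by
    intro x0 x1 x2
    have s1 : (t x0 (m x0 x1) (m x0 (d x0 x2))) = (m x0 (m x1 (d x0 x2))) := (e30 x0 x1 (d x0 x2))
    have s2 : (t x0 (m x0 x1) (m x0 (d x0 x2))) = (t x0 x2 (m x0 x1)) := (Eq.trans (ct012 rfl rfl (e13 x0 x2)) (ct021 rfl rfl rfl))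
    exact (Eq.symm s1).trans s2
  have e67 : ∀ x0 x1 x2 : Q, (m x0 (t x0 x1 (d x0 x2))) = (m x2 (m x0 x1)) := by
    intro x0 x1 x2
    have s1 : (m (m x0 x1) (m x0 (d x0 x2))) = (m x0 (t x0 x1 (d x0 x2))) := (e47 x0 x1 (d x0 x2))
    have s2 : (m (m x0 x1) (m x0 (d x0 x2))) = (m x2 (m x0 x1)) := (Eq.trans (cm01 rfl (e13 x0 x2)) (cm10 rfl rfl))
    exact (Eq.symm s1).trans s2
  have e68 : ∀ x0 x1 x2 : Q, (d (m x0 x1) (m x0 (t x0 x1 x2))) = (m x0 x2) := by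
    intro x0 x1 x2
    have s1 : (d (m x0 x1) (m (m x0 x1) (m x0 x2))) = (d (m x0 x1) (m x0 (t x0 x1 x2))) := (cd01 rfl (e47 x0 x1 x2))
    have s2 : (d (m x0 x1) (m (m x0 x1) (m x0 x2))) = (m x0 x2) := (e14 (m x0 x1) (m x0 x2))
    exact (Eq.symm s1).trans s2
  have e75 : ∀ x0 x1 x2 : Q, (d (d x0 x1) (d x0 (t x0 x1 x2))) = (d x0 x2) := by
    intro x0 x1 x2
    have s1 : (d (d x0 x1) (m (d x0 x1) (d x0 x2))) = (d (d x0 x1) (d x0 (t x0 x1 x2))) := (cd01 rfl (e64 x0 x1 x2))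
    have s2 : (d (d x0 x1) (m (d x0 x1) (d x0 x2))) = (d x0 x2) := (e14 (d x0 x1) (d x0 x2))
    exact (Eq.symm s1).trans s2
  have e77 : (d (d p a) b) = (d p c) := by
    have s1 : (d (d p a) (d p (t p c a))) = (d (d p a) (d p u)) := (cd01 rfl (cd01 rfl (e21)))
    have s2 : (d (d p a) (d p u)) = (d (d p a) b) := (cd01 rfl (e26))
    have s3 : (d (d p a) (d p (t p c a))) = (d p c) := (Eq.trans (cd01 rfl (cd01 rfl (ct021 rfl rfl rfl))) (e75 p a c))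
    exact (Eq.symm (Eq.trans s1 s2)).trans s3
  have e91 : ∀ x0 x1 x2 : Q, (d x0 (m x1 (m x0 x2))) = (t x0 x2 (d x0 x1)) := by
    intro x0 x1 x2
    have s1 : (t x0 (d x0 x1) (d x0 (m x0 x2))) = (d x0 (m x1 (m x0 x2))) := (e65 x0 x1 (m x0 x2))
    have s2 : (t x0 (d x0 x1) (d x0 (m x0 x2))) = (t x0 x2 (d x0 x1)) := (Eq.trans (ct012 rfl rfl (e14 x0 x2)) (ct021 rfl rfl rfl))
    exact (Eq.symm s1).trans s2
  have e104 : ∀ x0 x1 x2 : Q, (t x0 x1 (m x0 (d (d x0 x1) x2))) = (m x0 x2) := by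
    intro x0 x1 x2
    have s1 : (m x0 (m (d x0 x1) (d (d x0 x1) x2))) = (t x0 x1 (m x0 (d (d x0 x1) x2))) := (Eq.trans (cm01 rfl (cm10 rfl rfl)) (e66 x0 (d (d x0 x1) x2) x1))
    have s2 : (m x0 (m (d x0 x1) (d (d x0 x1) x2))) = (m x0 x2) := (cm01 rfl (e13 (d x0 x1) x2))
    exact (Eq.symm s1).trans s2
  have e107 : ∀ x0 x1 x2 : Q, (t x0 x1 (d x0 (d (m x0 x1) x2))) = (d x0 x2) := by
    intro x0 x1 x2
    have s1 : (d x0 (m (m x0 x1) (d (m x0 x1) x2))) = (t x0 x1 (d x0 (d (m x0 x1) x2))) := (Eq.trans (cd01 rfl (cm10 rfl rfl)) (e91 x0 (d (m x0 x1) x2) x1))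
    have s2 : (d x0 (m (m x0 x1) (d (m x0 x1) x2))) = (d x0 x2) := (cd01 rfl (e13 (m x0 x1) x2))
    exact (Eq.symm s1).trans s2
  have e155 : ∀ x0 x1 : Q, (t u (m x0 p) (m x1 p)) = (m p (t x0 x1 b)) := by
    intro x0 x1
    have s1 : (t (m b p) (m x0 p) (m x1 p)) = (t u (m x0 p) (m x1 p)) := (ct012 (e19) rfl rfl)
    have s2 : (t (m b p) (m x0 p) (m x1 p)) = (m p (t x0 x1 b)) := (Eq.trans (Eq.trans (ct012 (cm10 rfl rfl) (cm10 rfl rfl) (cm10 rfl rfl)) (e17 p b x0 x1)) (cm01 rfl (ct201 rfl rfl rfl)))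
    exact (Eq.symm s1).trans s2
  have e157 : ∀ x0 x1 : Q, (t u (m x0 q) (m x1 q)) = (m q (t x0 x1 c)) := by
    intro x0 x1
    have s1 : (t (m c q) (m x0 q) (m x1 q)) = (t u (m x0 q) (m x1 q)) := (ct012 (e20) rfl rfl)
    have s2 : (t (m c q) (m x0 q) (m x1 q)) = (m q (t x0 x1 c)) := (Eq.trans (Eq.trans (ct012 (cm10 rfl rfl) (cm10 rfl rfl) (cm10 rfl rfl)) (e17 q c x0 x1)) (cm01 rfl (ct201 rfl rfl rfl)))
    exact (Eq.symm s1).trans s2
  have e158 : ∀ x0 x1 : Q, (t p (d b x0) (d b x1)) = (d b (t x0 x1 u)) := by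
    intro x0 x1
    have s1 : (t (d b u) (d b x0) (d b x1)) = (t p (d b x0) (d b x1)) := (ct012 (e25) rfl rfl)
    have s2 : (t (d b u) (d b x0) (d b x1)) = (d b (t x0 x1 u)) := (Eq.trans (e18 b u x0 x1) (cd01 rfl (ct201 rfl rfl rfl)))
    exact (Eq.symm s1).trans s2
  have e219 : ∀ x0 x1 : Q, (m p (t x0 b (d p x1))) = (t x1 u (m x0 p)) := by
    intro x0 x1
    have s1 : (t u (m x0 p) (m p (d p x1))) = (m p (t x0 b (d p x1))) := (Eq.trans (Eq.trans (ct012 rfl rfl (cm10 rfl rfl)) (e155 x0 (d p x1))) (cm01 rfl (ct021 rfl rfl rfl)))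
    have s2 : (t u (m x0 p) (m p (d p x1))) = (t x1 u (m x0 p)) := (Eq.trans (ct012 rfl rfl (e13 p x1)) (ct120 rfl rfl rfl))
    exact (Eq.symm s1).trans s2
  have e221 : ∀ x0 x1 : Q, (m q (t x0 c (d q x1))) = (t x1 u (m x0 q)) := by
    intro x0 x1
    have s1 : (t u (m x0 q) (m q (d q x1))) = (m q (t x0 c (d q x1))) := (Eq.trans (Eq.trans (ct012 rfl rfl (cm10 rfl rfl)) (e157 x0 (d q x1))) (cm01 rfl (ct021 rfl rfl rfl)))
    have s2 : (t u (m x0 q) (m q (d q x1))) = (t x1 u (m x0 q)) := (Eq.trans (ct012 rfl rfl (e13 q x1)) (ct120 rfl rfl rfl))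
    exact (Eq.symm s1).trans s2
  have e222 : ∀ x0 x1 : Q, (d b (t x0 u (m x1 b))) = (t x1 p (d b x0)) := by
    intro x0 x1
    have s1 : (t p (d b x0) (d b (m x1 b))) = (d b (t x0 u (m x1 b))) := (Eq.trans (e158 x0 (m x1 b)) (cd01 rfl (ct021 rfl rfl rfl)))
    have s2 : (t p (d b x0) (d b (m x1 b))) = (t x1 p (d b x0)) := (Eq.trans (ct012 rfl rfl (Eq.trans (cd01 rfl (cm10 rfl rfl)) (e14 b x1))) (ct120 rfl rfl rfl))
    exact (Eq.symm s1).trans s2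
  have e235 : (t p q (d b q)) = (t b c (d b q)) := by
    have s1 : (d b (t u q (m b q))) = (t p q (d b q)) := (Eq.trans (Eq.trans (cd01 rfl (ct102 rfl rfl (cm10 rfl rfl))) (e222 q q)) (ct102 rfl rfl rfl))
    have s2 : (d b (t u q (m b q))) = (d b (m q (m b c))) := (cd01 rfl (e34 b))
    have s3 : (d b (m q (m b c))) = (t b c (d b q)) := (e91 b q c)
    exact (Eq.symm s1).trans (Eq.trans s2 s3)
  have e658 : ∀ x0 : Q, (d x0 (d c (t x0 c (m x0 u)))) = (m q (d c x0)) := by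
    intro x0
    have s1 : (d (m c (d c x0)) (m (d c x0) (t c q (d c x0)))) = (d (m c (d c x0)) (m (d c x0) (d c (m x0 u)))) := (cd01 rfl (cm01 rfl (e62 x0)))
    have s2 : (d (m c (d c x0)) (m (d c x0) (d c (m x0 u)))) = (d x0 (m (d c x0) (d c (m x0 u)))) := (cd01 (e13 c x0) rfl)
    have s3 : (d x0 (m (d c x0) (d c (m x0 u)))) = (d x0 (d c (t x0 c (m x0 u)))) := (Eq.trans (cd01 rfl (e64 c x0 (m x0 u))) (cd01 rfl (cd01 rfl (ct102 rfl rfl rfl))))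
    have s4 : (d (m c (d c x0)) (m (d c x0) (t c q (d c x0)))) = (m q (d c x0)) := (Eq.trans (Eq.trans (cd01 (cm10 rfl rfl) (cm01 rfl (ct120 rfl rfl rfl))) (e68 (d c x0) c q)) (cm10 rfl rfl))
    exact (Eq.symm (Eq.trans (Eq.trans s1 s2) s3)).trans s4
  have e933 : ∀ x0 : Q, (d c (t x0 c (m x0 u))) = (m x0 (m q (d c x0))) := by
    intro x0
    have s1 : (m x0 (d x0 (d c (t x0 c (m x0 u))))) = (d c (t x0 c (m x0 u))) := (e13 x0 (d c (t x0 c (m x0 u))))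
    have s2 : (m x0 (d x0 (d c (t x0 c (m x0 u))))) = (m x0 (m q (d c x0))) := (cm01 rfl (e658 x0))
    exact (Eq.symm s1).trans s2
  have e1266 : ∀ x0 x1 x2 x3 : Q, (t x0 (m x1 x2) (m x1 x3)) = (m x1 (t x2 x3 (d x1 x0))) := by
    intro x0 x1 x2 x3
    have s1 : (t (m x1 x2) (m x1 x3) (m x1 (d x1 x0))) = (t x0 (m x1 x2) (m x1 x3)) := (Eq.trans (ct012 rfl rfl (e13 x1 x0)) (ct120 rfl rfl rfl))
    have s2 : (t (m x1 x2) (m x1 x3) (m x1 (d x1 x0))) = (m x1 (t x2 x3 (d x1 x0))) := (e17 x1 x2 x3 (d x1 x0))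
    exact (Eq.symm s1).trans s2
  have e1275 : ∀ x0 x1 x2 x3 : Q, (d x0 (t x1 x2 (m x0 x3))) = (t x3 (d x0 x1) (d x0 x2)) := by
    intro x0 x1 x2 x3
    have s1 : (t (d x0 x1) (d x0 x2) (d x0 (m x0 x3))) = (d x0 (t x1 x2 (m x0 x3))) := (e18 x0 x1 x2 (m x0 x3))
    have s2 : (t (d x0 x1) (d x0 x2) (d x0 (m x0 x3))) = (t x3 (d x0 x1) (d x0 x2)) := (Eq.trans (ct012 rfl rfl (e14 x0 x3)) (ct120 rfl rfl rfl))
    exact (Eq.symm s1).trans s2
  have e1287 : ∀ x0 : Q, (t b (d x0 u) (d x0 b)) = (t x0 p (d x0 b)) := by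
    intro x0
    have s1 : (d x0 (t b u (m x0 b))) = (t b (d x0 u) (d x0 b)) := (Eq.trans (e1275 x0 b u b) (ct021 rfl rfl rfl))
    have s2 : (d x0 (t b u (m x0 b))) = (d x0 (m b (m x0 p))) := (cd01 rfl (e31 x0))
    have s3 : (d x0 (m b (m x0 p))) = (t x0 p (d x0 b)) := (e91 x0 b p)
    exact (Eq.symm s1).trans (Eq.trans s2 s3)
  have e1290 : ∀ x0 : Q, (t q (d x0 u) (d x0 q)) = (t x0 c (d x0 q)) := by
    intro x0
    have s1 : (d x0 (t u q (m x0 q))) = (t q (d x0 u) (d x0 q)) := (e1275 x0 u q q)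
    have s2 : (d x0 (t u q (m x0 q))) = (d x0 (m q (m x0 c))) := (cd01 rfl (e34 x0))
    have s3 : (d x0 (m q (m x0 c))) = (t x0 c (d x0 q)) := (e91 x0 q c)
    exact (Eq.symm s1).trans (Eq.trans s2 s3)
  have e1303 : ∀ x0 : Q, (t x0 q (d (d x0 q) u)) = (t x0 c (d x0 q)) := by
    intro x0
    have s1 : (t q (d (d x0 q) q) (d (d x0 q) u)) = (t x0 q (d (d x0 q) u)) := (Eq.trans (ct012 rfl (e29 x0 q) rfl) (ct102 rfl rfl rfl))
    have s2 : (t q (d (d x0 q) q) (d (d x0 q) u)) = (t c (d x0 q) (d (d x0 q) q)) := (Eq.trans (Eq.trans (ct021 rfl rfl rfl) (e1290 (d x0 q))) (ct102 rfl rfl rfl))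
    have s3 : (t c (d x0 q) (d (d x0 q) q)) = (t x0 c (d x0 q)) := (Eq.trans (ct012 rfl rfl (e29 x0 q)) (ct120 rfl rfl rfl))
    exact (Eq.symm s1).trans (Eq.trans s2 s3)
  have e1488 : (t b (d p c) (d (d p a) u)) = (d p (m c a)) := by
    have s1 : (t b (d (d p a) b) (d (d p a) u)) = (t b (d p c) (d (d p a) u)) := (ct012 rfl (e77) rfl)
    have s2 : (t b (d (d p a) b) (d (d p a) u)) = (t p (d p a) (d (d p a) b)) := (Eq.trans (Eq.trans (ct021 rfl rfl rfl) (e1287 (d p a))) (ct102 rfl rfl rfl))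
    have s3 : (t p (d p a) (d (d p a) b)) = (t p (d p c) (d p a)) := (Eq.trans (ct012 rfl rfl (e77)) (ct021 rfl rfl rfl))
    have s4 : (t p (d p c) (d p a)) = (d p (m c a)) := (e65 p c a)
    exact (Eq.symm s1).trans (Eq.trans (Eq.trans s2 s3) s4)
  have e1489 : (t u c (m p (d (d p a) u))) = (m c a) := by
    have s1 : (m p (t b (d p c) (d (d p a) u))) = (t u c (m p (d (d p a) u))) := (Eq.trans (Eq.trans (cm01 rfl (ct120 rfl rfl rfl)) (e219 (d (d p a) u) c)) (ct102 rfl rfl (cm10 rfl rfl)))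
    have s2 : (m p (t b (d p c) (d (d p a) u))) = (m p (d p (m c a))) := (cm01 rfl (e1488))
    have s3 : (m p (d p (m c a))) = (m c a) := (e13 p (m c a))
    exact (Eq.symm s1).trans (Eq.trans s2 s3)
  have e1491 : (d c (m p (d (d p a) u))) = (d q a) := by
    have s1 : (d (d c u) (d c (t u c (m p (d (d p a) u))))) = (d c (m p (d (d p a) u))) := (Eq.trans (cd01 rfl (cd01 rfl (ct102 rfl rfl rfl))) (e75 c u (m p (d (d p a) u))))
    have s2 : (d (d c u) (d c (t u c (m p (d (d p a) u))))) = (d (d c u) (d c (m c a))) := (cd01 rfl (cd01 rfl (e1489)))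
    have s3 : (d (d c u) (d c (m c a))) = (d q (d c (m c a))) := (cd01 (e27) rfl)
    have s4 : (d q (d c (m c a))) = (d q a) := (cd01 rfl (e14 c a))
    exact (Eq.symm s1).trans (Eq.trans (Eq.trans s2 s3) s4)
  have e1492 : (m p (d (d p a) u)) = (m c (d q a)) := by
    have s1 : (m c (d c (m p (d (d p a) u)))) = (m p (d (d p a) u)) := (e13 c (m p (d (d p a) u)))
    have s2 : (m c (d c (m p (d (d p a) u)))) = (m c (d q a)) := (cm01 rfl (e1491))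
    exact (Eq.symm s1).trans s2
  have e1493 : (t p a (m c (d q a))) = (m p u) := by
    have s1 : (t p a (m p (d (d p a) u))) = (t p a (m c (d q a))) := (ct012 rfl rfl (e1492))
    have s2 : (t p a (m p (d (d p a) u))) = (m p u) := (e104 p a u)
    exact (Eq.symm s1).trans s2
  have e1523 : (t (d c p) (d c a) (d q a)) = (d c (m p u)) := by
    have s1 : (d c (t p a (m c (d q a)))) = (t (d c p) (d c a) (d q a)) := (Eq.trans (e1275 c p a (d q a)) (ct201 rfl rfl rfl))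
    have s2 : (d c (t p a (m c (d q a)))) = (d c (m p u)) := (cd01 rfl (e1493))
    exact (Eq.symm s1).trans s2
  have e1532 : (t q (d c p) (d q p)) = (m (d c p) (d q a)) := by
    have s1 : (d (m (d c p) (d c a)) (m (d c p) (t (d c p) (d c a) (d q a)))) = (d (m (d c p) (d c a)) (m (d c p) (d c (m p u)))) := (cd01 rfl (cm01 rfl (e1523)))
    have s2 : (d (m (d c p) (d c a)) (m (d c p) (d c (m p u)))) = (d (d c (t p c a)) (m (d c p) (d c (m p u)))) := (Eq.trans (cd01 (e64 c p a) rfl) (cd01 (cd01 rfl (ct102 rfl rfl rfl)) rfl))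
    have s3 : (d (d c (t p c a)) (m (d c p) (d c (m p u)))) = (d (d c u) (m (d c p) (d c (m p u)))) := (cd01 (cd01 rfl (e21)) rfl)
    have s4 : (d (d c u) (m (d c p) (d c (m p u)))) = (d q (m (d c p) (d c (m p u)))) := (cd01 (e27) rfl)
    have s5 : (d q (m (d c p) (d c (m p u)))) = (d q (d c (t p c (m p u)))) := (Eq.trans (cd01 rfl (e64 c p (m p u))) (cd01 rfl (cd01 rfl (ct102 rfl rfl rfl))))
    have s6 : (d q (d c (t p c (m p u)))) = (d q (m p (m q (d c p)))) := (cd01 rfl (e933 p))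
    have s7 : (d q (m p (m q (d c p)))) = (t q (d c p) (d q p)) := (e91 q p (d c p))
    have s8 : (d (m (d c p) (d c a)) (m (d c p) (t (d c p) (d c a) (d q a)))) = (m (d c p) (d q a)) := (e68 (d c p) (d c a) (d q a))
    exact (Eq.symm (Eq.trans (Eq.trans (Eq.trans (Eq.trans (Eq.trans (Eq.trans s1 s2) s3) s4) s5) s6) s7)).trans s8
  have e1602 : ∀ x0 x1 x2 : Q, (d x0 (d x1 (t x0 x1 (m x0 x2)))) = (d x1 (t x0 x1 x2)) := by
    intro x0 x1 x2
    have s1 : (d (m x1 (d x1 x0)) (m (d x1 x0) (t x1 (d x1 x0) (d x1 x2)))) = (d (m x1 (d x1 x0)) (m (d x1 x0) (d x1 (m x0 x2)))) := (cd01 rfl (cm01 rfl (e65 x1 x0 x2)))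
    have s2 : (d (m x1 (d x1 x0)) (m (d x1 x0) (d x1 (m x0 x2)))) = (d x0 (m (d x1 x0) (d x1 (m x0 x2)))) := (cd01 (e13 x1 x0) rfl)
    have s3 : (d x0 (m (d x1 x0) (d x1 (m x0 x2)))) = (d x0 (d x1 (t x0 x1 (m x0 x2)))) := (Eq.trans (cd01 rfl (e64 x1 x0 (m x0 x2))) (cd01 rfl (cd01 rfl (ct102 rfl rfl rfl))))
    have s4 : (d (m x1 (d x1 x0)) (m (d x1 x0) (t x1 (d x1 x0) (d x1 x2)))) = (m (d x1 x0) (d x1 x2)) := (Eq.trans (cd01 (cm10 rfl rfl) (cm01 rfl (ct102 rfl rfl rfl))) (e68 (d x1 x0) x1 (d x1 x2)))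
    have s5 : (m (d x1 x0) (d x1 x2)) = (d x1 (t x0 x1 x2)) := (Eq.trans (e64 x1 x0 x2) (cd01 rfl (ct102 rfl rfl rfl)))
    exact (Eq.symm (Eq.trans (Eq.trans s1 s2) s3)).trans (Eq.trans s4 s5)
  have e1603 : ∀ x0 : Q, (d b (d x0 (t x0 b u))) = (d x0 (t x0 b p)) := by
    intro x0
    have s1 : (d b (d x0 (t x0 b (m b p)))) = (d b (d x0 (t x0 b u))) := (cd01 rfl (cd01 rfl (ct012 rfl rfl (e19))))
    have s2 : (d b (d x0 (t x0 b (m b p)))) = (d x0 (t x0 b p)) := (Eq.trans (Eq.trans (cd01 rfl (cd01 rfl (ct102 rfl rfl rfl))) (e1602 b x0 p)) (cd01 rfl (ct102 rfl rfl rfl)))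
    exact (Eq.symm s1).trans s2
  have e1614 : ∀ x0 : Q, (d p (d x0 (t x0 p u))) = (d x0 (t x0 b p)) := by
    intro x0
    have s1 : (d p (d x0 (t x0 p (m b p)))) = (d p (d x0 (t x0 p u))) := (cd01 rfl (cd01 rfl (ct012 rfl rfl (e19))))
    have s2 : (d p (d x0 (t x0 p (m b p)))) = (d x0 (t x0 b p)) := (Eq.trans (Eq.trans (cd01 rfl (cd01 rfl (ct102 rfl rfl (cm10 rfl rfl)))) (e1602 p x0 b)) (cd01 rfl (ct201 rfl rfl rfl)))
    exact (Eq.symm s1).trans s2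
  have e1616 : (d p (m c (d q p))) = (d q (t b p q)) := by
    have s1 : (d p (d q (t p u q))) = (d p (m c (d q p))) := (cd01 rfl (e45 p))
    have s2 : (d p (d q (t p u q))) = (d q (t b p q)) := (Eq.trans (Eq.trans (cd01 rfl (cd01 rfl (ct120 rfl rfl rfl))) (e1614 q)) (cd01 rfl (ct201 rfl rfl rfl)))
    exact (Eq.symm s1).trans s2
  have e1623 : ∀ x0 : Q, (d c (d x0 (t x0 u c))) = (d x0 (t x0 c q)) := by
    intro x0
    have s1 : (d c (d x0 (t x0 c (m c q)))) = (d c (d x0 (t x0 u c))) := (Eq.trans (cd01 rfl (cd01 rfl (ct012 rfl rfl (e20)))) (cd01 rfl (cd01 rfl (ct021 rfl rfl rfl))))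
    have s2 : (d c (d x0 (t x0 c (m c q)))) = (d x0 (t x0 c q)) := (Eq.trans (Eq.trans (cd01 rfl (cd01 rfl (ct102 rfl rfl rfl))) (e1602 c x0 q)) (cd01 rfl (ct102 rfl rfl rfl)))
    exact (Eq.symm s1).trans s2
  have e1634 : ∀ x0 : Q, (d q (d x0 (t x0 u q))) = (d x0 (t x0 c q)) := by
    intro x0
    have s1 : (d q (d x0 (t x0 q (m c q)))) = (d q (d x0 (t x0 u q))) := (Eq.trans (cd01 rfl (cd01 rfl (ct012 rfl rfl (e20)))) (cd01 rfl (cd01 rfl (ct021 rfl rfl rfl))))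
    have s2 : (d q (d x0 (t x0 q (m c q)))) = (d x0 (t x0 c q)) := (Eq.trans (Eq.trans (cd01 rfl (cd01 rfl (ct102 rfl rfl (cm10 rfl rfl)))) (e1602 q x0 c)) (cd01 rfl (ct201 rfl rfl rfl)))
    exact (Eq.symm s1).trans s2
  have e1636 : (d q (m b (d p q))) = (d p (t p c q)) := by
    have s1 : (d q (d p (t p u q))) = (d q (m b (d p q))) := (cd01 rfl (Eq.trans (cd01 rfl (ct120 rfl rfl rfl)) (e41 q)))
    have s2 : (d q (d p (t p u q))) = (d p (t p c q)) := (e1634 p)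
    exact (Eq.symm s1).trans s2
  have e1643 : ∀ x0 : Q, (m b (d x0 (t x0 b p))) = (d x0 (t x0 b u)) := by
    intro x0
    have s1 : (m b (d b (d x0 (t x0 b u)))) = (m b (d x0 (t x0 b p))) := (cm01 rfl (e1603 x0))
    have s2 : (m b (d b (d x0 (t x0 b u)))) = (d x0 (t x0 b u)) := (e13 b (d x0 (t x0 b u)))
    exact (Eq.symm s1).trans s2
  have e1651 : ∀ x0 : Q, (m c (d x0 (t x0 c q))) = (d x0 (t x0 u c)) := by
    intro x0
    have s1 : (m c (d c (d x0 (t x0 u c)))) = (m c (d x0 (t x0 c q))) := (cm01 rfl (e1623 x0))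
    have s2 : (m c (d c (d x0 (t x0 u c)))) = (d x0 (t x0 u c)) := (e13 c (d x0 (t x0 u c)))
    exact (Eq.symm s1).trans s2
  have e1775 : (d (m c (d q b)) (t p u (m c (d q p)))) = p := by
    have s1 : (d (m b (d p (m c (d q p)))) (t p u (m c (d q p)))) = (d (m b (d q (t b p q))) (t p u (m c (d q p)))) := (cd01 (cm01 rfl (e1616)) rfl)
    have s2 : (d (m b (d q (t b p q))) (t p u (m c (d q p)))) = (d (d q (t b u q)) (t p u (m c (d q p)))) := (Eq.trans (cd01 (Eq.trans (cm01 rfl (cd01 rfl (ct120 rfl rfl rfl))) (e1643 q)) rfl) (cd01 (cd01 rfl (ct201 rfl rfl rfl)) rfl))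
    have s3 : (d (d q (t b u q)) (t p u (m c (d q p)))) = (d (m c (d q b)) (t p u (m c (d q p)))) := (cd01 (e45 b) rfl)
    have s4 : (d (m b (d p (m c (d q p)))) (t p u (m c (d q p)))) = p := (Eq.trans (cd01 rfl (ct120 rfl rfl rfl)) (e42 (m c (d q p))))
    exact (Eq.symm (Eq.trans (Eq.trans s1 s2) s3)).trans s4
  have e1782 : (d (m b (d p c)) (t u q (m b (d p q)))) = q := by
    have s1 : (d (m c (d q (m b (d p q)))) (t u q (m b (d p q)))) = (d (m c (d p (t p c q))) (t u q (m b (d p q)))) := (cd01 (cm01 rfl (e1636)) rfl)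
    have s2 : (d (m c (d p (t p c q))) (t u q (m b (d p q)))) = (d (d p (t p u c)) (t u q (m b (d p q)))) := (cd01 (e1651 p) rfl)
    have s3 : (d (d p (t p u c)) (t u q (m b (d p q)))) = (d (m b (d p c)) (t u q (m b (d p q)))) := (cd01 (Eq.trans (cd01 rfl (ct120 rfl rfl rfl)) (e41 c)) rfl)
    have s4 : (d (m c (d q (m b (d p q)))) (t u q (m b (d p q)))) = q := (Eq.trans (cd01 rfl (ct120 rfl rfl rfl)) (e46 (m b (d p q))))
    exact (Eq.symm (Eq.trans (Eq.trans s1 s2) s3)).trans s4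
  have e1803 : (t c (d c p) (d q b)) = (m (d c p) (d q a)) := by
    have s1 : (t c (d q b) (d c (d (m c (d q b)) (t p u (m c (d q p)))))) = (t c (d c p) (d q b)) := (Eq.trans (ct012 rfl rfl (cd01 rfl (e1775))) (ct021 rfl rfl rfl))
    have s2 : (t c (d q b) (d c (d (m c (d q b)) (t p u (m c (d q p)))))) = (d c (t p u (m c (d q p)))) := (e107 c (d q b) (t p u (m c (d q p))))
    have s3 : (d c (t p u (m c (d q p)))) = (t (d c u) (d c p) (d q p)) := (Eq.trans (e1275 c p u (d q p)) (ct210 rfl rfl rfl))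
    have s4 : (t (d c u) (d c p) (d q p)) = (t q (d c p) (d q p)) := (ct012 (e27) rfl rfl)
    have s5 : (t q (d c p) (d q p)) = (m (d c p) (d q a)) := (e1532)
    exact (Eq.symm s1).trans (Eq.trans (Eq.trans (Eq.trans s2 s3) s4) s5)
  have e1808 : (t p c (m c (d q a))) = (m p (m c (d q b))) := by
    have s1 : (m c (t c (d c p) (d q b))) = (m c (m (d c p) (d q a))) := (cm01 rfl (e1803))
    have s2 : (m c (m (d c p) (d q a))) = (t p c (m c (d q a))) := (Eq.trans (Eq.trans (cm01 rfl (cm10 rfl rfl)) (e66 c (d q a) p)) (ct102 rfl rfl rfl))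
    have s3 : (m c (t c (d c p) (d q b))) = (m p (m c (d q b))) := (Eq.trans (cm01 rfl (ct021 rfl rfl rfl)) (e67 c (d q b) p))
    exact (Eq.symm (Eq.trans s1 s2)).trans s3
  have e1809 : (d p (t p c (d q a))) = (d q b) := by
    have s1 : (d c (d p (t p c (m c (d q a))))) = (d p (t p c (d q a))) := (Eq.trans (Eq.trans (cd01 rfl (cd01 rfl (ct102 rfl rfl rfl))) (e1602 c p (d q a))) (cd01 rfl (ct102 rfl rfl rfl)))
    have s2 : (d c (d p (t p c (m c (d q a))))) = (d c (d p (m p (m c (d q b))))) := (cd01 rfl (cd01 rfl (e1808)))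
    have s3 : (d c (d p (m p (m c (d q b))))) = (d c (m c (d q b))) := (cd01 rfl (e14 p (m c (d q b))))
    have s4 : (d c (m c (d q b))) = (d q b) := (e14 c (d q b))
    exact (Eq.symm s1).trans (Eq.trans (Eq.trans s2 s3) s4)
  have e1810 : (t p c (d q a)) = (m p (d q b)) := by
    have s1 : (m p (d p (t p c (d q a)))) = (t p c (d q a)) := (e13 p (t p c (d q a)))
    have s2 : (m p (d p (t p c (d q a)))) = (m p (d q b)) := (cm01 rfl (e1809))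
    exact (Eq.symm s1).trans s2
  have e1811 : (t u a (m p q)) = (t b q (m p q)) := by
    have s1 : (m q (t p c (d q a))) = (t u a (m p q)) := (Eq.trans (e221 p a) (ct102 rfl rfl rfl))
    have s2 : (m q (t p c (d q a))) = (m q (m p (d q b))) := (cm01 rfl (e1810))
    have s3 : (m q (m p (d q b))) = (t b q (m p q)) := (Eq.trans (e66 q p b) (ct102 rfl rfl (cm10 rfl rfl)))
    exact (Eq.symm s1).trans (Eq.trans s2 s3)
  have e1815 : (t q (d p b) (d p q)) = (t b q (d p a)) := by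
    have s1 : (d p (t u a (m p q))) = (d p (t b q (m p q))) := (cd01 rfl (e1811))
    have s2 : (d p (t b q (m p q))) = (t q (d p b) (d p q)) := (e1275 p b q q)
    have s3 : (d p (t u a (m p q))) = (t q (d p u) (d p a)) := (e1275 p u a q)
    have s4 : (t q (d p u) (d p a)) = (t b q (d p a)) := (Eq.trans (ct012 rfl (e26) rfl) (ct102 rfl rfl rfl))
    exact (Eq.symm (Eq.trans s1 s2)).trans (Eq.trans s3 s4)
  have e1821 : ∀ x0 x1 x2 : Q, (d (d x0 (t x0 x1 x2)) (d x0 (t x0 x1 (m x1 x2)))) = x1 := by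
    intro x0 x1 x2
    have s1 : (d (m (d x0 x1) (d x0 x2)) (m (d x0 x1) (t x0 (d x0 x1) (d x0 x2)))) = (d (m (d x0 x1) (d x0 x2)) (m (d x0 x1) (d x0 (m x1 x2)))) := (cd01 rfl (cm01 rfl (e65 x0 x1 x2)))
    have s2 : (d (m (d x0 x1) (d x0 x2)) (m (d x0 x1) (d x0 (m x1 x2)))) = (d (d x0 (t x0 x1 x2)) (m (d x0 x1) (d x0 (m x1 x2)))) := (cd01 (e64 x0 x1 x2) rfl)
    have s3 : (d (d x0 (t x0 x1 x2)) (m (d x0 x1) (d x0 (m x1 x2)))) = (d (d x0 (t x0 x1 x2)) (d x0 (t x0 x1 (m x1 x2)))) := (cd01 rfl (e64 x0 x1 (m x1 x2)))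
    have s4 : (d (m (d x0 x1) (d x0 x2)) (m (d x0 x1) (t x0 (d x0 x1) (d x0 x2)))) = (m x0 (d x0 x1)) := (Eq.trans (Eq.trans (cd01 rfl (cm01 rfl (ct201 rfl rfl rfl))) (e68 (d x0 x1) (d x0 x2) x0)) (cm10 rfl rfl))
    have s5 : (m x0 (d x0 x1)) = x1 := (e13 x0 x1)
    exact (Eq.symm (Eq.trans (Eq.trans s1 s2) s3)).trans (Eq.trans s4 s5)
  have e1916 : ∀ x0 x1 x2 : Q, (t x0 (m x0 x1) (t x0 x1 x2)) = (t x0 x1 (m x1 x2)) := by
    intro x0 x1 x2
    have s1 : (t x0 (t x0 x1 x2) (m x0 (d (d x0 (t x0 x1 x2)) (d x0 (t x0 x1 (m x1 x2)))))) = (t x0 (m x0 x1) (t x0 x1 x2)) := (Eq.trans (ct012 rfl rfl (cm01 rfl (e1821 x0 x1 x2))) (ct021 rfl rfl rfl))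
    have s2 : (t x0 (t x0 x1 x2) (m x0 (d (d x0 (t x0 x1 x2)) (d x0 (t x0 x1 (m x1 x2)))))) = (m x0 (d x0 (t x0 x1 (m x1 x2)))) := (e104 x0 (t x0 x1 x2) (d x0 (t x0 x1 (m x1 x2))))
    have s3 : (m x0 (d x0 (t x0 x1 (m x1 x2)))) = (t x0 x1 (m x1 x2)) := (e13 x0 (t x0 x1 (m x1 x2)))
    exact (Eq.symm s1).trans (Eq.trans s2 s3)
  have e1945 : ∀ x0 : Q, (t q (m x0 q) (t x0 c (d x0 q))) = (m x0 u) := by
    intro x0
    have s1 : (t q (m x0 q) (t x0 q (d (d x0 q) u))) = (t q (m x0 q) (t x0 c (d x0 q))) := (ct012 rfl rfl (e1303 x0))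
    have s2 : (t q (m x0 q) (t x0 q (d (d x0 q) u))) = (t x0 q (m x0 (d (d x0 q) u))) := (Eq.trans (Eq.trans (ct012 rfl (cm10 rfl rfl) (ct102 rfl rfl rfl)) (e1916 q x0 (d (d x0 q) u))) (ct102 rfl rfl rfl))
    have s3 : (t x0 q (m x0 (d (d x0 q) u))) = (m x0 u) := (e104 x0 q u)
    exact (Eq.symm s1).trans (Eq.trans s2 s3)
  have e1970 : ∀ x0 : Q, (t q (d x0 q) (d x0 (t x0 c (d x0 q)))) = u := by
    intro x0
    have s1 : (d x0 (t q (m x0 q) (t x0 c (d x0 q)))) = (t q (d x0 q) (d x0 (t x0 c (d x0 q)))) := (Eq.trans (cd01 rfl (ct021 rfl rfl rfl)) (e1275 x0 q (t x0 c (d x0 q)) q))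
    have s2 : (d x0 (t q (m x0 q) (t x0 c (d x0 q)))) = (d x0 (m x0 u)) := (cd01 rfl (e1945 x0))
    have s3 : (d x0 (m x0 u)) = u := (e14 x0 u)
    exact (Eq.symm s1).trans (Eq.trans s2 s3)
  have e1986 : ∀ x0 : Q, (t x0 q (d (d x0 q) (t x0 c (d x0 q)))) = u := by
    intro x0
    have s1 : (t q (d (d x0 q) q) (d (d x0 q) (t c (d x0 q) (d (d x0 q) q)))) = (t x0 q (d (d x0 q) (t c (d x0 q) (d (d x0 q) q)))) := (Eq.trans (ct012 rfl (e29 x0 q) rfl) (ct102 rfl rfl rfl))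
    have s2 : (t x0 q (d (d x0 q) (t c (d x0 q) (d (d x0 q) q)))) = (t x0 q (d (d x0 q) (t x0 c (d x0 q)))) := (Eq.trans (ct012 rfl rfl (cd01 rfl (ct012 rfl rfl (e29 x0 q)))) (ct012 rfl rfl (cd01 rfl (ct120 rfl rfl rfl))))
    have s3 : (t q (d (d x0 q) q) (d (d x0 q) (t c (d x0 q) (d (d x0 q) q)))) = u := (Eq.trans (ct012 rfl rfl (cd01 rfl (ct102 rfl rfl rfl))) (e1970 (d x0 q)))
    exact (Eq.symm (Eq.trans s1 s2)).trans s3
  have e2353 : ∀ x0 x1 x2 : Q, (t x0 (d x0 x1) (d x1 x2)) = (t x1 (d x0 x1) (d x0 x2)) := by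
    intro x0 x1 x2
    have s1 : (d x0 (m x1 (m x0 (d x1 x2)))) = (t x0 (d x0 x1) (d x1 x2)) := (Eq.trans (e91 x0 x1 (d x1 x2)) (ct021 rfl rfl rfl))
    have s2 : (d x0 (m x1 (m x0 (d x1 x2)))) = (d x0 (t x1 x2 (m x0 x1))) := (Eq.trans (cd01 rfl (e66 x1 x0 x2)) (cd01 rfl (ct012 rfl rfl (cm10 rfl rfl))))
    have s3 : (d x0 (t x1 x2 (m x0 x1))) = (t x1 (d x0 x1) (d x0 x2)) := (e1275 x0 x1 x2 x1)
    exact (Eq.symm s1).trans (Eq.trans s2 s3)
  have e2383 : ∀ x0 : Q, (t p (d x0 u) (d p x0)) = (t x0 b (d p x0)) := by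
    intro x0
    have s1 : (t x0 (d p u) (d p x0)) = (t p (d x0 u) (d p x0)) := (Eq.trans (Eq.trans (ct021 rfl rfl rfl) (Eq.symm (e2353 p x0 u))) (ct021 rfl rfl rfl))
    have s2 : (t x0 (d p u) (d p x0)) = (t x0 b (d p x0)) := (ct012 rfl (e26) rfl)
    exact (Eq.symm s1).trans s2
  have e2391 : ∀ x0 : Q, (t q (d x0 u) (d q x0)) = (t x0 c (d q x0)) := by
    intro x0
    have s1 : (t x0 (d q u) (d q x0)) = (t q (d x0 u) (d q x0)) := (Eq.trans (Eq.trans (ct021 rfl rfl rfl) (Eq.symm (e2353 q x0 u))) (ct021 rfl rfl rfl))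
    have s2 : (t x0 (d q u) (d q x0)) = (t x0 c (d q x0)) := (ct012 rfl (e28) rfl)
    exact (Eq.symm s1).trans s2
  have e2468 : ∀ x0 : Q, (t x0 p (d (m x0 p) u)) = (t x0 b (m x0 p)) := by
    intro x0
    have s1 : (t p (d p (m x0 p)) (d (m x0 p) u)) = (t x0 p (d (m x0 p) u)) := (Eq.trans (ct012 rfl (Eq.trans (cd01 rfl (cm10 rfl rfl)) (e14 p x0)) rfl) (ct102 rfl rfl rfl))
    have s2 : (t p (d p (m x0 p)) (d (m x0 p) u)) = (t b (m x0 p) (d p (m x0 p))) := (Eq.trans (Eq.trans (ct021 rfl rfl rfl) (e2383 (m x0 p))) (ct102 rfl rfl rfl))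
    have s3 : (t b (m x0 p) (d p (m x0 p))) = (t x0 b (m x0 p)) := (Eq.trans (ct012 rfl rfl (Eq.trans (cd01 rfl (cm10 rfl rfl)) (e14 p x0))) (ct120 rfl rfl rfl))
    exact (Eq.symm s1).trans (Eq.trans s2 s3)
  have e2482 : ∀ x0 : Q, (t x0 q (d (m x0 q) u)) = (t x0 c (m x0 q)) := by
    intro x0
    have s1 : (t q (d q (m x0 q)) (d (m x0 q) u)) = (t x0 q (d (m x0 q) u)) := (Eq.trans (ct012 rfl (Eq.trans (cd01 rfl (cm10 rfl rfl)) (e14 q x0)) rfl) (ct102 rfl rfl rfl))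
    have s2 : (t q (d q (m x0 q)) (d (m x0 q) u)) = (t c (m x0 q) (d q (m x0 q))) := (Eq.trans (Eq.trans (ct021 rfl rfl rfl) (e2391 (m x0 q))) (ct102 rfl rfl rfl))
    have s3 : (t c (m x0 q) (d q (m x0 q))) = (t x0 c (m x0 q)) := (Eq.trans (ct012 rfl rfl (Eq.trans (cd01 rfl (cm10 rfl rfl)) (e14 q x0))) (ct120 rfl rfl rfl))
    exact (Eq.symm s1).trans (Eq.trans s2 s3)
  have e2484 : (t b q (m p q)) = (t p c (m p q)) := by
    have s1 : (t p q (d (m p q) u)) = (t b q (m p q)) := (Eq.trans (Eq.trans (ct102 rfl rfl (cd01 (cm10 rfl rfl) rfl)) (e2468 q)) (ct102 rfl rfl (cm10 rfl rfl)))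
    have s2 : (t p q (d (m p q) u)) = (t p c (m p q)) := (e2482 p)
    exact (Eq.symm s1).trans s2
  have e2487 : (t b q (d p a)) = (m q (d p c)) := by
    have s1 : (d p (t b q (m p q))) = (t q (d p b) (d p q)) := (e1275 p b q q)
    have s2 : (t q (d p b) (d p q)) = (t b q (d p a)) := (e1815)
    have s3 : (d p (t b q (m p q))) = (d p (t p c (m p q))) := (cd01 rfl (e2484))
    have s4 : (d p (t p c (m p q))) = (t q (d p p) (d p c)) := (e1275 p p c q)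
    have s5 : (t q (d p p) (d p c)) = (t e q (d p c)) := (Eq.trans (ct012 rfl (e23 p) rfl) (ct102 rfl rfl rfl))
    have s6 : (t e q (d p c)) = (m q (d p c)) := (Eq.trans (ct201 rfl rfl rfl) (e15 q (d p c)))
    exact (Eq.symm (Eq.trans s1 s2)).trans (Eq.trans (Eq.trans (Eq.trans s3 s4) s5) s6)
  have e2659 : (t b q (m b (d p a))) = (m q (m b (d p c))) := by
    have s1 : (t q (m b q) (t b q (d p a))) = (t b q (m b (d p a))) := (Eq.trans (Eq.trans (ct012 rfl (cm10 rfl rfl) (ct102 rfl rfl rfl)) (e1916 q b (d p a))) (ct102 rfl rfl rfl))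
    have s2 : (t q (m b q) (t b q (d p a))) = (t q (m b q) (m q (d p c))) := (ct012 rfl rfl (e2487))
    have s3 : (t q (m b q) (m q (d p c))) = (m q (t b (d q q) (d p c))) := (Eq.trans (Eq.trans (ct012 rfl (cm10 rfl rfl) rfl) (e1266 q q b (d p c))) (cm01 rfl (ct021 rfl rfl rfl)))
    have s4 : (m q (t b (d q q) (d p c))) = (m q (t e b (d p c))) := (Eq.trans (cm01 rfl (ct012 rfl (e23 q) rfl)) (cm01 rfl (ct102 rfl rfl rfl)))
    have s5 : (m q (t e b (d p c))) = (m q (m b (d p c))) := (cm01 rfl (Eq.trans (ct201 rfl rfl rfl) (e15 b (d p c))))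
    exact (Eq.symm s1).trans (Eq.trans (Eq.trans (Eq.trans s2 s3) s4) s5)
  have e2700 : (t b (d p c) (d b q)) = (m (d p a) (d b q)) := by
    have s1 : (d b (t b q (m b (d p a)))) = (d b (m q (m b (d p c)))) := (cd01 rfl (e2659))
    have s2 : (d b (m q (m b (d p c)))) = (t b (d p c) (d b q)) := (e91 b q (d p c))
    have s3 : (d b (t b q (m b (d p a)))) = (t (d b b) (d p a) (d b q)) := (Eq.trans (e1275 b b q (d p a)) (ct102 rfl rfl rfl))
    have s4 : (t (d b b) (d p a) (d b q)) = (t e (d p a) (d b q)) := (ct012 (e23 b) rfl rfl)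
    have s5 : (t e (d p a) (d b q)) = (m (d p a) (d b q)) := (Eq.trans (ct201 rfl rfl rfl) (e15 (d p a) (d b q)))
    exact (Eq.symm (Eq.trans s1 s2)).trans (Eq.trans (Eq.trans s3 s4) s5)
  have e3731 : (t p (d b q) (d p q)) = (m (d p a) (d b q)) := by
    have s1 : (t b (d p c) (d b (d (m b (d p c)) (t u q (m b (d p q)))))) = (d b (t u q (m b (d p q)))) := (e107 b (d p c) (t u q (m b (d p q))))
    have s2 : (d b (t u q (m b (d p q)))) = (t (d b u) (d b q) (d p q)) := (Eq.trans (e1275 b u q (d p q)) (ct201 rfl rfl rfl))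
    have s3 : (t (d b u) (d b q) (d p q)) = (t p (d b q) (d p q)) := (ct012 (e25) rfl rfl)
    have s4 : (t b (d p c) (d b (d (m b (d p c)) (t u q (m b (d p q)))))) = (t b (d p c) (d b q)) := (ct012 rfl rfl (cd01 rfl (e1782)))
    have s5 : (t b (d p c) (d b q)) = (m (d p a) (d b q)) := (e2700)
    exact (Eq.symm (Eq.trans (Eq.trans s1 s2) s3)).trans (Eq.trans s4 s5)
  have e3732 : (t b c (d b q)) = (m a (d b q)) := by
    have s1 : (t (d b q) (m p (d b q)) (t p (d b q) (d p q))) = (t p (d b q) (m p (d p q))) := (Eq.trans (Eq.trans (ct012 rfl (cm10 rfl rfl) (ct102 rfl rfl rfl)) (e1916 (d b q) p (d p q))) (ct102 rfl rfl rfl))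
    have s2 : (t p (d b q) (m p (d p q))) = (t p q (d b q)) := (Eq.trans (ct012 rfl rfl (e13 p q)) (ct021 rfl rfl rfl))
    have s3 : (t p q (d b q)) = (t b c (d b q)) := (e235)
    have s4 : (t (d b q) (m p (d b q)) (t p (d b q) (d p q))) = (t (d b q) (m p (d b q)) (m (d p a) (d b q))) := (ct012 rfl rfl (e3731))
    have s5 : (t (d b q) (m p (d b q)) (m (d p a) (d b q))) = (m (d b q) (t p (d p a) (d (d b q) (d b q)))) := (Eq.trans (ct012 rfl (cm10 rfl rfl) (cm10 rfl rfl)) (e1266 (d b q) (d b q) p (d p a)))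
    have s6 : (m (d b q) (t p (d p a) (d (d b q) (d b q)))) = (m (d b q) (t e p (d p a))) := (Eq.trans (cm01 rfl (ct012 rfl rfl (e23 (d b q)))) (cm01 rfl (ct120 rfl rfl rfl)))
    have s7 : (m (d b q) (t e p (d p a))) = (m (m p (d p a)) (d b q)) := (Eq.trans (cm01 rfl (Eq.trans (ct201 rfl rfl rfl) (e15 p (d p a)))) (cm10 rfl rfl))
    have s8 : (m (m p (d p a)) (d b q)) = (m a (d b q)) := (cm01 (e13 p a) rfl)
    exact (Eq.symm (Eq.trans (Eq.trans s1 s2) s3)).trans (Eq.trans (Eq.trans (Eq.trans (Eq.trans s4 s5) s6) s7) s8)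
  have e3734 : (t b q a) = u := by
    have s1 : (t b q (d (d b q) (t b c (d b q)))) = (t b q (d (d b q) (m a (d b q)))) := (ct012 rfl rfl (cd01 rfl (e3732)))
    have s2 : (t b q (d (d b q) (m a (d b q)))) = (t b q a) := (ct012 rfl rfl (Eq.trans (cd01 rfl (cm10 rfl rfl)) (e14 (d b q) a)))
    have s3 : (t b q (d (d b q) (t b c (d b q)))) = u := (e1986 b)
    exact (Eq.symm (Eq.trans s1 s2)).trans s3
  have e3735 : (t b q a) = u := by
    have s1 : (t b q a) = u := (e3734)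
    exact s1
  exact e3735

end Pool.Agent.H921Z.Loop
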