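import Mathlib.Logic.Basic

set_option autoImplicit false
set_option linter.all false

namespace Pool.Agent.H921Z.Loop

/-- Machine-found equational derivation in commutative automorphic loops of exponent two. -/
theorem sandwich_eq {Q : Type} (m : Q → Q → Q) (d : Q → Q → Q) (t : Q → Q → Q → Q) (e a b u w z : Q)
    (mc : ∀ x y, m x y = m y x)
    (t12 : ∀ x y z, t x y z = t y x z) (t23 : ∀ x y z, t x y z = t x z y)
    (e0 : ∀ x0 : Q, (m x0 e) = x0)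
    (e1 : ∀ x0 : Q, (m x0 x0) = e)
    (e2 : ∀ x0 x1 : Q, (m x0 (d x0 x1)) = x1)
    (e3 : ∀ x0 x1 : Q, (d x0 (m x0 x1)) = x1)
    (e4 : ∀ x0 x1 : Q, (t x0 x1 e) = (m x0 x1))
    (e6 : ∀ x0 x1 x2 x3 : Q, (m x0 (t x1 x2 x3)) = (t (m x0 x1) (m x0 x2) (m x0 x3)))
    (e7 : ∀ x0 x1 x2 x3 : Q, (d x0 (t x1 x2 x3)) = (t (d x0 x1) (d x0 x2) (d x0 x3)))
    (e8 : (m a (m b u)) = b)
    (e9 : (m a w) = u)
    : (m u z) = (m a (m w z)) := by
  have cm01 : ∀ {y0 y1 z0 z1 : Q}, y0 = z0 → y1 = z1 → m y0 y1 = m z0 z1 := by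
    intro y0 y1 z0 z1 h0 h1
    subst h0 h1
    rfl
  have cm10 : ∀ {y0 y1 z0 z1 : Q}, y0 = z1 → y1 = z0 → m y0 y1 = m z0 z1 := by
    intro y0 y1 z0 z1 h0 h1
    subst h0 h1
    exact mc _ _
  have cd01 : ∀ {y0 y1 z0 z1 : Q}, y0 = z0 → y1 = z1 → d y0 y1 = d z0 z1 := by
    intro y0 y1 z0 z1 h0 h1
    subst h0 h1
    rfl
  have ct012 : ∀ {y0 y1 y2 z0 z1 z2 : Q}, y0 = z0 → y1 = z1 → y2 = z2 → t y0 y1 y2 = t z0 z1 z2 := by
    intro y0 y1 y2 z0 z1 z2 h0 h1 h2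
    subst h0 h1 h2
    rfl
  have ct021 : ∀ {y0 y1 y2 z0 z1 z2 : Q}, y0 = z0 → y1 = z2 → y2 = z1 → t y0 y1 y2 = t z0 z1 z2 := by
    intro y0 y1 y2 z0 z1 z2 h0 h1 h2
    subst h0 h1 h2
    first | exact t12 _ _ _ | exact t23 _ _ _ | exact (t12 _ _ _).trans (t23 _ _ _) | exact (t23 _ _ _).trans (t12 _ _ _) | exact ((t12 _ _ _).trans (t23 _ _ _)).trans (t12 _ _ _)
  have ct102 : ∀ {y0 y1 y2 z0 z1 z2 : Q}, y0 = z1 → y1 = z0 → y2 = z2 → t y0 y1 y2 = t z0 z1 z2 := by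
    intro y0 y1 y2 z0 z1 z2 h0 h1 h2
    subst h0 h1 h2
    first | exact t12 _ _ _ | exact t23 _ _ _ | exact (t12 _ _ _).trans (t23 _ _ _) | exact (t23 _ _ _).trans (t12 _ _ _) | exact ((t12 _ _ _).trans (t23 _ _ _)).trans (t12 _ _ _)
  have ct120 : ∀ {y0 y1 y2 z0 z1 z2 : Q}, y0 = z1 → y1 = z2 → y2 = z0 → t y0 y1 y2 = t z0 z1 z2 := by
    intro y0 y1 y2 z0 z1 z2 h0 h1 h2
    subst h0 h1 h2
    first | exact t12 _ _ _ | exact t23 _ _ _ | exact (t12 _ _ _).trans (t23 _ _ _) | exact (t23 _ _ _).trans (t12 _ _ _) | exact ((t12 _ _ _).trans (t23 _ _ _)).trans (t12 _ _ _)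
  have ct201 : ∀ {y0 y1 y2 z0 z1 z2 : Q}, y0 = z2 → y1 = z0 → y2 = z1 → t y0 y1 y2 = t z0 z1 z2 := by
    intro y0 y1 y2 z0 z1 z2 h0 h1 h2
    subst h0 h1 h2
    first | exact t12 _ _ _ | exact t23 _ _ _ | exact (t12 _ _ _).trans (t23 _ _ _) | exact (t23 _ _ _).trans (t12 _ _ _) | exact ((t12 _ _ _).trans (t23 _ _ _)).trans (t12 _ _ _)
  have ct210 : ∀ {y0 y1 y2 z0 z1 z2 : Q}, y0 = z2 → y1 = z1 → y2 = z0 → t y0 y1 y2 = t z0 z1 z2 := by
    intro y0 y1 y2 z0 z1 z2 h0 h1 h2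
    subst h0 h1 h2
    first | exact t12 _ _ _ | exact t23 _ _ _ | exact (t12 _ _ _).trans (t23 _ _ _) | exact (t23 _ _ _).trans (t12 _ _ _) | exact ((t12 _ _ _).trans (t23 _ _ _)).trans (t12 _ _ _)
  have e10 : ∀ x0 : Q, (m x0 e) = x0 := by
    intro x0
    have s1 : (m x0 e) = x0 := (e0 x0)
    exact s1
  have e11 : ∀ x0 : Q, (m x0 x0) = e := by
    intro x0
    have s1 : (m x0 x0) = e := (e1 x0)
    exact s1
  have e12 : ∀ x0 x1 : Q, (m x0 (d x0 x1)) = x1 := by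
    intro x0 x1
    have s1 : (m x0 (d x0 x1)) = x1 := (e2 x0 x1)
    exact s1
  have e13 : ∀ x0 x1 : Q, (d x0 (m x0 x1)) = x1 := by
    intro x0 x1
    have s1 : (d x0 (m x0 x1)) = x1 := (e3 x0 x1)
    exact s1
  have e14 : ∀ x0 x1 : Q, (t x0 x1 e) = (m x0 x1) := by
    intro x0 x1
    have s1 : (t x0 x1 e) = (m x0 x1) := (e4 x0 x1)
    exact s1
  have e16 : ∀ x0 x1 x2 x3 : Q, (t (m x0 x1) (m x0 x2) (m x0 x3)) = (m x0 (t x1 x2 x3)) := by
    intro x0 x1 x2 x3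
    have s1 : (m x0 (t x1 x2 x3)) = (t (m x0 x1) (m x0 x2) (m x0 x3)) := (e6 x0 x1 x2 x3)
    exact Eq.symm s1
  have e17 : ∀ x0 x1 x2 x3 : Q, (t (d x0 x1) (d x0 x2) (d x0 x3)) = (d x0 (t x1 x2 x3)) := by
    intro x0 x1 x2 x3
    have s1 : (d x0 (t x1 x2 x3)) = (t (d x0 x1) (d x0 x2) (d x0 x3)) := (e7 x0 x1 x2 x3)
    exact Eq.symm s1
  have e18 : (m a (m b u)) = b := by
    have s1 : (m a (m b u)) = b := (e8)
    exact s1
  have e19 : (m a w) = u := by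
    have s1 : (m a w) = u := (e9)
    exact s1
  have e21 : ∀ x0 : Q, (d x0 x0) = e := by
    intro x0
    have s1 : (d x0 (m x0 e)) = (d x0 x0) := (cd01 rfl (e10 x0))
    have s2 : (d x0 (m x0 e)) = e := (e13 x0 e)
    exact (Eq.symm s1).trans s2
  have e22 : ∀ x0 : Q, (d x0 e) = x0 := by
    intro x0
    have s1 : (d x0 (m x0 x0)) = (d x0 e) := (cd01 rfl (e11 x0))
    have s2 : (d x0 (m x0 x0)) = x0 := (e13 x0 x0)
    exact (Eq.symm s1).trans s2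
  have e23 : (d a u) = w := by
    have s1 : (d a (m a w)) = (d a u) := (cd01 rfl (e19))
    have s2 : (d a (m a w)) = w := (e13 a w)
    exact (Eq.symm s1).trans s2
  have e25 : ∀ x0 x1 : Q, (d (d x0 x1) x1) = x0 := by
    intro x0 x1
    have s1 : (d (d x0 x1) (m x0 (d x0 x1))) = (d (d x0 x1) x1) := (cd01 rfl (e12 x0 x1))
    have s2 : (d (d x0 x1) (m x0 (d x0 x1))) = x0 := (Eq.trans (cd01 rfl (cm10 rfl rfl)) (e13 (d x0 x1) x0))
    exact (Eq.symm s1).trans s2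
  have e26 : (d a b) = (m b u) := by
    have s1 : (d a (m a (m b u))) = (d a b) := (cd01 rfl (e18))
    have s2 : (d a (m a (m b u))) = (m b u) := (e13 a (m b u))
    exact (Eq.symm s1).trans s2
  have e27 : (d (m b u) b) = a := by
    have s1 : (d (m b u) (m a (m b u))) = (d (m b u) b) := (cd01 rfl (e18))
    have s2 : (d (m b u) (m a (m b u))) = a := (Eq.trans (cd01 rfl (cm10 rfl rfl)) (e13 (m b u) a))
    exact (Eq.symm s1).trans s2
  have e28 : ∀ x0 x1 x2 : Q, (t x0 (m x0 x1) (m x0 x2)) = (m x0 (m x1 x2)) := by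
    intro x0 x1 x2
    have s1 : (t (m x0 e) (m x0 x1) (m x0 x2)) = (t x0 (m x0 x1) (m x0 x2)) := (ct012 (e10 x0) rfl rfl)
    have s2 : (t (m x0 e) (m x0 x1) (m x0 x2)) = (m x0 (t x1 x2 e)) := (Eq.trans (e16 x0 e x1 x2) (cm01 rfl (ct201 rfl rfl rfl)))
    have s3 : (m x0 (t x1 x2 e)) = (m x0 (m x1 x2)) := (cm01 rfl (e14 x1 x2))
    exact (Eq.symm s1).trans (Eq.trans s2 s3)
  have e29 : ∀ x0 : Q, (t a u (m x0 a)) = (m a (m x0 w)) := by
    intro x0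
    have s1 : (t a (m a w) (m x0 a)) = (t a u (m x0 a)) := (ct012 rfl (e19) rfl)
    have s2 : (t a (m a w) (m x0 a)) = (m a (m x0 w)) := (Eq.trans (Eq.trans (ct012 rfl rfl (cm10 rfl rfl)) (e28 a w x0)) (cm01 rfl (cm10 rfl rfl)))
    exact (Eq.symm s1).trans s2
  have e30 : ∀ x0 : Q, (t u w (m x0 w)) = (m w (m x0 a)) := by
    intro x0
    have s1 : (t w (m a w) (m x0 w)) = (t u w (m x0 w)) := (Eq.trans (ct012 rfl (e19) rfl) (ct102 rfl rfl rfl))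
    have s2 : (t w (m a w) (m x0 w)) = (m w (m x0 a)) := (Eq.trans (Eq.trans (ct012 rfl (cm10 rfl rfl) (cm10 rfl rfl)) (e28 w a x0)) (cm01 rfl (cm10 rfl rfl)))
    exact (Eq.symm s1).trans s2
  have e33 : ∀ x0 : Q, (m w (m a (d w x0))) = (t x0 u w) := by
    intro x0
    have s1 : (t u w (m w (d w x0))) = (m w (m a (d w x0))) := (Eq.trans (Eq.trans (ct012 rfl rfl (cm10 rfl rfl)) (e30 (d w x0))) (cm01 rfl (cm10 rfl rfl)))
    have s2 : (t u w (m w (d w x0))) = (t x0 u w) := (Eq.trans (ct012 rfl rfl (e12 w x0)) (ct120 rfl rfl rfl))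
    exact (Eq.symm s1).trans s2
  have e38 : ∀ x0 : Q, (d (m a (d w x0)) (t x0 u w)) = w := by
    intro x0
    have s1 : (d (m a (d w x0)) (m w (m a (d w x0)))) = (d (m a (d w x0)) (t x0 u w)) := (cd01 rfl (e33 x0))
    have s2 : (d (m a (d w x0)) (m w (m a (d w x0)))) = w := (Eq.trans (cd01 rfl (cm10 rfl rfl)) (e13 (m a (d w x0)) w))
    exact (Eq.symm s1).trans s2
  have e39 : ∀ x0 x1 x2 : Q, (m (m x0 x1) (m x0 x2)) = (m x0 (t x0 x1 x2)) := by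
    intro x0 x1 x2
    have s1 : (t (m x0 x0) (m x0 x1) (m x0 x2)) = (t e (m x0 x1) (m x0 x2)) := (ct012 (e11 x0) rfl rfl)
    have s2 : (t e (m x0 x1) (m x0 x2)) = (m (m x0 x1) (m x0 x2)) := (Eq.trans (ct201 rfl rfl rfl) (e14 (m x0 x1) (m x0 x2)))
    have s3 : (t (m x0 x0) (m x0 x1) (m x0 x2)) = (m x0 (t x0 x1 x2)) := (e16 x0 x0 x1 x2)
    exact (Eq.symm (Eq.trans s1 s2)).trans s3
  have e40 : ∀ x0 : Q, (m a (t x0 a w)) = (m u (m x0 a)) := by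
    intro x0
    have s1 : (m (m a w) (m x0 a)) = (m a (t x0 a w)) := (Eq.trans (Eq.trans (cm01 rfl (cm10 rfl rfl)) (e39 a w x0)) (cm01 rfl (ct120 rfl rfl rfl)))
    have s2 : (m (m a w) (m x0 a)) = (m u (m x0 a)) := (cm01 (e19) rfl)
    exact (Eq.symm s1).trans s2
  have e42 : ∀ x0 : Q, (d a (m u (m x0 a))) = (t x0 a w) := by
    intro x0
    have s1 : (d a (m a (t x0 a w))) = (d a (m u (m x0 a))) := (cd01 rfl (e40 x0))
    have s2 : (d a (m a (t x0 a w))) = (t x0 a w) := (e13 a (t x0 a w))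
    exact (Eq.symm s1).trans s2
  have e47 : (t a (m b u) w) = (d a (m b u)) := by
    have s1 : (d a (m u (m a (m b u)))) = (t a (m b u) w) := (Eq.trans (Eq.trans (cd01 rfl (cm01 rfl (cm10 rfl rfl))) (e42 (m b u))) (ct102 rfl rfl rfl))
    have s2 : (d a (m u (m a (m b u)))) = (d a (m b u)) := (Eq.trans (cd01 rfl (cm01 rfl (e18))) (cd01 rfl (cm10 rfl rfl)))
    exact (Eq.symm s1).trans s2
  have e49 : ∀ x0 x1 x2 : Q, (m (d x0 x1) (d x0 x2)) = (d x0 (t x0 x1 x2)) := by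
    intro x0 x1 x2
    have s1 : (t (d x0 x1) (d x0 x2) (d x0 x0)) = (t e (d x0 x1) (d x0 x2)) := (Eq.trans (ct012 rfl rfl (e21 x0)) (ct120 rfl rfl rfl))
    have s2 : (t e (d x0 x1) (d x0 x2)) = (m (d x0 x1) (d x0 x2)) := (Eq.trans (ct201 rfl rfl rfl) (e14 (d x0 x1) (d x0 x2)))
    have s3 : (t (d x0 x1) (d x0 x2) (d x0 x0)) = (d x0 (t x0 x1 x2)) := (Eq.trans (e17 x0 x1 x2 x0) (cd01 rfl (ct120 rfl rfl rfl)))
    exact (Eq.symm (Eq.trans s1 s2)).trans s3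
  have e50 : ∀ x0 x1 x2 : Q, (t x0 (d x0 x1) (d x0 x2)) = (d x0 (m x1 x2)) := by
    intro x0 x1 x2
    have s1 : (t (d x0 x1) (d x0 x2) (d x0 e)) = (t x0 (d x0 x1) (d x0 x2)) := (Eq.trans (ct012 rfl rfl (e22 x0)) (ct120 rfl rfl rfl))
    have s2 : (t (d x0 x1) (d x0 x2) (d x0 e)) = (d x0 (t x1 x2 e)) := (e17 x0 x1 x2 e)
    have s3 : (d x0 (t x1 x2 e)) = (d x0 (m x1 x2)) := (cd01 rfl (e14 x1 x2))
    exact (Eq.symm s1).trans (Eq.trans s2 s3)
  have e51 : ∀ x0 x1 x2 : Q, (m x0 (m x1 (d x0 x2))) = (t x0 x2 (m x0 x1)) := by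
    intro x0 x1 x2
    have s1 : (t x0 (m x0 x1) (m x0 (d x0 x2))) = (m x0 (m x1 (d x0 x2))) := (e28 x0 x1 (d x0 x2))
    have s2 : (t x0 (m x0 x1) (m x0 (d x0 x2))) = (t x0 x2 (m x0 x1)) := (Eq.trans (ct012 rfl rfl (e12 x0 x2)) (ct021 rfl rfl rfl))
    exact (Eq.symm s1).trans s2
  have e53 : ∀ x0 x1 x2 : Q, (m x0 (t x0 x1 (d x0 x2))) = (m x2 (m x0 x1)) := by
    intro x0 x1 x2
    have s1 : (m (m x0 x1) (m x0 (d x0 x2))) = (m x0 (t x0 x1 (d x0 x2))) := (e39 x0 x1 (d x0 x2))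
    have s2 : (m (m x0 x1) (m x0 (d x0 x2))) = (m x2 (m x0 x1)) := (Eq.trans (cm01 rfl (e12 x0 x2)) (cm10 rfl rfl))
    exact (Eq.symm s1).trans s2
  have e54 : ∀ x0 x1 x2 : Q, (d (m x0 x1) (m x0 (t x0 x1 x2))) = (m x0 x2) := by
    intro x0 x1 x2
    have s1 : (d (m x0 x1) (m (m x0 x1) (m x0 x2))) = (d (m x0 x1) (m x0 (t x0 x1 x2))) := (cd01 rfl (e39 x0 x1 x2))
    have s2 : (d (m x0 x1) (m (m x0 x1) (m x0 x2))) = (m x0 x2) := (e13 (m x0 x1) (m x0 x2))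
    exact (Eq.symm s1).trans s2
  have e55 : ∀ x0 : Q, (m a (t x0 a (m b u))) = (m b (m x0 a)) := by
    intro x0
    have s1 : (m (m a (m b u)) (m x0 a)) = (m a (t x0 a (m b u))) := (Eq.trans (Eq.trans (cm01 rfl (cm10 rfl rfl)) (e39 a (m b u) x0)) (cm01 rfl (ct120 rfl rfl rfl)))
    have s2 : (m (m a (m b u)) (m x0 a)) = (m b (m x0 a)) := (cm01 (e18) rfl)
    exact (Eq.symm s1).trans s2
  have e56 : ∀ x0 x1 x2 : Q, (d (d x0 x1) (d x0 (t x0 x1 x2))) = (d x0 x2) := by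
    intro x0 x1 x2
    have s1 : (d (d x0 x1) (m (d x0 x1) (d x0 x2))) = (d (d x0 x1) (d x0 (t x0 x1 x2))) := (cd01 rfl (e49 x0 x1 x2))
    have s2 : (d (d x0 x1) (m (d x0 x1) (d x0 x2))) = (d x0 x2) := (e13 (d x0 x1) (d x0 x2))
    exact (Eq.symm s1).trans s2
  have e57 : ∀ x0 x1 x2 : Q, (d x0 (t x0 x1 (m x0 x2))) = (m x2 (d x0 x1)) := by
    intro x0 x1 x2
    have s1 : (m (d x0 x1) (d x0 (m x0 x2))) = (d x0 (t x0 x1 (m x0 x2))) := (e49 x0 x1 (m x0 x2))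
    have s2 : (m (d x0 x1) (d x0 (m x0 x2))) = (m x2 (d x0 x1)) := (Eq.trans (cm01 rfl (e13 x0 x2)) (cm10 rfl rfl))
    exact (Eq.symm s1).trans s2
  have e62 : ∀ x0 : Q, (m (m b u) (d a x0)) = (d a (t x0 a b)) := by
    intro x0
    have s1 : (m (d a b) (d a x0)) = (m (m b u) (d a x0)) := (cm01 (e26) rfl)
    have s2 : (m (d a b) (d a x0)) = (d a (t x0 a b)) := (Eq.trans (e49 a b x0) (cd01 rfl (ct120 rfl rfl rfl)))
    exact (Eq.symm s1).trans s2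
  have e63 : ∀ x0 x1 x2 : Q, (d x0 (m x1 (m x0 x2))) = (t x0 x2 (d x0 x1)) := by
    intro x0 x1 x2
    have s1 : (t x0 (d x0 x1) (d x0 (m x0 x2))) = (d x0 (m x1 (m x0 x2))) := (e50 x0 x1 (m x0 x2))
    have s2 : (t x0 (d x0 x1) (d x0 (m x0 x2))) = (t x0 x2 (d x0 x1)) := (Eq.trans (ct012 rfl rfl (e13 x0 x2)) (ct021 rfl rfl rfl))
    exact (Eq.symm s1).trans s2
  have e66 : (t b u (d b a)) = e := by
    have s1 : (d b (m a (m b u))) = (t b u (d b a)) := (e63 b a u)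
    have s2 : (d b (m a (m b u))) = (d b b) := (cd01 rfl (e18))
    have s3 : (d b b) = e := (e21 b)
    exact (Eq.symm s1).trans (Eq.trans s2 s3)
  have e70 : (d a (d b a)) = (m u (d b a)) := by
    have s1 : (d (m b (d b a)) (m (d b a) (t b u (d b a)))) = (d (m b (d b a)) (m e (d b a))) := (Eq.trans (cd01 rfl (cm01 rfl (e66))) (cd01 rfl (cm10 rfl rfl)))
    have s2 : (d (m b (d b a)) (m e (d b a))) = (d a (m e (d b a))) := (cd01 (e12 b a) rfl)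
    have s3 : (d a (m e (d b a))) = (d a (d b a)) := (cd01 rfl (Eq.trans (cm10 rfl rfl) (e10 (d b a))))
    have s4 : (d (m b (d b a)) (m (d b a) (t b u (d b a)))) = (m u (d b a)) := (Eq.trans (Eq.trans (cd01 (cm10 rfl rfl) (cm01 rfl (ct120 rfl rfl rfl))) (e54 (d b a) b u)) (cm10 rfl rfl))
    exact (Eq.symm (Eq.trans (Eq.trans s1 s2) s3)).trans s4
  have e71 : (d a (t a b (d b a))) = u := by
    have s1 : (m (m b u) (d a (d b a))) = (d a (t a b (d b a))) := (Eq.trans (e62 (d b a)) (cd01 rfl (ct201 rfl rfl rfl)))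
    have s2 : (m (m b u) (d a (d b a))) = (m (m b u) (m u (d b a))) := (cm01 rfl (e70))
    have s3 : (m (m b u) (m u (d b a))) = (m u (t b u (d b a))) := (Eq.trans (Eq.trans (cm01 (cm10 rfl rfl) rfl) (e39 u b (d b a))) (cm01 rfl (ct102 rfl rfl rfl)))
    have s4 : (m u (t b u (d b a))) = (m e u) := (Eq.trans (cm01 rfl (e66)) (cm10 rfl rfl))
    have s5 : (m e u) = u := (Eq.trans (cm10 rfl rfl) (e10 u))
    exact (Eq.symm s1).trans (Eq.trans (Eq.trans (Eq.trans s2 s3) s4) s5)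
  have e72 : (t a b (d b a)) = (m a u) := by
    have s1 : (m a (d a (t a b (d b a)))) = (t a b (d b a)) := (e12 a (t a b (d b a)))
    have s2 : (m a (d a (t a b (d b a)))) = (m a u) := (cm01 rfl (e71))
    exact (Eq.symm s1).trans s2
  have e73 : (t a u (m b u)) = (m a b) := by
    have s1 : (d (m b (d b a)) (m b (t a b (d b a)))) = (d (m b (d b a)) (m b (m a u))) := (cd01 rfl (cm01 rfl (e72)))
    have s2 : (d (m b (d b a)) (m b (m a u))) = (d a (m b (m a u))) := (cd01 (e12 b a) rfl)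
    have s3 : (d a (m b (m a u))) = (t a u (d a b)) := (e63 a b u)
    have s4 : (t a u (d a b)) = (t a u (m b u)) := (ct012 rfl rfl (e26))
    have s5 : (d (m b (d b a)) (m b (t a b (d b a)))) = (m a b) := (Eq.trans (Eq.trans (cd01 rfl (cm01 rfl (ct201 rfl rfl rfl))) (e54 b (d b a) a)) (cm10 rfl rfl))
    exact (Eq.symm (Eq.trans (Eq.trans (Eq.trans s1 s2) s3) s4)).trans s5
  have e75 : (d a (m b u)) = (d w b) := by
    have s1 : (d (d a u) (d a (t a u (m b u)))) = (d a (m b u)) := (e56 a u (m b u))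
    have s2 : (d (d a u) (d a (t a u (m b u)))) = (d (d a u) (d a (m a b))) := (cd01 rfl (cd01 rfl (e73)))
    have s3 : (d (d a u) (d a (m a b))) = (d w (d a (m a b))) := (cd01 (e23) rfl)
    have s4 : (d w (d a (m a b))) = (d w b) := (cd01 rfl (e13 a b))
    exact (Eq.symm s1).trans (Eq.trans (Eq.trans s2 s3) s4)
  have e76 : (t a (m b u) w) = (d w b) := by
    have s1 : (t a (m b u) w) = (d a (m b u)) := (e47)
    have s2 : (d a (m b u)) = (d w b) := (e75)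
    exact (Eq.trans s1 s2)
  have e77 : (m a (d w b)) = (m b u) := by
    have s1 : (m a (d a (m b u))) = (m a (d w b)) := (cm01 rfl (e75))
    have s2 : (m a (d a (m b u))) = (m b u) := (e12 a (m b u))
    exact (Eq.symm s1).trans s2
  have e80 : (m (m b u) w) = (d u b) := by
    have s1 : (d (m a w) (m w (t a (m b u) w))) = (m (m b u) w) := (Eq.trans (Eq.trans (cd01 (cm10 rfl rfl) (cm01 rfl (ct120 rfl rfl rfl))) (e54 w a (m b u))) (cm10 rfl rfl))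
    have s2 : (d (m a w) (m w (t a (m b u) w))) = (d (m a w) (m w (d w b))) := (cd01 rfl (cm01 rfl (e76)))
    have s3 : (d (m a w) (m w (d w b))) = (d u (m w (d w b))) := (cd01 (e19) rfl)
    have s4 : (d u (m w (d w b))) = (d u b) := (cd01 rfl (e12 w b))
    exact (Eq.symm s1).trans (Eq.trans (Eq.trans s2 s3) s4)
  have e84 : (m u (m b u)) = (t a b u) := by
    have s1 : (d (m a (m b u)) (m (m b u) (t a u (m b u)))) = (m u (m b u)) := (Eq.trans (Eq.trans (cd01 (cm10 rfl rfl) (cm01 rfl (ct120 rfl rfl rfl))) (e54 (m b u) a u)) (cm10 rfl rfl))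
    have s2 : (d (m a (m b u)) (m (m b u) (t a u (m b u)))) = (d (m a (m b u)) (m (m b u) (m a b))) := (cd01 rfl (cm01 rfl (e73)))
    have s3 : (d (m a (m b u)) (m (m b u) (m a b))) = (d b (m (m b u) (m a b))) := (cd01 (e18) rfl)
    have s4 : (d b (m (m b u) (m a b))) = (d b (m b (t a b u))) := (Eq.trans (cd01 rfl (Eq.trans (cm01 rfl (cm10 rfl rfl)) (e39 b u a))) (cd01 rfl (cm01 rfl (ct120 rfl rfl rfl))))
    have s5 : (d b (m b (t a b u))) = (t a b u) := (e13 b (t a b u))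
    exact (Eq.symm s1).trans (Eq.trans (Eq.trans (Eq.trans s2 s3) s4) s5)
  have e85 : (d (m b u) (t b u w)) = w := by
    have s1 : (d (m a (d w b)) (t b u w)) = (d (m b u) (t b u w)) := (cd01 (e77) rfl)
    have s2 : (d (m a (d w b)) (t b u w)) = w := (e38 b)
    exact (Eq.symm s1).trans s2
  have e86 : (t b u w) = (d u b) := by
    have s1 : (m (m b u) (d (m b u) (t b u w))) = (t b u w) := (e12 (m b u) (t b u w))
    have s2 : (m (m b u) (d (m b u) (t b u w))) = (m (m b u) w) := (cm01 rfl (e85))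
    have s3 : (m (m b u) w) = (d u b) := (e80)
    exact (Eq.symm s1).trans (Eq.trans s2 s3)
  have e87 : (m u w) = a := by
    have s1 : (d (m b u) (m u (t b u w))) = (m u w) := (Eq.trans (cd01 (cm10 rfl rfl) (cm01 rfl (ct102 rfl rfl rfl))) (e54 u b w))
    have s2 : (d (m b u) (m u (t b u w))) = (d (m b u) (m u (d u b))) := (cd01 rfl (cm01 rfl (e86)))
    have s3 : (d (m b u) (m u (d u b))) = (d (m b u) b) := (cd01 rfl (e12 u b))
    have s4 : (d (m b u) b) = a := (e27)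
    exact (Eq.symm s1).trans (Eq.trans (Eq.trans s2 s3) s4)
  have e90 : (d u a) = w := by
    have s1 : (d u (m u w)) = (d u a) := (cd01 rfl (e87))
    have s2 : (d u (m u w)) = w := (e13 u w)
    exact (Eq.symm s1).trans s2
  have e98 : (d u (t a b u)) = (m b u) := by
    have s1 : (d u (m u (m b u))) = (d u (t a b u)) := (cd01 rfl (e84))
    have s2 : (d u (m u (m b u))) = (m b u) := (e13 u (m b u))
    exact (Eq.symm s1).trans s2
  have e99 : (d w (m b u)) = (d u b) := by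
    have s1 : (d (d u a) (d u (t a b u))) = (d (d u a) (m b u)) := (cd01 rfl (e98))
    have s2 : (d (d u a) (m b u)) = (d w (m b u)) := (cd01 (e90) rfl)
    have s3 : (d (d u a) (d u (t a b u))) = (d u b) := (Eq.trans (cd01 rfl (cd01 rfl (ct120 rfl rfl rfl))) (e56 u a b))
    exact (Eq.symm (Eq.trans s1 s2)).trans s3
  have e101 : (m w (d u b)) = (m b u) := by
    have s1 : (m w (d w (m b u))) = (m w (d u b)) := (cm01 rfl (e99))
    have s2 : (m w (d w (m b u))) = (m b u) := (e12 w (m b u))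
    exact (Eq.symm s1).trans s2
  have e126 : ∀ x0 : Q, (t a w (m x0 w)) = (m w (m x0 u)) := by
    intro x0
    have s1 : (t w (m x0 w) (m u w)) = (t a w (m x0 w)) := (Eq.trans (ct012 rfl rfl (e87)) (ct120 rfl rfl rfl))
    have s2 : (t w (m x0 w) (m u w)) = (m w (m x0 u)) := (Eq.trans (ct012 rfl (cm10 rfl rfl) (cm10 rfl rfl)) (e28 w x0 u))
    exact (Eq.symm s1).trans s2
  have e127 : (d w b) = (m b w) := by
    have s1 : (t a w (m w (d u b))) = (t a (m b u) w) := (Eq.trans (ct012 rfl rfl (e101)) (ct021 rfl rfl rfl))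
    have s2 : (t a (m b u) w) = (d w b) := (e76)
    have s3 : (t a w (m w (d u b))) = (m w (m u (d u b))) := (Eq.trans (Eq.trans (ct012 rfl rfl (cm10 rfl rfl)) (e126 (d u b))) (cm01 rfl (cm10 rfl rfl)))
    have s4 : (m w (m u (d u b))) = (m b w) := (Eq.trans (cm01 rfl (e12 u b)) (cm10 rfl rfl))
    exact (Eq.symm (Eq.trans s1 s2)).trans (Eq.trans s3 s4)
  have e128 : (d a (m b u)) = (m b w) := by
    have s1 : (d a (m b u)) = (d w b) := (e75)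
    have s2 : (d w b) = (m b w) := (e127)
    exact (Eq.trans s1 s2)
  have e130 : (m a (m b w)) = (m b u) := by
    have s1 : (m a (d w b)) = (m a (m b w)) := (cm01 rfl (e127))
    have s2 : (m a (d w b)) = (m b u) := (e77)
    exact (Eq.symm s1).trans s2
  have e149 : ∀ x0 : Q, (m w (t x0 u w)) = (m a (m x0 w)) := by
    intro x0
    have s1 : (m (m x0 w) (m u w)) = (m w (t x0 u w)) := (Eq.trans (Eq.trans (cm01 (cm10 rfl rfl) (cm10 rfl rfl)) (e39 w x0 u)) (cm01 rfl (ct201 rfl rfl rfl)))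
    have s2 : (m (m x0 w) (m u w)) = (m a (m x0 w)) := (Eq.trans (cm01 rfl (e87)) (cm10 rfl rfl))
    exact (Eq.symm s1).trans s2
  have e150 : ∀ x0 : Q, (d u (t x0 a u)) = (m w (d u x0)) := by
    intro x0
    have s1 : (d u (t x0 u (m u w))) = (d u (t x0 a u)) := (Eq.trans (cd01 rfl (ct012 rfl rfl (e87))) (cd01 rfl (ct021 rfl rfl rfl)))
    have s2 : (d u (t x0 u (m u w))) = (m w (d u x0)) := (Eq.trans (cd01 rfl (ct102 rfl rfl rfl)) (e57 u x0 w))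
    exact (Eq.symm s1).trans s2
  have e152 : ∀ x0 : Q, (t u w (d u x0)) = (d u (m x0 a)) := by
    intro x0
    have s1 : (d u (m x0 (m u w))) = (t u w (d u x0)) := (e63 u x0 w)
    have s2 : (d u (m x0 (m u w))) = (d u (m x0 a)) := (cd01 rfl (cm01 rfl (e87)))
    exact (Eq.symm s1).trans s2
  have e159 : ∀ x0 : Q, (d (m w (d u x0)) (t x0 a u)) = u := by
    intro x0
    have s1 : (d (d u (t x0 a u)) (t x0 a u)) = (d (m w (d u x0)) (t x0 a u)) := (cd01 (e150 x0) rfl)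
    have s2 : (d (d u (t x0 a u)) (t x0 a u)) = u := (e25 u (t x0 a u))
    exact (Eq.symm s1).trans s2
  have e319 : ∀ x0 : Q, (t a (m b u) (d a x0)) = (d a (m x0 b)) := by
    intro x0
    have s1 : (t a (d a b) (d a x0)) = (t a (m b u) (d a x0)) := (ct012 rfl (e26) rfl)
    have s2 : (t a (d a b) (d a x0)) = (d a (m x0 b)) := (Eq.trans (e50 a b x0) (cd01 rfl (cm10 rfl rfl)))
    exact (Eq.symm s1).trans s2
  have e324 : ∀ x0 x1 x2 : Q, (t x0 x1 (m x0 (d (d x0 x1) x2))) = (m x0 x2) := by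
    intro x0 x1 x2
    have s1 : (m x0 (m (d x0 x1) (d (d x0 x1) x2))) = (t x0 x1 (m x0 (d (d x0 x1) x2))) := (Eq.trans (cm01 rfl (cm10 rfl rfl)) (e51 x0 (d (d x0 x1) x2) x1))
    have s2 : (m x0 (m (d x0 x1) (d (d x0 x1) x2))) = (m x0 x2) := (cm01 rfl (e12 (d x0 x1) x2))
    exact (Eq.symm s1).trans s2
  have e351 : ∀ x0 x1 x2 : Q, (t x0 x1 (d x0 (d (m x0 x1) x2))) = (d x0 x2) := by
    intro x0 x1 x2
    have s1 : (d x0 (m (m x0 x1) (d (m x0 x1) x2))) = (t x0 x1 (d x0 (d (m x0 x1) x2))) := (Eq.trans (cd01 rfl (cm10 rfl rfl)) (e63 x0 (d (m x0 x1) x2) x1))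
    have s2 : (d x0 (m (m x0 x1) (d (m x0 x1) x2))) = (d x0 x2) := (cd01 rfl (e12 (m x0 x1) x2))
    exact (Eq.symm s1).trans s2
  have e591 : ∀ x0 x1 : Q, (t a (m x0 u) (m x1 u)) = (m u (t x0 x1 w)) := by
    intro x0 x1
    have s1 : (t (m u w) (m x0 u) (m x1 u)) = (t a (m x0 u) (m x1 u)) := (ct012 (e87) rfl rfl)
    have s2 : (t (m u w) (m x0 u) (m x1 u)) = (m u (t x0 x1 w)) := (Eq.trans (Eq.trans (ct012 rfl (cm10 rfl rfl) (cm10 rfl rfl)) (e16 u w x0 x1)) (cm01 rfl (ct201 rfl rfl rfl)))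
    exact (Eq.symm s1).trans s2
  have e618 : ∀ x0 : Q, (m w (d u (m x0 a))) = (m a (m w (d u x0))) := by
    intro x0
    have s1 : (m w (t u w (d u x0))) = (m w (d u (m x0 a))) := (cm01 rfl (e152 x0))
    have s2 : (m w (t u w (d u x0))) = (m a (m w (d u x0))) := (Eq.trans (Eq.trans (cm01 rfl (ct120 rfl rfl rfl)) (e149 (d u x0))) (cm01 rfl (cm10 rfl rfl)))
    exact (Eq.symm s1).trans s2
  have e635 : ∀ x0 : Q, (d (m a (m w (d u x0))) (m a (m x0 w))) = u := by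
    intro x0
    have s1 : (d (m w (d u (m x0 a))) (t a u (m x0 a))) = (d (m w (d u (m x0 a))) (m a (m x0 w))) := (cd01 rfl (e29 x0))
    have s2 : (d (m w (d u (m x0 a))) (m a (m x0 w))) = (d (m a (m w (d u x0))) (m a (m x0 w))) := (cd01 (e618 x0) rfl)
    have s3 : (d (m w (d u (m x0 a))) (t a u (m x0 a))) = u := (Eq.trans (cd01 rfl (ct120 rfl rfl rfl)) (e159 (m x0 a)))
    exact (Eq.symm (Eq.trans s1 s2)).trans s3
  have e1077 : ∀ x0 : Q, (d a (t x0 a (m b u))) = (m (d a x0) (m b w)) := by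
    intro x0
    have s1 : (m (d a x0) (d a (m b u))) = (d a (t x0 a (m b u))) := (Eq.trans (e49 a x0 (m b u)) (cd01 rfl (ct102 rfl rfl rfl)))
    have s2 : (m (d a x0) (d a (m b u))) = (m (d a x0) (m b w)) := (cm01 rfl (e128))
    exact (Eq.symm s1).trans s2
  have e1080 : ∀ x0 : Q, (m a (t x0 a (m b w))) = (m (m b u) (m x0 a)) := by
    intro x0
    have s1 : (m a (t x0 a (d a (m b u)))) = (m a (t x0 a (m b w))) := (cm01 rfl (ct012 rfl rfl (e128)))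
    have s2 : (m a (t x0 a (d a (m b u)))) = (m (m b u) (m x0 a)) := (Eq.trans (Eq.trans (cm01 rfl (ct102 rfl rfl rfl)) (e53 a x0 (m b u))) (cm01 rfl (cm10 rfl rfl)))
    exact (Eq.symm s1).trans s2
  have e1227 : ∀ x0 : Q, (m a (m u (t x0 b w))) = (m b (m a (m x0 u))) := by
    intro x0
    have s1 : (m a (t a (m b u) (m x0 u))) = (m a (m u (t x0 b w))) := (Eq.trans (cm01 rfl (e591 b x0)) (cm01 rfl (cm01 rfl (ct102 rfl rfl rfl))))
    have s2 : (m a (t a (m b u) (m x0 u))) = (m b (m a (m x0 u))) := (Eq.trans (Eq.trans (cm01 rfl (ct120 rfl rfl rfl)) (e55 (m x0 u))) (cm01 rfl (cm10 rfl rfl)))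
    exact (Eq.symm s1).trans s2
  have e1752 : ∀ x0 x1 x2 x3 : Q, (d x0 (t x1 x2 (m x0 x3))) = (t x3 (d x0 x1) (d x0 x2)) := by
    intro x0 x1 x2 x3
    have s1 : (t (d x0 x1) (d x0 x2) (d x0 (m x0 x3))) = (d x0 (t x1 x2 (m x0 x3))) := (e17 x0 x1 x2 (m x0 x3))
    have s2 : (t (d x0 x1) (d x0 x2) (d x0 (m x0 x3))) = (t x3 (d x0 x1) (d x0 x2)) := (Eq.trans (ct012 rfl rfl (e13 x0 x3)) (ct120 rfl rfl rfl))
    exact (Eq.symm s1).trans s2
  have e1777 : ∀ x0 : Q, (t a (d x0 u) (d x0 a)) = (t x0 w (d x0 a)) := by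
    intro x0
    have s1 : (d x0 (t a u (m x0 a))) = (t a (d x0 u) (d x0 a)) := (Eq.trans (e1752 x0 a u a) (ct021 rfl rfl rfl))
    have s2 : (d x0 (t a u (m x0 a))) = (d x0 (m a (m x0 w))) := (cd01 rfl (e29 x0))
    have s3 : (d x0 (m a (m x0 w))) = (t x0 w (d x0 a)) := (e63 x0 a w)
    exact (Eq.symm s1).trans (Eq.trans s2 s3)
  have e1825 : ∀ x0 : Q, (t x0 a (d (d x0 a) u)) = (t x0 w (d x0 a)) := by
    intro x0
    have s1 : (t a (d (d x0 a) a) (d (d x0 a) u)) = (t x0 a (d (d x0 a) u)) := (Eq.trans (ct012 rfl (e25 x0 a) rfl) (ct102 rfl rfl rfl))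
    have s2 : (t a (d (d x0 a) a) (d (d x0 a) u)) = (t w (d x0 a) (d (d x0 a) a)) := (Eq.trans (Eq.trans (ct021 rfl rfl rfl) (e1777 (d x0 a))) (ct102 rfl rfl rfl))
    have s3 : (t w (d x0 a) (d (d x0 a) a)) = (t x0 w (d x0 a)) := (Eq.trans (ct012 rfl rfl (e25 x0 a)) (ct120 rfl rfl rfl))
    exact (Eq.symm s1).trans (Eq.trans s2 s3)
  have e2040 : ∀ x0 x1 x2 : Q, (d (d x0 (t x0 x1 x2)) (d x0 (t x0 x1 (m x1 x2)))) = x1 := by
    intro x0 x1 x2
    have s1 : (d (m (d x0 x1) (d x0 x2)) (m (d x0 x1) (t x0 (d x0 x1) (d x0 x2)))) = (d (m (d x0 x1) (d x0 x2)) (m (d x0 x1) (d x0 (m x1 x2)))) := (cd01 rfl (cm01 rfl (e50 x0 x1 x2)))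
    have s2 : (d (m (d x0 x1) (d x0 x2)) (m (d x0 x1) (d x0 (m x1 x2)))) = (d (d x0 (t x0 x1 x2)) (m (d x0 x1) (d x0 (m x1 x2)))) := (cd01 (e49 x0 x1 x2) rfl)
    have s3 : (d (d x0 (t x0 x1 x2)) (m (d x0 x1) (d x0 (m x1 x2)))) = (d (d x0 (t x0 x1 x2)) (d x0 (t x0 x1 (m x1 x2)))) := (cd01 rfl (e49 x0 x1 (m x1 x2)))
    have s4 : (d (m (d x0 x1) (d x0 x2)) (m (d x0 x1) (t x0 (d x0 x1) (d x0 x2)))) = (m x0 (d x0 x1)) := (Eq.trans (Eq.trans (cd01 rfl (cm01 rfl (ct201 rfl rfl rfl))) (e54 (d x0 x1) (d x0 x2) x0)) (cm10 rfl rfl))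
    have s5 : (m x0 (d x0 x1)) = x1 := (e12 x0 x1)
    exact (Eq.symm (Eq.trans (Eq.trans s1 s2) s3)).trans (Eq.trans s4 s5)
  have e2178 : ∀ x0 x1 x2 : Q, (t x0 (m x0 x1) (t x0 x1 x2)) = (t x0 x1 (m x1 x2)) := by
    intro x0 x1 x2
    have s1 : (t x0 (t x0 x1 x2) (m x0 (d (d x0 (t x0 x1 x2)) (d x0 (t x0 x1 (m x1 x2)))))) = (t x0 (m x0 x1) (t x0 x1 x2)) := (Eq.trans (ct012 rfl rfl (cm01 rfl (e2040 x0 x1 x2))) (ct021 rfl rfl rfl))
    have s2 : (t x0 (t x0 x1 x2) (m x0 (d (d x0 (t x0 x1 x2)) (d x0 (t x0 x1 (m x1 x2)))))) = (m x0 (d x0 (t x0 x1 (m x1 x2)))) := (e324 x0 (t x0 x1 x2) (d x0 (t x0 x1 (m x1 x2))))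
    have s3 : (m x0 (d x0 (t x0 x1 (m x1 x2)))) = (t x0 x1 (m x1 x2)) := (e12 x0 (t x0 x1 (m x1 x2)))
    exact (Eq.symm s1).trans (Eq.trans s2 s3)
  have e2215 : ∀ x0 : Q, (t a (m x0 a) (t x0 w (d x0 a))) = (m x0 u) := by
    intro x0
    have s1 : (t a (m x0 a) (t x0 a (d (d x0 a) u))) = (t a (m x0 a) (t x0 w (d x0 a))) := (ct012 rfl rfl (e1825 x0))
    have s2 : (t a (m x0 a) (t x0 a (d (d x0 a) u))) = (t x0 a (m x0 (d (d x0 a) u))) := (Eq.trans (Eq.trans (ct012 rfl (cm10 rfl rfl) (ct102 rfl rfl rfl)) (e2178 a x0 (d (d x0 a) u))) (ct102 rfl rfl rfl))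
    have s3 : (t x0 a (m x0 (d (d x0 a) u))) = (m x0 u) := (e324 x0 a u)
    exact (Eq.symm s1).trans (Eq.trans s2 s3)
  have e3522 : ∀ x0 : Q, (d (m b w) (d a (d a (m x0 b)))) = (d a (d a x0)) := by
    intro x0
    have s1 : (d (d a (m b u)) (d a (t a (m b u) (d a x0)))) = (d (d a (m b u)) (d a (d a (m x0 b)))) := (cd01 rfl (cd01 rfl (e319 x0)))
    have s2 : (d (d a (m b u)) (d a (d a (m x0 b)))) = (d (m b w) (d a (d a (m x0 b)))) := (cd01 (e128) rfl)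
    have s3 : (d (d a (m b u)) (d a (t a (m b u) (d a x0)))) = (d a (d a x0)) := (e56 a (m b u) (d a x0))
    exact (Eq.symm (Eq.trans s1 s2)).trans s3
  have e3524 : ∀ x0 x1 x2 : Q, (t x0 (d x1 x0) (d x1 (t x0 x1 x2))) = (m x2 (d x1 x0)) := by
    intro x0 x1 x2
    have s1 : (t x0 (d x1 x0) (m (d x1 x0) (d (d (d x1 x0) x0) x2))) = (t x0 (d x1 x0) (m (d x1 x0) (d x1 x2))) := (ct012 rfl rfl (cm01 rfl (cd01 (e25 x1 x0) rfl)))
    have s2 : (t x0 (d x1 x0) (m (d x1 x0) (d x1 x2))) = (t x0 (d x1 x0) (d x1 (t x0 x1 x2))) := (Eq.trans (ct012 rfl rfl (e49 x1 x0 x2)) (ct012 rfl rfl (cd01 rfl (ct102 rfl rfl rfl))))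
    have s3 : (t x0 (d x1 x0) (m (d x1 x0) (d (d (d x1 x0) x0) x2))) = (m x2 (d x1 x0)) := (Eq.trans (Eq.trans (ct102 rfl rfl rfl) (e324 (d x1 x0) x0 x2)) (cm10 rfl rfl))
    exact (Eq.symm (Eq.trans s1 s2)).trans s3
  have e3684 : ∀ x0 : Q, (t b (m b u) (d a (t x0 a b))) = (m x0 (m b u)) := by
    intro x0
    have s1 : (t b (m b u) (m (m b u) (d (d (m b u) b) x0))) = (t b (m b u) (m (m b u) (d a x0))) := (ct012 rfl rfl (cm01 rfl (cd01 (e27) rfl)))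
    have s2 : (t b (m b u) (m (m b u) (d a x0))) = (t b (m b u) (d a (t x0 a b))) := (ct012 rfl rfl (e62 x0))
    have s3 : (t b (m b u) (m (m b u) (d (d (m b u) b) x0))) = (m x0 (m b u)) := (Eq.trans (Eq.trans (ct102 rfl rfl rfl) (e324 (m b u) b x0)) (cm10 rfl rfl))
    exact (Eq.symm (Eq.trans s1 s2)).trans s3
  have e3685 : ∀ x0 : Q, (m u (d a (t x0 a b))) = (t x0 b u) := by
    intro x0
    have s1 : (t (m b u) (d b (m b u)) (d b (t b (m b u) (d a (t x0 a b))))) = (m (d a (t x0 a b)) (d b (m b u))) := (Eq.trans (ct012 rfl rfl (cd01 rfl (ct102 rfl rfl rfl))) (e3524 (m b u) b (d a (t x0 a b))))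
    have s2 : (m (d a (t x0 a b)) (d b (m b u))) = (m u (d a (t x0 a b))) := (Eq.trans (cm01 rfl (e13 b u)) (cm10 rfl rfl))
    have s3 : (t (m b u) (d b (m b u)) (d b (t b (m b u) (d a (t x0 a b))))) = (t (m b u) (d b (m b u)) (d b (m x0 (m b u)))) := (ct012 rfl rfl (cd01 rfl (e3684 x0)))
    have s4 : (t (m b u) (d b (m b u)) (d b (m x0 (m b u)))) = (t u (m b u) (d b (m x0 (m b u)))) := (Eq.trans (ct012 rfl (e13 b u) rfl) (ct102 rfl rfl rfl))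
    have s5 : (t u (m b u) (d b (m x0 (m b u)))) = (t u (m b u) (t b u (d b x0))) := (ct012 rfl rfl (e63 b x0 u))
    have s6 : (t u (m b u) (t b u (d b x0))) = (t b u (m b (d b x0))) := (Eq.trans (Eq.trans (ct012 rfl (cm10 rfl rfl) (ct102 rfl rfl rfl)) (e2178 u b (d b x0))) (ct102 rfl rfl rfl))
    have s7 : (t b u (m b (d b x0))) = (t x0 b u) := (Eq.trans (ct012 rfl rfl (e12 b x0)) (ct120 rfl rfl rfl))
    exact (Eq.symm (Eq.trans s1 s2)).trans (Eq.trans (Eq.trans (Eq.trans (Eq.trans s3 s4) s5) s6) s7)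
  have e3686 : ∀ x0 : Q, (d u (t x0 b u)) = (d a (t x0 a b)) := by
    intro x0
    have s1 : (d u (m u (d a (t x0 a b)))) = (d u (t x0 b u)) := (cd01 rfl (e3685 x0))
    have s2 : (d u (m u (d a (t x0 a b)))) = (d a (t x0 a b)) := (e13 u (d a (t x0 a b)))
    exact (Eq.symm s1).trans s2
  have e3691 : ∀ x0 : Q, (d (d u x0) (d a (t x0 a b))) = (d u b) := by
    intro x0
    have s1 : (d (d u x0) (d u (t x0 b u))) = (d (d u x0) (d a (t x0 a b))) := (cd01 rfl (e3686 x0))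
    have s2 : (d (d u x0) (d u (t x0 b u))) = (d u b) := (Eq.trans (cd01 rfl (cd01 rfl (ct120 rfl rfl rfl))) (e56 u x0 b))
    exact (Eq.symm s1).trans s2
  have e4734 : ∀ x0 x1 x2 : Q, (t x0 x1 (d (m x0 x1) x2)) = (t x0 (m x0 x1) (d x1 x2)) := by
    intro x0 x1 x2
    have s1 : (t x0 (m x0 x1) (t x0 x1 (d x1 (d (m x0 x1) x2)))) = (t x0 x1 (m x1 (d x1 (d (m x0 x1) x2)))) := (e2178 x0 x1 (d x1 (d (m x0 x1) x2)))
    have s2 : (t x0 x1 (m x1 (d x1 (d (m x0 x1) x2)))) = (t x0 x1 (d (m x0 x1) x2)) := (ct012 rfl rfl (e12 x1 (d (m x0 x1) x2)))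
    have s3 : (t x0 (m x0 x1) (t x0 x1 (d x1 (d (m x0 x1) x2)))) = (t x0 (m x0 x1) (d x1 x2)) := (ct012 rfl rfl (Eq.trans (ct102 rfl rfl (cd01 rfl (cd01 (cm10 rfl rfl) rfl))) (e351 x1 x0 x2)))
    exact (Eq.symm (Eq.trans s1 s2)).trans s3
  have e4736 : ∀ x0 : Q, (m b (m a (d (m b w) x0))) = (t x0 b (m b u)) := by
    intro x0
    have s1 : (m a (t a (m b w) (d (m a (m b w)) x0))) = (m a (t a (d (m b w) x0) (m a (m b w)))) := (Eq.trans (cm01 rfl (e4734 a (m b w) x0)) (cm01 rfl (ct021 rfl rfl rfl)))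
    have s2 : (m a (t a (d (m b w) x0) (m a (m b w)))) = (m a (t a (m b u) (d (m b w) x0))) := (Eq.trans (cm01 rfl (ct012 rfl rfl (e130))) (cm01 rfl (ct021 rfl rfl rfl)))
    have s3 : (m a (t a (m b u) (d (m b w) x0))) = (m b (m a (d (m b w) x0))) := (Eq.trans (Eq.trans (cm01 rfl (ct120 rfl rfl rfl)) (e55 (d (m b w) x0))) (cm01 rfl (cm10 rfl rfl)))
    have s4 : (m a (t a (m b w) (d (m a (m b w)) x0))) = (m (m b u) (m a (d (m a (m b w)) x0))) := (Eq.trans (Eq.trans (cm01 rfl (ct120 rfl rfl rfl)) (e1080 (d (m a (m b w)) x0))) (cm01 rfl (cm10 rfl rfl)))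
    have s5 : (m (m b u) (m a (d (m a (m b w)) x0))) = (m (m b u) (m a (d (m b u) x0))) := (cm01 rfl (cm01 rfl (cd01 (e130) rfl)))
    have s6 : (m (m b u) (m a (d (m b u) x0))) = (t x0 (m b u) (m a (m b u))) := (Eq.trans (e51 (m b u) a x0) (ct102 rfl rfl (cm10 rfl rfl)))
    have s7 : (t x0 (m b u) (m a (m b u))) = (t x0 b (m b u)) := (Eq.trans (ct012 rfl rfl (e18)) (ct021 rfl rfl rfl))
    exact (Eq.symm (Eq.trans (Eq.trans s1 s2) s3)).trans (Eq.trans (Eq.trans (Eq.trans s4 s5) s6) s7)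
  have e4737 : ∀ x0 : Q, (m a (d (m b w) x0)) = (m u (d b x0)) := by
    intro x0
    have s1 : (d b (m b (m a (d (m b w) x0)))) = (m a (d (m b w) x0)) := (e13 b (m a (d (m b w) x0)))
    have s2 : (d b (m b (m a (d (m b w) x0)))) = (d b (t x0 b (m b u))) := (cd01 rfl (e4736 x0))
    have s3 : (d b (t x0 b (m b u))) = (t u (d b b) (d b x0)) := (Eq.trans (e1752 b x0 b u) (ct021 rfl rfl rfl))
    have s4 : (t u (d b b) (d b x0)) = (t e u (d b x0)) := (Eq.trans (ct012 rfl (e21 b) rfl) (ct102 rfl rfl rfl))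
    have s5 : (t e u (d b x0)) = (m u (d b x0)) := (Eq.trans (ct201 rfl rfl rfl) (e14 u (d b x0)))
    exact (Eq.symm s1).trans (Eq.trans (Eq.trans (Eq.trans s2 s3) s4) s5)
  have e4740 : ∀ x0 : Q, (m u (t x0 b w)) = (m a (m x0 b)) := by
    intro x0
    have s1 : (m a (d (m b w) (m b (t x0 b w)))) = (m u (d b (m b (t x0 b w)))) := (e4737 (m b (t x0 b w)))
    have s2 : (m u (d b (m b (t x0 b w)))) = (m u (t x0 b w)) := (cm01 rfl (e13 b (t x0 b w)))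
    have s3 : (m a (d (m b w) (m b (t x0 b w)))) = (m a (m x0 b)) := (Eq.trans (cm01 rfl (Eq.trans (cd01 rfl (cm01 rfl (ct201 rfl rfl rfl))) (e54 b w x0))) (cm01 rfl (cm10 rfl rfl)))
    exact (Eq.symm (Eq.trans s1 s2)).trans s3
  have e4741 : ∀ x0 : Q, (m b (m a (m x0 u))) = (m a (m a (m x0 b))) := by
    intro x0
    have s1 : (m a (m u (t x0 b w))) = (m b (m a (m x0 u))) := (e1227 x0)
    have s2 : (m a (m u (t x0 b w))) = (m a (m a (m x0 b))) := (cm01 rfl (e4740 x0))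
    exact (Eq.symm s1).trans s2
  have e4748 : ∀ x0 : Q, (d (m b w) (m x0 b)) = (d a (m x0 u)) := by
    intro x0
    have s1 : (d (m b w) (d a (d a (m b (m a (m x0 u)))))) = (d (m b w) (d a (d a (m a (m a (m x0 b)))))) := (cd01 rfl (cd01 rfl (cd01 rfl (e4741 x0))))
    have s2 : (d (m b w) (d a (d a (m a (m a (m x0 b)))))) = (d (m b w) (d a (m a (m x0 b)))) := (cd01 rfl (cd01 rfl (e13 a (m a (m x0 b)))))
    have s3 : (d (m b w) (d a (m a (m x0 b)))) = (d (m b w) (m x0 b)) := (cd01 rfl (e13 a (m x0 b)))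
    have s4 : (d (m b w) (d a (d a (m b (m a (m x0 u)))))) = (d a (d a (m a (m x0 u)))) := (Eq.trans (cd01 rfl (cd01 rfl (cd01 rfl (cm10 rfl rfl)))) (e3522 (m a (m x0 u))))
    have s5 : (d a (d a (m a (m x0 u)))) = (d a (m x0 u)) := (cd01 rfl (e13 a (m x0 u)))
    exact (Eq.symm (Eq.trans (Eq.trans s1 s2) s3)).trans (Eq.trans s4 s5)
  have e4749 : ∀ x0 : Q, (t b w (d b (d a (m x0 u)))) = x0 := by
    intro x0
    have s1 : (t b w (d b (d (m b w) (m x0 b)))) = (t b w (d b (d a (m x0 u)))) := (ct012 rfl rfl (cd01 rfl (e4748 x0)))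
    have s2 : (t b w (d b (d (m b w) (m x0 b)))) = (d b (m x0 b)) := (e351 b w (m x0 b))
    have s3 : (d b (m x0 b)) = x0 := (Eq.trans (cd01 rfl (cm10 rfl rfl)) (e13 b x0))
    exact (Eq.symm s1).trans (Eq.trans s2 s3)
  have e4750 : ∀ x0 : Q, (t b w (d b (d a x0))) = (d u x0) := by
    intro x0
    have s1 : (t b w (d b (d a (m u (d u x0))))) = (t b w (d b (d a x0))) := (ct012 rfl rfl (cd01 rfl (cd01 rfl (e12 u x0))))
    have s2 : (t b w (d b (d a (m u (d u x0))))) = (d u x0) := (Eq.trans (ct012 rfl rfl (cd01 rfl (cd01 rfl (cm10 rfl rfl)))) (e4749 (d u x0)))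
    exact (Eq.symm s1).trans s2
  have e4753 : ∀ x0 : Q, (m (d a x0) (m b w)) = (m b (d u x0)) := by
    intro x0
    have s1 : (m b (t b w (d b (d a x0)))) = (m (d a x0) (m b w)) := (e53 b w (d a x0))
    have s2 : (m b (t b w (d b (d a x0)))) = (m b (d u x0)) := (cm01 rfl (e4750 x0))
    exact (Eq.symm s1).trans s2
  have e4754 : ∀ x0 : Q, (d a (t x0 a (m b u))) = (m b (d u x0)) := by
    intro x0
    have s1 : (d a (t x0 a (m b u))) = (m (d a x0) (m b w)) := (e1077 x0)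
    have s2 : (m (d a x0) (m b w)) = (m b (d u x0)) := (e4753 x0)
    exact (Eq.trans s1 s2)
  have e6511 : ∀ x0 : Q, (t x0 (d a x0) (m b (d u x0))) = (d a (t x0 a b)) := by
    intro x0
    have s1 : (t x0 (d a x0) (d a (t x0 a (m b u)))) = (t x0 (d a x0) (m b (d u x0))) := (ct012 rfl rfl (e4754 x0))
    have s2 : (t x0 (d a x0) (d a (t x0 a (m b u)))) = (m (m b u) (d a x0)) := (e3524 x0 a (m b u))
    have s3 : (m (m b u) (d a x0)) = (d a (t x0 a b)) := (e62 x0)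
    exact (Eq.symm s1).trans (Eq.trans s2 s3)
  have e6512 : ∀ x0 : Q, (t b u (d (d u x0) (d a x0))) = (d u b) := by
    intro x0
    have s1 : (d (d u x0) (t x0 (d a x0) (m b (d u x0)))) = (t b (d (d u x0) x0) (d (d u x0) (d a x0))) := (Eq.trans (cd01 rfl (ct012 rfl rfl (cm10 rfl rfl))) (e1752 (d u x0) x0 (d a x0) b))
    have s2 : (t b (d (d u x0) x0) (d (d u x0) (d a x0))) = (t b u (d (d u x0) (d a x0))) := (ct012 rfl (e25 u x0) rfl)
    have s3 : (d (d u x0) (t x0 (d a x0) (m b (d u x0)))) = (d (d u x0) (d a (t x0 a b))) := (cd01 rfl (e6511 x0))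
    have s4 : (d (d u x0) (d a (t x0 a b))) = (d u b) := (e3691 x0)
    exact (Eq.symm (Eq.trans s1 s2)).trans (Eq.trans s3 s4)
  have e6513 : ∀ x0 : Q, (m u (d (d u x0) (d a x0))) = a := by
    intro x0
    have s1 : (d (m b u) (m u (t b u (d (d u x0) (d a x0))))) = (m u (d (d u x0) (d a x0))) := (Eq.trans (cd01 (cm10 rfl rfl) (cm01 rfl (ct102 rfl rfl rfl))) (e54 u b (d (d u x0) (d a x0))))
    have s2 : (d (m b u) (m u (t b u (d (d u x0) (d a x0))))) = (d (m b u) (m u (d u b))) := (cd01 rfl (cm01 rfl (e6512 x0)))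
    have s3 : (d (m b u) (m u (d u b))) = (d (m b u) b) := (cd01 rfl (e12 u b))
    have s4 : (d (m b u) b) = a := (e27)
    exact (Eq.symm s1).trans (Eq.trans (Eq.trans s2 s3) s4)
  have e6514 : ∀ x0 : Q, (d (d u x0) (d a x0)) = w := by
    intro x0
    have s1 : (d u (m u (d (d u x0) (d a x0)))) = (d (d u x0) (d a x0)) := (e13 u (d (d u x0) (d a x0)))
    have s2 : (d u (m u (d (d u x0) (d a x0)))) = (d u a) := (cd01 rfl (e6513 x0))
    have s3 : (d u a) = w := (e90)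
    exact (Eq.symm s1).trans (Eq.trans s2 s3)
  have e6515 : ∀ x0 : Q, (m w (d u x0)) = (d a x0) := by
    intro x0
    have s1 : (m (d u x0) (d (d u x0) (d a x0))) = (m w (d u x0)) := (Eq.trans (cm01 rfl (e6514 x0)) (cm10 rfl rfl))
    have s2 : (m (d u x0) (d (d u x0) (d a x0))) = (d a x0) := (e12 (d u x0) (d a x0))
    exact (Eq.symm s1).trans s2
  have e6520 : ∀ x0 : Q, (t x0 w (d x0 a)) = u := by
    intro x0
    have s1 : (d (m a (m w (d u x0))) (m a (m x0 w))) = (d (m a (d a x0)) (m a (m x0 w))) := (cd01 (cm01 rfl (e6515 x0)) rfl)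
    have s2 : (d (m a (d a x0)) (m a (m x0 w))) = (d x0 (m a (m x0 w))) := (cd01 (e12 a x0) rfl)
    have s3 : (d x0 (m a (m x0 w))) = (t x0 w (d x0 a)) := (e63 x0 a w)
    have s4 : (d (m a (m w (d u x0))) (m a (m x0 w))) = u := (e635 x0)
    exact (Eq.symm (Eq.trans (Eq.trans s1 s2) s3)).trans s4
  have e6577 : ∀ x0 : Q, (m a (m x0 w)) = (m x0 u) := by
    intro x0
    have s1 : (t a (m x0 a) (t x0 w (d x0 a))) = (t a u (m x0 a)) := (Eq.trans (ct012 rfl rfl (e6520 x0)) (ct021 rfl rfl rfl))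
    have s2 : (t a u (m x0 a)) = (m a (m x0 w)) := (e29 x0)
    have s3 : (t a (m x0 a) (t x0 w (d x0 a))) = (m x0 u) := (e2215 x0)
    exact (Eq.symm (Eq.trans s1 s2)).trans s3
  have e6578 : (m u z) = (m a (m w z)) := by
    have s1 : (m u z) = (m a (m w z)) := (Eq.trans (Eq.trans (cm10 rfl rfl) (Eq.symm (e6577 z))) (cm01 rfl (cm10 rfl rfl)))
    exact s1
  exact e6578

/-- Machine-found equational derivation in commutative automorphic loops of exponent two. -/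
theorem sandwich2_eq {Q : Type} (m : Q → Q → Q) (d : Q → Q → Q) (t : Q → Q → Q → Q) (e a b u : Q)
    (mc : ∀ x y, m x y = m y x)
    (t12 : ∀ x y z, t x y z = t y x z) (t23 : ∀ x y z, t x y z = t x z y)
    (e0 : ∀ x0 : Q, (m x0 e) = x0)
    (e1 : ∀ x0 : Q, (m x0 x0) = e)
    (e2 : ∀ x0 x1 : Q, (m x0 (d x0 x1)) = x1)
    (e3 : ∀ x0 x1 : Q, (d x0 (m x0 x1)) = x1)
    (e4 : ∀ x0 x1 : Q, (t x0 x1 e) = (m x0 x1))
    (e6 : ∀ x0 x1 x2 x3 : Q, (m x0 (t x1 x2 x3)) = (t (m x0 x1) (m x0 x2) (m x0 x3)))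
    (e7 : ∀ x0 x1 x2 x3 : Q, (d x0 (t x1 x2 x3)) = (t (d x0 x1) (d x0 x2) (d x0 x3)))
    (e8 : (m a (m b u)) = b)
    : (m b (m a u)) = (m a (m a b)) := by
  have cm01 : ∀ {y0 y1 z0 z1 : Q}, y0 = z0 → y1 = z1 → m y0 y1 = m z0 z1 := by
    intro y0 y1 z0 z1 h0 h1
    subst h0 h1
    rfl
  have cm10 : ∀ {y0 y1 z0 z1 : Q}, y0 = z1 → y1 = z0 → m y0 y1 = m z0 z1 := by
    intro y0 y1 z0 z1 h0 h1
    subst h0 h1
    exact mc _ _
  have cd01 : ∀ {y0 y1 z0 z1 : Q}, y0 = z0 → y1 = z1 → d y0 y1 = d z0 z1 := by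
    intro y0 y1 z0 z1 h0 h1
    subst h0 h1
    rfl
  have ct012 : ∀ {y0 y1 y2 z0 z1 z2 : Q}, y0 = z0 → y1 = z1 → y2 = z2 → t y0 y1 y2 = t z0 z1 z2 := by
    intro y0 y1 y2 z0 z1 z2 h0 h1 h2
    subst h0 h1 h2
    rfl
  have ct021 : ∀ {y0 y1 y2 z0 z1 z2 : Q}, y0 = z0 → y1 = z2 → y2 = z1 → t y0 y1 y2 = t z0 z1 z2 := by
    intro y0 y1 y2 z0 z1 z2 h0 h1 h2
    subst h0 h1 h2
    first | exact t12 _ _ _ | exact t23 _ _ _ | exact (t12 _ _ _).trans (t23 _ _ _) | exact (t23 _ _ _).trans (t12 _ _ _) | exact ((t12 _ _ _).trans (t23 _ _ _)).trans (t12 _ _ _)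
  have ct102 : ∀ {y0 y1 y2 z0 z1 z2 : Q}, y0 = z1 → y1 = z0 → y2 = z2 → t y0 y1 y2 = t z0 z1 z2 := by
    intro y0 y1 y2 z0 z1 z2 h0 h1 h2
    subst h0 h1 h2
    first | exact t12 _ _ _ | exact t23 _ _ _ | exact (t12 _ _ _).trans (t23 _ _ _) | exact (t23 _ _ _).trans (t12 _ _ _) | exact ((t12 _ _ _).trans (t23 _ _ _)).trans (t12 _ _ _)
  have ct120 : ∀ {y0 y1 y2 z0 z1 z2 : Q}, y0 = z1 → y1 = z2 → y2 = z0 → t y0 y1 y2 = t z0 z1 z2 := by
    intro y0 y1 y2 z0 z1 z2 h0 h1 h2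
    subst h0 h1 h2
    first | exact t12 _ _ _ | exact t23 _ _ _ | exact (t12 _ _ _).trans (t23 _ _ _) | exact (t23 _ _ _).trans (t12 _ _ _) | exact ((t12 _ _ _).trans (t23 _ _ _)).trans (t12 _ _ _)
  have ct201 : ∀ {y0 y1 y2 z0 z1 z2 : Q}, y0 = z2 → y1 = z0 → y2 = z1 → t y0 y1 y2 = t z0 z1 z2 := by
    intro y0 y1 y2 z0 z1 z2 h0 h1 h2
    subst h0 h1 h2
    first | exact t12 _ _ _ | exact t23 _ _ _ | exact (t12 _ _ _).trans (t23 _ _ _) | exact (t23 _ _ _).trans (t12 _ _ _) | exact ((t12 _ _ _).trans (t23 _ _ _)).trans (t12 _ _ _)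
  have ct210 : ∀ {y0 y1 y2 z0 z1 z2 : Q}, y0 = z2 → y1 = z1 → y2 = z0 → t y0 y1 y2 = t z0 z1 z2 := by
    intro y0 y1 y2 z0 z1 z2 h0 h1 h2
    subst h0 h1 h2
    first | exact t12 _ _ _ | exact t23 _ _ _ | exact (t12 _ _ _).trans (t23 _ _ _) | exact (t23 _ _ _).trans (t12 _ _ _) | exact ((t12 _ _ _).trans (t23 _ _ _)).trans (t12 _ _ _)
  have e9 : ∀ x0 : Q, (m x0 e) = x0 := by
    intro x0
    have s1 : (m x0 e) = x0 := (e0 x0)
    exact s1
  have e10 : ∀ x0 : Q, (m x0 x0) = e := by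
    intro x0
    have s1 : (m x0 x0) = e := (e1 x0)
    exact s1
  have e11 : ∀ x0 x1 : Q, (m x0 (d x0 x1)) = x1 := by
    intro x0 x1
    have s1 : (m x0 (d x0 x1)) = x1 := (e2 x0 x1)
    exact s1
  have e12 : ∀ x0 x1 : Q, (d x0 (m x0 x1)) = x1 := by
    intro x0 x1
    have s1 : (d x0 (m x0 x1)) = x1 := (e3 x0 x1)
    exact s1
  have e13 : ∀ x0 x1 : Q, (t x0 x1 e) = (m x0 x1) := by
    intro x0 x1
    have s1 : (t x0 x1 e) = (m x0 x1) := (e4 x0 x1)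
    exact s1
  have e15 : ∀ x0 x1 x2 x3 : Q, (t (m x0 x1) (m x0 x2) (m x0 x3)) = (m x0 (t x1 x2 x3)) := by
    intro x0 x1 x2 x3
    have s1 : (m x0 (t x1 x2 x3)) = (t (m x0 x1) (m x0 x2) (m x0 x3)) := (e6 x0 x1 x2 x3)
    exact Eq.symm s1
  have e16 : ∀ x0 x1 x2 x3 : Q, (t (d x0 x1) (d x0 x2) (d x0 x3)) = (d x0 (t x1 x2 x3)) := by
    intro x0 x1 x2 x3
    have s1 : (d x0 (t x1 x2 x3)) = (t (d x0 x1) (d x0 x2) (d x0 x3)) := (e7 x0 x1 x2 x3)
    exact Eq.symm s1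
  have e17 : (m a (m b u)) = b := by
    have s1 : (m a (m b u)) = b := (e8)
    exact s1
  have e19 : ∀ x0 : Q, (d x0 x0) = e := by
    intro x0
    have s1 : (d x0 (m x0 e)) = (d x0 x0) := (cd01 rfl (e9 x0))
    have s2 : (d x0 (m x0 e)) = e := (e12 x0 e)
    exact (Eq.symm s1).trans s2
  have e20 : ∀ x0 : Q, (d x0 e) = x0 := by
    intro x0
    have s1 : (d x0 (m x0 x0)) = (d x0 e) := (cd01 rfl (e10 x0))
    have s2 : (d x0 (m x0 x0)) = x0 := (e12 x0 x0)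
    exact (Eq.symm s1).trans s2
  have e22 : (d a b) = (m b u) := by
    have s1 : (d a (m a (m b u))) = (d a b) := (cd01 rfl (e17))
    have s2 : (d a (m a (m b u))) = (m b u) := (e12 a (m b u))
    exact (Eq.symm s1).trans s2
  have e25 : ∀ x0 x1 x2 : Q, (m (m x0 x1) (m x0 x2)) = (m x0 (t x0 x1 x2)) := by
    intro x0 x1 x2
    have s1 : (t (m x0 x0) (m x0 x1) (m x0 x2)) = (t e (m x0 x1) (m x0 x2)) := (ct012 (e10 x0) rfl rfl)
    have s2 : (t e (m x0 x1) (m x0 x2)) = (m (m x0 x1) (m x0 x2)) := (Eq.trans (ct201 rfl rfl rfl) (e13 (m x0 x1) (m x0 x2)))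
    have s3 : (t (m x0 x0) (m x0 x1) (m x0 x2)) = (m x0 (t x0 x1 x2)) := (e15 x0 x0 x1 x2)
    exact (Eq.symm (Eq.trans s1 s2)).trans s3
  have e26 : ∀ x0 x1 x2 : Q, (m (d x0 x1) (d x0 x2)) = (d x0 (t x0 x1 x2)) := by
    intro x0 x1 x2
    have s1 : (t (d x0 x1) (d x0 x2) (d x0 x0)) = (t e (d x0 x1) (d x0 x2)) := (Eq.trans (ct012 rfl rfl (e19 x0)) (ct120 rfl rfl rfl))
    have s2 : (t e (d x0 x1) (d x0 x2)) = (m (d x0 x1) (d x0 x2)) := (Eq.trans (ct201 rfl rfl rfl) (e13 (d x0 x1) (d x0 x2)))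
    have s3 : (t (d x0 x1) (d x0 x2) (d x0 x0)) = (d x0 (t x0 x1 x2)) := (Eq.trans (e16 x0 x1 x2 x0) (cd01 rfl (ct120 rfl rfl rfl)))
    exact (Eq.symm (Eq.trans s1 s2)).trans s3
  have e27 : ∀ x0 x1 x2 : Q, (t x0 (d x0 x1) (d x0 x2)) = (d x0 (m x1 x2)) := by
    intro x0 x1 x2
    have s1 : (t (d x0 x1) (d x0 x2) (d x0 e)) = (t x0 (d x0 x1) (d x0 x2)) := (Eq.trans (ct012 rfl rfl (e20 x0)) (ct120 rfl rfl rfl))
    have s2 : (t (d x0 x1) (d x0 x2) (d x0 e)) = (d x0 (t x1 x2 e)) := (e16 x0 x1 x2 e)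
    have s3 : (d x0 (t x1 x2 e)) = (d x0 (m x1 x2)) := (cd01 rfl (e13 x1 x2))
    exact (Eq.symm s1).trans (Eq.trans s2 s3)
  have e30 : ∀ x0 x1 x2 : Q, (m x0 (t x0 x1 (d x0 x2))) = (m x2 (m x0 x1)) := by
    intro x0 x1 x2
    have s1 : (m (m x0 x1) (m x0 (d x0 x2))) = (m x0 (t x0 x1 (d x0 x2))) := (e25 x0 x1 (d x0 x2))
    have s2 : (m (m x0 x1) (m x0 (d x0 x2))) = (m x2 (m x0 x1)) := (Eq.trans (cm01 rfl (e11 x0 x2)) (cm10 rfl rfl))
    exact (Eq.symm s1).trans s2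
  have e31 : ∀ x0 x1 x2 : Q, (d (m x0 x1) (m x0 (t x0 x1 x2))) = (m x0 x2) := by
    intro x0 x1 x2
    have s1 : (d (m x0 x1) (m (m x0 x1) (m x0 x2))) = (d (m x0 x1) (m x0 (t x0 x1 x2))) := (cd01 rfl (e25 x0 x1 x2))
    have s2 : (d (m x0 x1) (m (m x0 x1) (m x0 x2))) = (m x0 x2) := (e12 (m x0 x1) (m x0 x2))
    exact (Eq.symm s1).trans s2
  have e35 : ∀ x0 : Q, (m (m b u) (d a x0)) = (d a (t x0 a b)) := by
    intro x0
    have s1 : (m (d a b) (d a x0)) = (m (m b u) (d a x0)) := (cm01 (e22) rfl)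
    have s2 : (m (d a b) (d a x0)) = (d a (t x0 a b)) := (Eq.trans (e26 a b x0) (cd01 rfl (ct120 rfl rfl rfl)))
    exact (Eq.symm s1).trans s2
  have e36 : ∀ x0 x1 x2 : Q, (d x0 (m x1 (m x0 x2))) = (t x0 x2 (d x0 x1)) := by
    intro x0 x1 x2
    have s1 : (t x0 (d x0 x1) (d x0 (m x0 x2))) = (d x0 (m x1 (m x0 x2))) := (e27 x0 x1 (m x0 x2))
    have s2 : (t x0 (d x0 x1) (d x0 (m x0 x2))) = (t x0 x2 (d x0 x1)) := (Eq.trans (ct012 rfl rfl (e12 x0 x2)) (ct021 rfl rfl rfl))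
    exact (Eq.symm s1).trans s2
  have e37 : (t b u (d b a)) = e := by
    have s1 : (d b (m a (m b u))) = (t b u (d b a)) := (e36 b a u)
    have s2 : (d b (m a (m b u))) = (d b b) := (cd01 rfl (e17))
    have s3 : (d b b) = e := (e19 b)
    exact (Eq.symm s1).trans (Eq.trans s2 s3)
  have e41 : (d a (d b a)) = (m u (d b a)) := by
    have s1 : (d (m b (d b a)) (m (d b a) (t b u (d b a)))) = (d (m b (d b a)) (m e (d b a))) := (Eq.trans (cd01 rfl (cm01 rfl (e37))) (cd01 rfl (cm10 rfl rfl)))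
    have s2 : (d (m b (d b a)) (m e (d b a))) = (d a (m e (d b a))) := (cd01 (e11 b a) rfl)
    have s3 : (d a (m e (d b a))) = (d a (d b a)) := (cd01 rfl (Eq.trans (cm10 rfl rfl) (e9 (d b a))))
    have s4 : (d (m b (d b a)) (m (d b a) (t b u (d b a)))) = (m u (d b a)) := (Eq.trans (Eq.trans (cd01 (cm10 rfl rfl) (cm01 rfl (ct120 rfl rfl rfl))) (e31 (d b a) b u)) (cm10 rfl rfl))
    exact (Eq.symm (Eq.trans (Eq.trans s1 s2) s3)).trans s4
  have e42 : (d a (t a b (d b a))) = u := by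
    have s1 : (m (m b u) (d a (d b a))) = (d a (t a b (d b a))) := (Eq.trans (e35 (d b a)) (cd01 rfl (ct201 rfl rfl rfl)))
    have s2 : (m (m b u) (d a (d b a))) = (m (m b u) (m u (d b a))) := (cm01 rfl (e41))
    have s3 : (m (m b u) (m u (d b a))) = (m u (t b u (d b a))) := (Eq.trans (Eq.trans (cm01 (cm10 rfl rfl) rfl) (e25 u b (d b a))) (cm01 rfl (ct102 rfl rfl rfl)))
    have s4 : (m u (t b u (d b a))) = (m e u) := (Eq.trans (cm01 rfl (e37)) (cm10 rfl rfl))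
    have s5 : (m e u) = u := (Eq.trans (cm10 rfl rfl) (e9 u))
    exact (Eq.symm s1).trans (Eq.trans (Eq.trans (Eq.trans s2 s3) s4) s5)
  have e43 : (t a b (d b a)) = (m a u) := by
    have s1 : (m a (d a (t a b (d b a)))) = (t a b (d b a)) := (e11 a (t a b (d b a)))
    have s2 : (m a (d a (t a b (d b a)))) = (m a u) := (cm01 rfl (e42))
    exact (Eq.symm s1).trans s2
  have e54 : (m b (m a u)) = (m a (m a b)) := by
    have s1 : (m b (t a b (d b a))) = (m b (m a u)) := (cm01 rfl (e43))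
    have s2 : (m b (t a b (d b a))) = (m a (m a b)) := (Eq.trans (Eq.trans (cm01 rfl (ct102 rfl rfl rfl)) (e30 b a a)) (cm01 rfl (cm10 rfl rfl)))
    exact (Eq.symm s1).trans s2
  have e55 : (m b (m a u)) = (m a (m a b)) := by
    have s1 : (m b (m a u)) = (m a (m a b)) := (e54)
    exact s1
  exact e55

end Pool.Agent.H921Z.Loop
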