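import Pool.Agent.H921Z.Loop.Baer

set_option autoImplicit false
set_option linter.all false

namespace Pool.Agent.H921Z.Loop

open Subgroup

section abstract

variable {G : Type*} [Group G] [Finite G] {p : ℕ} [hp : Fact p.Prime]

theorem sylow_trans {X : Type*} [MulAction G X] [Finite X] [MulAction.IsPretransitive G X] {k : ℕ}
    (hX : Nat.card X = p ^ k) (P : Sylow p G) (x y : X) : ∃ g ∈ P, g • x = y := by
  have h1 : (MulAction.stabilizer G x).index = p ^ k := by
    rw [MulAction.index_stabilizer_of_transitive, hX]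
  have h2 : p ^ k ∣ (MulAction.stabilizer G x ⊓ (P : Subgroup G)).index :=
    h1 ▸ index_dvd_of_le inf_le_left
  rw [← relIndex_mul_index (inf_le_right : MulAction.stabilizer G x ⊓ (P : Subgroup G) ≤ P),
    inf_relIndex_right] at h2
  have h3 : p ^ k ∣ (MulAction.stabilizer G x).relIndex P :=
    (hp.1.coprime_pow_of_not_dvd P.not_dvd_index).symm.dvd_of_dvd_mul_right h2
  have h4 : (MulAction.stabilizer G x).relIndex P =
      (MulAction.orbit (P : Subgroup G) x).ncard := by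
    rw [← MulAction.index_stabilizer]; rfl
  have h5 : MulAction.orbit (P : Subgroup G) x = Set.univ := by
    apply Set.eq_of_subset_of_ncard_le (Set.subset_univ _)
    rw [Set.ncard_univ, hX]
    apply Nat.le_of_dvd _ (h4 ▸ h3)
    exact (Set.ncard_pos (Set.toFinite _)).2 ⟨x, MulAction.mem_orbit_self x⟩
  have : y ∈ MulAction.orbit (P : Subgroup G) x := h5 ▸ Set.mem_univ y
  obtain ⟨g, hg⟩ := this
  exact ⟨g, g.2, hg⟩

theorem exists_norm {P R : Subgroup G} (hP : IsPGroup p P) (hlt : R < P) :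
    ∃ g ∈ P, g ∉ R ∧ g ∈ normalizer (R : Set G) := by
  haveI := hP.isNilpotent
  have hnc : NormalizerCondition P := Group.normalizerCondition_of_isNilpotent
  have h1 : R.subgroupOf P < ⊤ := by
    rw [lt_top_iff_ne_top, Ne, subgroupOf_eq_top]
    exact hlt.not_ge
  obtain ⟨g, hg1, hg2⟩ := SetLike.exists_of_lt (hnc _ h1)
  refine ⟨g, g.2, hg2, mem_normalizer_fintype (fun n hn => ?_)⟩
  exact (mem_normalizer_iff.1 hg1 ⟨n, hlt.le hn⟩).1 hn

theorem ce_top (X : Set G) (hX : closure X = ⊤) (h1 : ∀ x ∈ X, ∃ j, x ^ p ^ j = 1)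
    (h2 : ∀ g : G, ∃ j, g ^ p ^ j ∈ center G) : IsPGroup p G := by
  have hq : IsPGroup p (G ⧸ center G) := by
    intro g
    obtain ⟨g, rfl⟩ := QuotientGroup.mk_surjective g
    obtain ⟨j, hj⟩ := h2 g
    exact ⟨j, by rw [← QuotientGroup.mk_pow, QuotientGroup.eq_one_iff]; exact hj⟩
  haveI := hq.isNilpotent
  haveI : Group.IsNilpotent G := Subgroup.isNilpotent_of_ker_le_center (QuotientGroup.mk' (center G))
    (by rw [QuotientGroup.ker_mk'])
  obtain ⟨P⟩ : Nonempty (Sylow p G) := inferInstance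
  have hn : (P : Subgroup G).Normal :=
    Sylow.normal_of_normalizerCondition Group.normalizerCondition_of_isNilpotent P
  haveI := Sylow.unique_of_normal P hn
  have h3 : closure X ≤ P := by
    rw [Subgroup.closure_le]
    intro x hx
    obtain ⟨j, hj⟩ := h1 x hx
    obtain ⟨P', hP'⟩ := (pgroup_zpowers hj).exists_le_sylow
    rw [Subsingleton.elim P P']
    exact hP' (mem_zpowers x)
  rw [hX] at h3
  intro g
  obtain ⟨j, hj⟩ := P.2 ⟨g, h3 (mem_top g)⟩
  exact ⟨j, congrArg Subtype.val hj⟩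

theorem ce (X : Set G) (h1 : ∀ x ∈ X, ∃ j, x ^ p ^ j = 1)
    (h2 : ∀ g ∈ closure X, ∃ j, ∀ x ∈ X, Commute (g ^ p ^ j) x) : IsPGroup p (closure X) := by
  apply ce_top (((↑) : closure X → G) ⁻¹' X) (closure_preimage_eq_top X)
  · intro x hx
    obtain ⟨j, hj⟩ := h1 x hx
    exact ⟨j, Subtype.ext hj⟩
  · intro g
    obtain ⟨j, hj⟩ := h2 g g.2
    refine ⟨j, mem_center_iff.2 (fun k => Subtype.ext ?_)⟩
    have : closure X ≤ centralizer {(g : G) ^ p ^ j} := by
      rw [Subgroup.closure_le]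
      intro x hx
      exact mem_centralizer_singleton_iff.2 (hj x hx).eq.symm
    exact mem_centralizer_singleton_iff.1 (this k.2)

theorem fr_top (hG : IsPGroup p G) (A : Subgroup G) (h : A ⊔ commutator G = ⊤) : A = ⊤ := by
  rcases eq_top_or_exists_le_coatom A with h1 | ⟨M, hM, hAM⟩
  · exact h1
  exfalso
  haveI := hG.isNilpotent
  haveI : M.Normal :=
    NormalizerCondition.normal_of_coatom M Group.normalizerCondition_of_isNilpotent hM
  haveI : Nontrivial (G ⧸ M) := QuotientGroup.nontrivial_iff.2 hM.1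
  have h2 := (hG.to_quotient M).center_nontrivial
  obtain ⟨⟨z, hz⟩, hz1⟩ := exists_ne (1 : center (G ⧸ M))
  obtain ⟨z, rfl⟩ := QuotientGroup.mk_surjective z
  have h3 : (center (G ⧸ M)).comap (QuotientGroup.mk' M) = ⊤ := by
    apply hM.2
    refine lt_of_le_of_ne (fun m hm => ?_) (fun e => hz1 (Subtype.ext ?_))
    · rw [mem_comap, QuotientGroup.mk'_apply, (QuotientGroup.eq_one_iff m).2 hm]
      exact one_mem _
    · have : z ∈ M := by rw [e]; exact hz
      exact (QuotientGroup.eq_one_iff z).2 this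
  have h4 : commutator G ≤ M := by
    rw [commutator_def, commutator_le]
    intro a _ b _
    rw [← QuotientGroup.eq_one_iff, ← QuotientGroup.mk'_apply, map_commutatorElement,
      commutatorElement_eq_one_iff_mul_comm]
    have : a ∈ (center (G ⧸ M)).comap (QuotientGroup.mk' M) := h3 ▸ mem_top a
    exact (mem_center_iff.1 this _).symm
  exact hM.1 (top_le_iff.1 (h ▸ sup_le hAM h4))

theorem fr {P A : Subgroup G} (hP : IsPGroup p P) (hA : A ≤ P) (h : P ≤ A ⊔ ⁅P, P⁆) : P ≤ A := by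
  have h1 := fr_top hP (A.subgroupOf P) (by
    apply map_injective P.subtype_injective
    rw [Subgroup.map_sup, map_subgroupOf_eq_of_le hA, map_subtype_commutator, ← MonoidHom.range_eq_map,
      range_subtype]
    exact le_antisymm (sup_le hA (commutator_le.2 (fun a ha b hb =>
      mul_mem (mul_mem (mul_mem ha hb) (inv_mem ha)) (inv_mem hb)))) h)
  exact subgroupOf_eq_top.1 h1

theorem fg_top (O C : Subgroup G) [O.Normal] (hO : IsPGroup p O)
    (hmax : ∀ N : Subgroup G, N.Normal → IsPGroup p N → N ≤ O) (hOC : O ≤ C)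
    (h1 : ∀ q : ℕ, q.Prime → q ≠ p → ∀ g : G, ∀ a, g ^ q ^ a = 1 → g ∈ C)
    (h2 : ∀ c ∈ C, ∀ g, c * g * c⁻¹ * g⁻¹ ∈ O) : C = ⊤ := by
  obtain ⟨S, hS⟩ := hO.exists_le_sylow
  have h3 : (S : Subgroup G) ⊔ C = ⊤ := by
    rw [← index_eq_one]
    by_contra hne
    obtain ⟨r, hr, hd⟩ := Nat.exists_prime_and_dvd hne
    haveI := Fact.mk hr
    by_cases e : r = p
    · subst e
      exact S.not_dvd_index (hd.trans (index_dvd_of_le le_sup_left))
    · obtain ⟨T⟩ : Nonempty (Sylow r G) := inferInstance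
      refine T.not_dvd_index (hd.trans (index_dvd_of_le (le_trans ?_ le_sup_right)))
      intro g hg
      obtain ⟨a, ha⟩ := T.2 ⟨g, hg⟩
      exact h1 r hr e g a (congrArg Subtype.val ha)
  have h4 : (S : Subgroup G).Normal := by
    rw [← normalizer_eq_top_iff, eq_top_iff, ← h3]
    refine sup_le le_normalizer (fun c hc => mem_normalizer_fintype (fun s hs => ?_))
    have : c * s * c⁻¹ = (c * s * c⁻¹ * s⁻¹) * s := by group
    rw [this]
    exact mul_mem (hS (h2 c hc s)) hs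
  rw [eq_top_iff, ← h3]
  exact sup_le ((hmax S h4 S.2).trans hOC) le_rfl

theorem fg (M O C : Subgroup G) (hOM : O ≤ M) (hOn : M ≤ normalizer (O : Set G))
    (hO : IsPGroup p O)
    (hmax : ∀ N : Subgroup G, N ≤ M → M ≤ normalizer (N : Set G) → IsPGroup p N → N ≤ O)
    (hOC : O ≤ C) (h1 : ∀ q : ℕ, q.Prime → q ≠ p → ∀ g ∈ M, ∀ a, g ^ q ^ a = 1 → g ∈ C)
    (h2 : ∀ c ∈ C, ∀ g ∈ M, c * g * c⁻¹ * g⁻¹ ∈ O) : M ≤ C := by
  haveI : (O.subgroupOf M).Normal := normal_subgroupOf_of_le_normalizer hOn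
  rw [← subgroupOf_eq_top]
  apply fg_top (p := p) (O.subgroupOf M) (C.subgroupOf M) hO.comap_subtype
  · intro N hN hpN
    have := hmax (N.map M.subtype) (map_subtype_le N) (by
      intro g hg
      apply mem_normalizer_fintype
      rintro _ ⟨n, hn, rfl⟩
      exact ⟨_, hN.conj_mem n hn ⟨g, hg⟩, rfl⟩) (hpN.map _)
    intro n hn
    exact this ⟨n, hn, rfl⟩
  · exact fun g hg => hOC hg
  · intro q hq hne g a hg
    exact h1 q hq hne g g.2 a (congrArg Subtype.val hg)
  · intro c hc g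
    exact h2 c hc g g.2

end abstract

/-- a `p`-subgroup of a transitive group of `p`-power degree is transitive or grows -/
theorem growth {X : Type*} [Finite X] {p k : ℕ} [hp : Fact p.Prime] (hX : Nat.card X = p ^ k)
    (M R : Subgroup (Equiv.Perm X)) (o : X) (hM : ∀ y, ∃ g ∈ M, g o = y) (hR : IsPGroup p R)
    (hRM : R ≤ M) : (∀ y, ∃ r ∈ R, r o = y) ∨
      ∃ g ∈ M, g ∉ R ∧ g ∈ normalizer (R : Set (Equiv.Perm X)) ∧ ∃ j, g ^ p ^ j = 1 := by
  haveI : MulAction.IsPretransitive M X := ⟨fun x y => by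
    obtain ⟨g, hg, rfl⟩ := hM x
    obtain ⟨g', hg', rfl⟩ := hM y
    refine ⟨⟨g' * g⁻¹, mul_mem hg' (inv_mem hg)⟩, ?_⟩
    show (g' * g⁻¹) (g o) = g' o
    simp⟩
  obtain ⟨P, hP⟩ := (hR.comap_subtype (K := M)).exists_le_sylow
  have hP' : IsPGroup p ((P : Subgroup M).map M.subtype) := P.2.map _
  have hle : R ≤ (P : Subgroup M).map M.subtype := fun r hr => ⟨⟨r, hRM hr⟩, hP hr, rfl⟩
  rcases hle.eq_or_lt with e | hlt
  · left
    intro y
    obtain ⟨g, hg, e'⟩ := sylow_trans hX P o y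
    exact ⟨g, e ▸ ⟨g, hg, rfl⟩, e'⟩
  · right
    obtain ⟨g, hg, h1, h2⟩ := exists_norm hP' hlt
    obtain ⟨j, hj⟩ := hP' ⟨g, hg⟩
    exact ⟨g, map_subtype_le _ hg, h1, h2, j, congrArg Subtype.val hj⟩

end Pool.Agent.H921Z.Loop
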