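import Pool.Agent.H921Z.Loop.Main
import Pool.Agent.H921Z.Loop.Grp
import Pool.Agent.H284Z.Affine

set_option autoImplicit false
set_option linter.all false

namespace Pool.Agent.H921Z.Loop

open Pool.Agent.H284Z Equiv

variable {Q : Type} [ALoop Q]

/-- the middle inner mapping comparing `(x a) y` with `x (a y)` -/
noncomputable def mm (x y : Q) : Perm Q := (L x * R y)⁻¹ * (R y * L x)

theorem mm_spec (x y a : Q) : x * (mm x y a * y) = (x * a) * y := by
  simp [mm]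

theorem mm_mem (x y : Q) : mm x y ∈ Mlt Q :=
  mul_mem (inv_mem (mul_mem (L_mem _) (R_mem _))) (mul_mem (R_mem _) (L_mem _))

theorem mm_eq {x y a b : Q} (h : x * (b * y) = (x * a) * y) : mm x y a = b :=
  rcan (lcan ((mm_spec x y a).trans h.symm))

theorem mm_one (x y : Q) : mm x y 1 = 1 := mm_eq (by simp)

theorem mm_aut (x y : Q) : mm x y ∈ AutG Q := aut_of_mem (mm_mem x y) (mm_one x y)

variable (Q) in
/-- the group generated by the maps `mm x y` -/
def Mg : Subgroup (Perm Q) := Subgroup.closure {g | ∃ x y, g = mm x y}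

theorem Mg_le {g : Perm Q} (hg : g ∈ Mg Q) : g ∈ Mlt Q ∧ g 1 = 1 := by
  induction hg using Subgroup.closure_induction with
  | mem g hg => obtain ⟨x, y, rfl⟩ := hg; exact ⟨mm_mem x y, mm_one x y⟩
  | one => exact ⟨one_mem _, rfl⟩
  | mul g h _ _ ihg ihh => exact ⟨mul_mem ihg.1 ihh.1, by rw [Perm.mul_apply, ihh.2, ihg.2]⟩
  | inv g _ ih => exact ⟨inv_mem ih.1, H284Z.inv_one ih.2⟩

theorem lift_Mg {F : Type} [ALoop F] (π : Q →* F) (U : Subgroup (Perm F))
    (hU : ∀ x y, mm x y ∈ U) {g : Perm Q} (hg : g ∈ Mg Q) : ∃ g' ∈ U, ∀ x, π (g x) = g' (π x) := by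
  induction hg using Subgroup.closure_induction with
  | mem g hg =>
    obtain ⟨x, y, rfl⟩ := hg
    refine ⟨mm (π x) (π y), hU _ _, fun a => (mm_eq ?_).symm⟩
    rw [← map_mul, ← map_mul, mm_spec, map_mul, map_mul]
  | one => exact ⟨1, one_mem _, by simp⟩
  | mul g h _ _ ihg ihh =>
    obtain ⟨g', hg', h1⟩ := ihg
    obtain ⟨h', hh', h2⟩ := ihh
    exact ⟨g' * h', mul_mem hg' hh', by simp [h1, h2]⟩
  | inv g _ ih =>
    obtain ⟨g', hg', h1⟩ := ih
    refine ⟨g'⁻¹, inv_mem hg', fun x => ?_⟩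
    apply g'.injective
    rw [← h1]; simp

theorem lift_pow {F : Type} [ALoop F] (π : Q →* F) {g : Perm Q} {g' : Perm F}
    (h : ∀ x, π (g x) = g' (π x)) : ∀ (n : ℕ) x, π ((g ^ n) x) = (g' ^ n) (π x)
  | 0, x => rfl
  | n + 1, x => by rw [pow_succ', pow_succ', Perm.mul_apply, Perm.mul_apply, h, lift_pow π h n]

theorem eq_one_of_pp {G : Type*} [Group G] {p q a b : ℕ} (hp : p.Prime) (hq : q.Prime)
    (hne : q ≠ p) {g : G} (h1 : g ^ q ^ a = 1) (h2 : g ^ p ^ b = 1) : g = 1 :=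
  (pow_eq_one_iff_of_coprime (Nat.coprime_pow_primes a b hq hp hne)).1 ⟨h1, h2⟩

theorem lift_fix {F : Type} [ALoop F] (π : Q →* F) (hs : Function.Surjective π)
    {U : Subgroup (Perm F)} {p q a : ℕ} (hp : p.Prime) (hq : q.Prime) (hne : q ≠ p)
    (hU : IsPGroup p U) {g : Perm Q} (hg : g ^ q ^ a = 1) {g' : Perm F} (hg' : g' ∈ U)
    (h : ∀ x, π (g x) = g' (π x)) (x : Q) : π (g x) = π x := by
  obtain ⟨j, hj⟩ := hU ⟨g', hg'⟩
  have h1 : g' ^ q ^ a = 1 := by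
    ext y
    obtain ⟨y, rfl⟩ := hs y
    rw [← lift_pow π h, hg]; rfl
  rw [h, eq_one_of_pp hp hq hne h1 (congrArg Subtype.val hj)]; rfl

theorem conj_mem' {G : Type*} [Group G] {M B : Subgroup G}
    (h : M ≤ Subgroup.normalizer (B : Set G)) {g k : G} (hg : g ∈ M) (hk : k ∈ B) :
    g * k * g⁻¹ ∈ B := (Subgroup.mem_normalizer_iff.1 (h hg) k).1 hk

/-- the orbit of `1` under a group normalised by the multiplication group -/
def orb (B : Subgroup (Perm Q)) (hB : Mlt Q ≤ Subgroup.normalizer (B : Set (Perm Q))) :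
    Submonoid Q where
  carrier := MulAction.orbit B (1 : Q)
  one_mem' := MulAction.mem_orbit_self _
  mul_mem' := by
    rintro _ _ ⟨⟨a, ha⟩, rfl⟩ ⟨⟨b, hb⟩, rfl⟩
    refine ⟨⟨L (a 1) * b * (L (a 1))⁻¹ * a, mul_mem (conj_mem' hB (L_mem _) hb) ha⟩, ?_⟩
    show a 1 * b ((L (a 1))⁻¹ (a 1)) = a 1 * b 1
    rw [Linv_self]

theorem orb_normal (B : Subgroup (Perm Q)) (hB : Mlt Q ≤ Subgroup.normalizer (B : Set (Perm Q))) :
    IsNormal (orb B hB) := by
  rintro g hg h1 _ ⟨⟨a, ha⟩, rfl⟩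
  refine ⟨⟨g * a * g⁻¹, conj_mem' hB hg ha⟩, ?_⟩
  show g (a (g⁻¹ 1)) = g (a 1)
  rw [H284Z.inv_one h1]

theorem orb_iff {B : Subgroup (Perm Q)} {hB : Mlt Q ≤ Subgroup.normalizer (B : Set (Perm Q))}
    {F : Type} [ALoop F] (π : Q →* F) (hk : MonoidHom.mker π = orb B hB) (x y : Q) :
    π y = π x ↔ ∃ k ∈ B, y = k x := by
  constructor
  · intro h
    obtain ⟨n, hn, rfl⟩ := exists_ker π h
    rw [← MonoidHom.mem_mker, hk] at hn
    obtain ⟨⟨a, ha⟩, rfl⟩ := hn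
    refine ⟨L x * a * (L x)⁻¹, conj_mem' hB (L_mem _) ha, ?_⟩
    show x * a 1 = x * a ((L x)⁻¹ x)
    rw [Linv_self]
  · rintro ⟨k, hkB, rfl⟩
    have h1 : ((L x)⁻¹ * k * ((L x)⁻¹)⁻¹) 1 ∈ MonoidHom.mker π := by
      rw [hk]; exact ⟨⟨_, conj_mem' hB (inv_mem (L_mem _)) hkB⟩, rfl⟩
    have h2 : k x = x * ((L x)⁻¹ * k * ((L x)⁻¹)⁻¹) 1 := by simp
    rw [h2, map_mul, MonoidHom.mem_mker.1 h1, mul_one]

variable [Finite Q]

theorem fix_pp {α : Type} [Finite α] {g : Perm α} {r a : ℕ} (hr : r.Prime) (hg : g ^ r ^ a = 1)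
    {X : Set α} (h : ∀ x ∈ X, g x ∈ X) (hd : ¬ r ∣ Nat.card X) : ∃ x ∈ X, g x = x := by
  haveI := Fact.mk hr
  have h2 : ∀ n : ℕ, ∀ x ∈ X, (g ^ n) x ∈ X := by
    intro n
    induction n with
    | zero => intro x hx; simpa using hx
    | succ n ih => intro x hx; rw [pow_succ']; exact h _ (ih x hx)
  obtain ⟨x, hx, hfx⟩ := fix_of_not_dvd hr (pgroup_zpowers hg) (X := X) (by
    intro k hk x hx
    obtain ⟨n, rfl⟩ := (mem_powers_iff_mem_zpowers.2 hk)
    exact h2 n x hx) hd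
  exact ⟨x, hx, hfx g (Subgroup.mem_zpowers g)⟩

theorem Mg_pgroup {p : ℕ} (hp : p.Prime) (P B : Subgroup (Perm Q)) (hP : IsPGroup p P)
    (hBP : B ≤ P) (hB : Mlt Q ≤ Subgroup.normalizer (B : Set (Perm Q))) (g : Q → Perm Q)
    (hgen : Subgroup.closure (Set.range g) = P)
    (hcomm : ∀ h ∈ Mlt Q, h 1 = 1 → ∀ x, h * g x * h⁻¹ = g (h x))
    (hk : ∀ k ∈ B, ∀ x, g (k x) * (g x)⁻¹ ∈ ⁅P, P⁆)
    (hF : ∀ (F : Type) [ALoop F] (π : Q →* F), Function.Surjective π →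
      MonoidHom.mker π = orb B hB → ∃ U : Subgroup (Perm F), IsPGroup p U ∧ ∀ x y, mm x y ∈ U) :
    IsPGroup p (Mg Q) := by
  haveI := Fact.mk hp
  obtain ⟨F, inst, π, hs, hker⟩ := exists_quot _ (orb_normal B hB)
  obtain ⟨U, hU, hmm⟩ := hF F π hs hker
  refine pgroup_of_no_prime _ hp (fun q hq hne t ht htq => ?_)
  obtain ⟨t', ht', h1⟩ := lift_Mg π U hmm ht
  have h2 := lift_fix π hs hp hq hne hU (a := 1) (by rw [pow_one]; exact htq) ht' h1
  obtain ⟨j, hj⟩ : ∃ j, Nat.card (orb B hB) = p ^ j := (hP.to_le hBP).card_orbit (1 : Q)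
  have h3 : ∀ x, ∃ u, t u = u ∧ ∃ k ∈ B, x = k u := by
    intro x
    obtain ⟨u, hu, hu'⟩ := fix_single hq htq (X := {z | π z = π x})
      (fun z hz => (h2 z).trans hz) (by rw [card_fiber, hker, hj]; exact not_dvd_pow hp hq hne)
    exact ⟨u, hu', (orb_iff π hker u x).1 hu.symm⟩
  have hgP : ∀ x, g x ∈ P := fun x => hgen ▸ Subgroup.subset_closure ⟨x, rfl⟩
  have h4 : P ≤ P ⊓ Subgroup.centralizer {t} := by
    apply fr hP inf_le_left
    conv_lhs => rw [← hgen]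
    rw [Subgroup.closure_le]
    rintro _ ⟨x, rfl⟩
    obtain ⟨u, hu, k, hkB, rfl⟩ := h3 x
    have e : g (k u) = (g (k u) * (g u)⁻¹) * g u := by group
    rw [e]
    refine mul_mem (Subgroup.mem_sup_right (hk k hkB u)) (Subgroup.mem_sup_left ⟨hgP u, ?_⟩)
    refine Subgroup.mem_centralizer_singleton_iff.2 ?_
    have := hcomm t (Mg_le ht).1 (Mg_le ht).2 u
    rw [hu] at this
    calc g u * t = (t * g u * t⁻¹) * t := by rw [this]
      _ = t * g u := by group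
  ext x
  obtain ⟨u, hu, k, hkB, rfl⟩ := h3 x
  have := Subgroup.mem_centralizer_singleton_iff.1 (h4 (hBP hkB)).2
  rw [← Perm.mul_apply, ← this, Perm.mul_apply, hu]; rfl

theorem nucleus_of {p : ℕ} (hp : p.Prime) (hM : IsPGroup p (Mg Q)) (hd : p ∣ Nat.card Q) :
    ∃ a : Q, a ≠ 1 ∧ ∀ x y, (x * a) * y = x * (a * y) := by
  obtain ⟨a, -, h1, h2⟩ := fix_of_dvd hp hM (X := Set.univ) (fun _ _ _ _ => Set.mem_univ _)
    (by rwa [Nat.card_univ]) (Set.mem_univ (1 : Q)) (fun g hg => (Mg_le hg).2)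
  refine ⟨a, h1, fun x y => ?_⟩
  rw [← mm_spec, h2 _ (Subgroup.subset_closure ⟨x, y, rfl⟩)]

theorem pw_eq_pow (x : Q) : ∀ n : ℕ, pw x n = (R x ^ n) 1
  | 0 => rfl
  | n + 1 => by rw [pow_succ', Perm.mul_apply, ← pw_eq_pow x n]; rfl

/-- every prime divisor of the order of an element divides the order of the loop -/
theorem prime_dvd_card' (p : ℕ) (hp : p.Prime) : ∀ (n : ℕ) (Q : Type) [ALoop Q] [Finite Q]
    (x : Q), Nat.card Q = n → (∀ m, pw x m = 1 → p ∣ m) → p ∣ n := by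
  intro n
  induction n using Nat.strong_induction_on with
  | _ n ih =>
  intro Q _ _ x hn h1
  by_contra hcon
  obtain ⟨m, hm⟩ : p ∣ orderOf (R x) := h1 _ (by rw [pw_eq_pow, pow_orderOf_eq_one]; rfl)
  have hpos : 0 < orderOf (R x) := orderOf_pos _
  let φ : Perm Q := R x ^ m
  have hφ : φ ^ p = 1 := by rw [← pow_mul, mul_comm, ← hm, pow_orderOf_eq_one]
  have hφ1 : φ ≠ 1 := by
    apply pow_ne_one_of_lt_orderOf
    · rintro rfl; omega
    · have := hp.two_le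
      have : m ≠ 0 := by rintro rfl; omega
      rw [hm]; nlinarith [Nat.pos_of_ne_zero this]
  have hφm : φ ∈ Mlt Q := pow_mem (R_mem x) _
  have hc : Commute (R x) φ := (Commute.refl _).pow_right _
  obtain ⟨y, -, hy⟩ := fix_single hp hφ (X := Set.univ) (fun _ _ => Set.mem_univ _)
    (by rwa [Nat.card_univ, hn])
  let ψ : Perm Q := (L y)⁻¹ * φ * L y
  have hψa : ψ ∈ AutG Q := by
    have := conj_aut hφm y
    rwa [hy] at this
  have hψ : ψ ^ p ^ 1 = 1 := by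
    have : ψ = (L y)⁻¹ * φ * ((L y)⁻¹)⁻¹ := by rw [inv_inv]
    rw [pow_one, this, conj_pow, hφ]; group
  let F : Submonoid Q := fixSub ψ hψa
  have hxF : x ∈ F := by
    show (L y)⁻¹ (φ (y * x)) = x
    have := congrArg (fun g : Perm Q => g y) hc.eq
    simp only [Perm.mul_apply, H284Z.R_apply] at this
    rw [← this, hy, Linv_mul]
  obtain ⟨z, hne⟩ : ∃ z, z ∉ F := by
    by_contra h
    push Not at h
    have h3 : ψ = 1 := Equiv.ext h
    apply hφ1
    calc φ = L y * ψ * (L y)⁻¹ := by simp only [ψ]; group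
      _ = 1 := by rw [h3]; group
  have hlt : Nat.card F < n := by
    rw [← hn]
    exact Finite.card_subtype_lt hne
  have hd := ih _ hlt F ⟨x, hxF⟩ rfl (fun m h => h1 m (by
      have := hom_pw F.subtype ⟨x, hxF⟩ m
      rw [h, map_one] at this
      exact this.symm))
  classical
  haveI := Fact.mk hp
  haveI := Fintype.ofFinite Q
  have hmod := Perm.card_compl_support_modEq hψ
  have hcard : Nat.card F = ψ.supportᶜ.card := by
    rw [← Fintype.card_coe, ← Nat.card_eq_fintype_card]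
    apply Nat.card_congr
    apply Equiv.subtypeEquivRight
    intro z
    simp only [Finset.mem_compl, Perm.mem_support, not_not]
    rfl
  rw [hcard] at hd
  rw [← hn, Nat.card_eq_fintype_card] at hcon
  exact hcon ((hmod.dvd_iff dvd_rfl).1 hd)

theorem pp_elt_of_card {p k : ℕ} (hp : p.Prime) (hk : Nat.card Q = p ^ k) (x : Q) :
    ∃ j, pw x (p ^ j) = 1 := by
  let f : Q → Q := fun y => y * x
  have hper : (1 : Q) ∈ Function.periodicPts f :=
    Function.Injective.mem_periodicPts (ALoop.bijR x).1 1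
  have hpos : 0 < Function.minimalPeriod f 1 := Function.minimalPeriod_pos_of_mem_periodicPts hper
  have hiff : ∀ n, pw x n = 1 ↔ Function.minimalPeriod f 1 ∣ n := by
    intro n
    rw [pw_eq, ← Function.isPeriodicPt_iff_minimalPeriod_dvd]
    rfl
  refine ⟨_, (hiff _).2 (Nat.eq_prime_pow_of_unique_prime_dvd (p := p) hpos.ne' ?_).dvd⟩
  intro d hd h
  have h1 := prime_dvd_card' d hd _ Q x hk (fun m hm => h.trans ((hiff m).1 hm))
  exact (Nat.prime_dvd_prime_iff_eq hd hp).1 (hd.dvd_of_dvd_pow h1)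

end Pool.Agent.H921Z.Loop
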