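import Pool.Agent.H921Z.Loop.Sym
import Pool.Agent.H921Z.Loop.Baer

set_option autoImplicit false
set_option linter.all false

namespace Pool.Agent.H921Z.Loop

open Pool.Agent.H284Z Equiv

/-- elementwise Lagrange-type statement, by induction on the order -/
theorem prime_dvd_card (p : ℕ) (hp : p.Prime) (m : ℕ) : ∀ (n : ℕ) (Q : Type) [ALoop Q] [Finite Q]
    (x : Q), Nat.card Q = n → pw x (p * m) = 1 → pw x (4 * m) ≠ 1 → p ∣ n := by
  intro n
  induction n using Nat.strong_induction_on with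
  | _ n ih =>
  intro Q _ _ x hn h1 h2
  classical
  haveI := Fact.mk hp
  haveI := Fintype.ofFinite Q
  by_contra hcon
  let φ : Perm Q := rho x ^ (2 * m)
  have hφ : φ ^ p ^ 1 = 1 := by
    rw [pow_one, ← pow_mul, ← rho_pow_eq_one h1]; congr 1; ring
  have hφ1 : φ 1 ≠ 1 := by
    rw [rho_pow_one, ← mul_assoc]; exact h2
  have hφm : φ ∈ Mlt Q := pow_mem (rho_mem x) _
  have hc : Commute (R x) φ := (comm_rho x).pow_right _
  rw [← hn, Nat.card_eq_fintype_card] at hcon
  obtain ⟨y, hy⟩ := Perm.exists_fixed_point_of_prime hcon hφ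
  let ψ : Perm Q := (L y)⁻¹ * φ * L y
  have hψa : ψ ∈ AutG Q := by
    have := conj_aut hφm y
    rwa [hy] at this
  have hψ : ψ ^ p ^ 1 = 1 := by
    have : ψ = (L y)⁻¹ * φ * ((L y)⁻¹)⁻¹ := by rw [inv_inv]
    rw [this, conj_pow, hφ]; group
  let F : Submonoid Q :=
    { carrier := {z | ψ z = z}
      one_mem' := aut_one hψa
      mul_mem' := by
        intro a b ha hb
        show ψ (a * b) = a * b
        rw [hψa, ha, hb] }
  have hxF : x ∈ F := by
    show (L y)⁻¹ (φ (y * x)) = x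
    have := congrArg (fun g : Perm Q => g y) hc.eq
    simp only [Perm.mul_apply, H284Z.R_apply] at this
    rw [← this, hy, Linv_mul]
  have hne : (L y)⁻¹ 1 ∉ F := by
    intro h
    have h3 : (L y)⁻¹ (φ (y * (L y)⁻¹ 1)) = (L y)⁻¹ 1 := h
    rw [mul_Linv] at h3
    exact hφ1 ((L y)⁻¹.injective h3)
  have hlt : Nat.card F < n := by
    rw [← hn]
    exact Finite.card_subtype_lt hne
  have hd := ih _ hlt F ⟨x, hxF⟩ rfl (Subtype.ext (by
      have := hom_pw F.subtype ⟨x, hxF⟩ (p * m)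
      exact this.trans h1)) (fun h => h2 (by
      have := hom_pw F.subtype ⟨x, hxF⟩ (4 * m)
      rw [h, map_one] at this
      exact this.symm))
  have hmod := Perm.card_compl_support_modEq hψ
  have hcard : Nat.card F = ψ.supportᶜ.card := by
    rw [← Fintype.card_coe, ← Nat.card_eq_fintype_card]
    apply Nat.card_congr
    apply Equiv.subtypeEquivRight
    intro z
    simp only [Finset.mem_compl, Perm.mem_support, not_not]
    rfl
  rw [hcard] at hd
  exact hcon ((hmod.dvd_iff dvd_rfl).1 hd)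

theorem two_elt_of_card {Q : Type} [ALoop Q] [Finite Q] {k : ℕ} (hk : Nat.card Q = 2 ^ k) (x : Q) :
    ∃ j, pw x (2 ^ j) = 1 := by
  let f : Q → Q := fun y => y * x
  have hper : (1 : Q) ∈ Function.periodicPts f :=
    Function.Injective.mem_periodicPts (ALoop.bijR x).1 1
  have hpos : 0 < Function.minimalPeriod f 1 := Function.minimalPeriod_pos_of_mem_periodicPts hper
  have hiff : ∀ n, pw x n = 1 ↔ Function.minimalPeriod f 1 ∣ n := by
    intro n
    rw [pw_eq, ← Function.isPeriodicPt_iff_minimalPeriod_dvd]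
    rfl
  refine ⟨_, (hiff _).2 (Nat.eq_prime_pow_of_unique_prime_dvd (p := 2) hpos.ne' ?_).dvd⟩
  intro d hd ⟨m, hm⟩
  have hm0 : 0 < m := by
    rcases Nat.eq_zero_or_pos m with h | h
    · rw [h, mul_zero] at hm; omega
    · exact h
  by_contra hne
  have h1 := prime_dvd_card d hd m _ Q x hk ((hiff _).2 hm.dvd) (fun h => by
    rw [hiff, hm] at h
    have h4 : d ∣ 2 ^ 2 := Nat.dvd_of_mul_dvd_mul_right hm0 h
    exact hne ((Nat.prime_dvd_prime_iff_eq hd Nat.prime_two).1 (hd.dvd_of_dvd_pow h4)))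
  exact hne ((Nat.prime_dvd_prime_iff_eq hd Nat.prime_two).1 (hd.dvd_of_dvd_pow h1))

theorem card_of_op {F : Type} [Finite F] (o : F → F → F) (e : F)
    (h1 : ∀ a b c, o (o a b) c = o a (o b c)) (h2 : ∀ a, o e a = a) (h3 : ∀ a, o a a = e) :
    ∃ k, Nat.card F = 2 ^ k := by
  letI : Mul F := ⟨o⟩
  letI : One F := ⟨e⟩
  letI : Inv F := ⟨id⟩
  letI : Group F := Group.ofLeftAxioms h1 h2 h3
  have : IsPGroup 2 F := fun a => ⟨1, by rw [pow_one, pow_two]; exact h3 a⟩
  exact IsPGroup.iff_card.1 this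

/-- finite automorphic loops of exponent two have order a power of two -/
theorem card_of_exp_two {F : Type} [ALoop F] [Finite F] (h : ∀ y : F, y * y = 1) :
    ∃ k, Nat.card F = 2 ^ k := by
  have hiv : ∀ y : F, iv y = y := fun y => iv_eq (h y)
  have hc : ∀ a b : F, a * b = b * a := by
    intro a b
    rw [← hiv (a * b), aaip, hiv, hiv]
  have t23 : ∀ x y z : F, tern x y z = tern x z y := by
    intro x y z
    unfold tern
    rw [hc ((L x)⁻¹ y)]
  have t1 : ∀ y z : F, tern y 1 z = y * z := by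
    intro y z
    show y * (iv y * (L y)⁻¹ z) = y * z
    rw [hiv, mul_Linv]
  have t12 : ∀ x y z : F, tern x y z = tern y x z := by
    intro x y z
    apply (L x)⁻¹.injective
    rw [tern_equiv (inv_mem (L_mem x)), tern_equiv (inv_mem (L_mem x)), Linv_self, t1, tern_one]
  have pasch : ∀ a b c p q r u : F, tern a b p = u → tern a c q = u → tern p c r = u →
      tern b q r = u := by
    intro a b c p q r u h1 h2 h3
    apply (L a)⁻¹.injective
    have e := tern_equiv (inv_mem (L_mem a))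
    have k1 := congrArg (fun z => (L a)⁻¹ z) h1
    have k2 := congrArg (fun z => (L a)⁻¹ z) h2
    have k3 := congrArg (fun z => (L a)⁻¹ z) h3
    simp only [e, Linv_self, tern_one] at k1 k2 k3
    rw [e]
    exact pasch_eq (fun x y => x * y) (fun x y => (L x)⁻¹ y) tern 1 _ _ _ _ _ _ hc t12 t23
      mul_one h mul_Linv Linv_mul (fun x y => by rw [t23, t1])
      (fun x => tern_equiv (L_mem x)) (fun x => tern_equiv (inv_mem (L_mem x))) k1 k2 k3
  let o : F → F → F := fun x y => x * (L ((L x)⁻¹ y))⁻¹ ((L x)⁻¹ 1)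
  have ho : ∀ x y, tern x y (o x y) = 1 := by
    intro x y
    simp only [tern, o, Linv_mul, mul_Linv]
  have hu : ∀ x y z, tern x y z = 1 → o x y = z := by
    intro x y z hz
    rw [← ho x y] at hz
    exact ((L x)⁻¹.injective (lcan (lcan hz))).symm
  have oc : ∀ x y, o x y = o y x := fun x y => hu _ _ _ (by rw [t12, ho])
  have o3 : ∀ a b c, o (o a b) c = o (o a c) b := by
    intro a b c
    rw [oc (o a c)]
    exact (hu _ _ _ (pasch a b c _ _ _ 1 (ho a b) (ho a c) (ho _ c))).symm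
  refine card_of_op o 1 (fun a b c => ?_) (fun a => hu _ _ _ (by rw [tern_one, h]))
    (fun a => hu _ _ _ ?_)
  · rw [oc a b, o3 b a c, oc a]
  · simp [tern]

theorem card_of_two_elt {Q : Type} [ALoop Q] [Finite Q] (h : ∀ x : Q, ∃ k, pw x (2 ^ k) = 1) :
    ∃ k, Nat.card Q = 2 ^ k := by
  let D : Set (Perm Q) := Set.range sy
  have hH : IsPGroup 2 (Subgroup.closure D) := by
    apply baer_suzuki
    · rintro _ ⟨v, rfl⟩ _ ⟨u, rfl⟩
      exact ⟨_, (sy_conj v u).symm⟩
    · rintro _ ⟨v, rfl⟩ _ ⟨u, rfl⟩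
      obtain ⟨k, hk⟩ := h ((L u)⁻¹ v)
      refine dihedral (sy_mul_self v) (sy_mul_self u) (k := k + 1) ?_
      have h1 := rho_pow_eq_one hk
      have h2 : sy v * sy u = L u * rho ((L u)⁻¹ v) * (L u)⁻¹ := by
        rw [rho, ← conj_sy (inv_mem (L_mem u)) v]
        unfold sy; group
      rw [h2, conj_pow, pow_succ' 2 k, h1]; group
  have hn : Mlt Q ≤ Subgroup.normalizer (Subgroup.closure D : Set (Perm Q)) := by
    rw [Subgroup.le_normalizer_closure_iff]
    rintro g hg _ ⟨u, rfl⟩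
    exact Subgroup.subset_closure ⟨_, (conj_sy hg u).symm⟩
  have hn' : ∀ g ∈ Mlt Q, ∀ k ∈ Subgroup.closure D, g * k * g⁻¹ ∈ Subgroup.closure D :=
    fun g hg k hk => (Subgroup.mem_normalizer_iff.1 (hn hg) k).1 hk
  let N : Submonoid Q :=
    { carrier := MulAction.orbit (Subgroup.closure D) (1 : Q)
      one_mem' := MulAction.mem_orbit_self _
      mul_mem' := by
        rintro _ _ ⟨⟨a, ha⟩, rfl⟩ ⟨⟨b, hb⟩, rfl⟩
        refine ⟨⟨L (a 1) * b * (L (a 1))⁻¹ * a, mul_mem (hn' _ (L_mem _) _ hb) ha⟩, ?_⟩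
        show a 1 * b ((L (a 1))⁻¹ (a 1)) = a 1 * b 1
        rw [Linv_self] }
  have hN : IsNormal N := by
    rintro g hg h1 _ ⟨⟨a, ha⟩, rfl⟩
    refine ⟨⟨g * a * g⁻¹, hn' _ hg _ ha⟩, ?_⟩
    show g (a (g⁻¹ 1)) = g (a 1)
    rw [H284Z.inv_one h1]
  obtain ⟨k1, hk1⟩ : ∃ k, Nat.card N = 2 ^ k := hH.card_orbit (1 : Q)
  obtain ⟨F, inst, π, hs, hker⟩ := exists_quot N hN
  haveI : Finite F := Finite.of_surjective π hs
  obtain ⟨k2, hk2⟩ : ∃ k, Nat.card F = 2 ^ k := by
    apply card_of_exp_two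
    intro y
    obtain ⟨x, rfl⟩ := hs y
    rw [← map_mul, ← MonoidHom.mem_mker, hker]
    exact ⟨⟨sy x, Subgroup.subset_closure ⟨x, rfl⟩⟩, sy_apply_one x⟩
  have hc := card_comap π hs ⊤
  rw [Submonoid.comap_top, hker, hk1, Nat.card_congr (Submonoid.topEquiv (M := Q)).toEquiv,
    Nat.card_congr (Submonoid.topEquiv (M := F)).toEquiv, hk2, ← pow_add] at hc
  exact ⟨_, hc⟩

end Pool.Agent.H921Z.Loop
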