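import Pool.Agent.H921Z.Loop.Lift

set_option autoImplicit false
set_option linter.all false

namespace Pool.Agent.H921Z.Loop

open Pool.Agent.H284Z Equiv

theorem lie_abs {V : Type} [AddCommGroup V] (m : V → V → V) (l r : V → V →+ V)
    (hl : ∀ x y, m x y = x + l x y) (hr : ∀ x y, m x y = y + r y x)
    (hJ : ∀ x y, -(m x y) = m (-y) (-x)) (ha : ∀ x y z, l x (m y z) = m (l x y) (l x z))
    (h2 : ∀ v : V, v + v = 0 → v = 0) :
    ∃ W : AddSubgroup V, (∀ x y u v, m x (m u y) = m (m x v) y → u - v ∈ W) ∧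
      ∀ x y, ∀ w ∈ W, m x (m w y) = m (m x w) y := by
  obtain ⟨b, hb⟩ : ∃ b : V → V → V, ∀ x y, b x y = x + y - m x y := ⟨_, fun _ _ => rfl⟩
  have hm : ∀ x y, m x y = x + y - b x y := fun x y => by rw [hb]; abel
  have b1 : ∀ x y, b x y = y - l x y := fun x y => by rw [hb, hl]; abel
  have b2 : ∀ x y, b x y = x - r y x := fun x y => by rw [hb, hr]; abel
  have hl' : ∀ x y, l x y = y - b x y := fun x y => by rw [b1]; abel
  have ar : ∀ x y z, b x (y + z) = b x y + b x z := fun x y z => by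
    simp only [b1, map_add]; abel
  have al : ∀ x y z, b (x + y) z = b x z + b y z := fun x y z => by
    simp only [b2, map_add]; abel
  have nr : ∀ x y, b x (-y) = -b x y := fun x y => by simp only [b1, map_neg]; abel
  have nl : ∀ x y, b (-x) y = -b x y := fun x y => by simp only [b2, map_neg]; abel
  have sr : ∀ x y z, b x (y - z) = b x y - b x z := fun x y z => by
    rw [sub_eq_add_neg, ar, nr, sub_eq_add_neg]
  have sl : ∀ x y z, b (x - y) z = b x z - b y z := fun x y z => by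
    rw [sub_eq_add_neg, al, nl, sub_eq_add_neg]
  have anti : ∀ x y, b y x = -b x y := fun x y => by
    have := hJ x y
    rw [hm, hm, nl, nr] at this
    first | linear_combination (norm := abel1) this | linear_combination (norm := abel1) (-1 : ℤ) • this
  have key : ∀ x y z, b x (b y z) = b (b x y) z + b y (b x z) - b (b x y) (b x z) := by
    intro x y z
    have := ha x y z
    simp only [hm, hl', ar, al, sr, sl] at this
    first | linear_combination (norm := abel1) this | linear_combination (norm := abel1) (-1 : ℤ) • this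
  have w2 : ∀ x y z, b (b x y) (b x z) = 0 := by
    intro x y z
    apply h2
    have e1 := key x y z
    have e2 := key (-x) y z
    simp only [nl, nr, neg_neg] at e2
    linear_combination (norm := abel1) e1 + e2
  have jac : ∀ x y z, b x (b y z) = b (b x y) z + b y (b x z) := fun x y z => by
    rw [key, w2, sub_zero]
  have s13 : ∀ x y w z, b (b x y) (b w z) = -b (b w y) (b x z) := by
    intro x y w z
    have := w2 (x + w) y z
    simp only [al, ar, w2] at this
    first | linear_combination (norm := abel1) this | linear_combination (norm := abel1) (-1 : ℤ) • this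
  have meta2 : ∀ x y w z, b (b x y) (b w z) = 0 := by
    intro x y w z
    apply h2
    have a12 : ∀ x y w z, b (b x y) (b w z) = -b (b y x) (b w z) := fun x y w z => by
      rw [anti y x, nl]
    have a34 : ∀ x y w z, b (b x y) (b w z) = -b (b x y) (b z w) := fun x y w z => by
      rw [anti z w, nr]
    have e : b (b x y) (b w z) = b (b w z) (b x y) := by
      rw [s13 x y w z, a12 w y x z, a34 y w x z, s13 y w z x, a12 z w y x, a34 w z y x]
      simp only [neg_neg]
    have e3 := anti (b x y) (b w z)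
    rw [← e] at e3
    linear_combination (norm := abel1) e3
  let W : AddSubgroup V := AddSubgroup.closure {v | ∃ x y, v = b x y}
  have hW : ∀ x y, b x y ∈ W := fun x y => AddSubgroup.subset_closure ⟨x, y, rfl⟩
  refine ⟨W, fun x y u v h => ?_, fun x y w hw => ?_⟩
  · simp only [hm, ar, al, sr, sl] at h
    have : u - v = b u y + b x u - b x (b u y) - b x v - b v y + b (b x v) y := by
      first | linear_combination (norm := abel1) h | linear_combination (norm := abel1) (-1 : ℤ) • h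
    rw [this]
    exact add_mem (sub_mem (sub_mem (sub_mem (add_mem (hW _ _) (hW _ _)) (hW _ _)) (hW _ _))
      (hW _ _)) (hW _ _)
  · have h3 : b w (b x y) = 0 := by
      induction hw using AddSubgroup.closure_induction with
      | mem v hv => obtain ⟨a, c, rfl⟩ := hv; exact meta2 _ _ _ _
      | zero => have := al 0 0 (b x y); simpa using this
      | add u v _ _ hu hv => rw [al, hu, hv, add_zero]
      | neg u _ hu => rw [nl, hu, neg_zero]
    simp only [hm, ar, al, sr, sl]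
    rw [jac x w y, h3]
    abel

variable {Q : Type} [ALoop Q]

theorem J_rho (x : Q) : J Q * rho x * (J Q)⁻¹ = (rho x)⁻¹ := by
  rw [rho, mul_inv_rev, J_inv, sy_inv, mul_assoc, mul_assoc, J_mul_J, mul_one]

theorem rho_pow_J (x : Q) (n : ℕ) : rho x ^ (2 * n) * J Q = sy (pw x (2 * n)) := by
  have h1 := conj_sy (pow_mem (rho_mem x) n) 1
  rw [rho_pow_one, sy_one] at h1
  have h3 : J Q * (rho x) ^ n * (J Q)⁻¹ = (rho x ^ n)⁻¹ := by
    rw [← conj_pow, J_rho, inv_pow]
  rw [← h1, ← h3, two_mul, pow_add]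
  calc rho x ^ n * rho x ^ n * J Q = rho x ^ n * (J Q * J Q) * rho x ^ n * J Q := by
        rw [J_mul_J, mul_one]
    _ = _ := by rw [J_inv]; group

theorem pw_succ_eq {x : Q} {m : ℕ} (h : pw x m = 1) : pw x (m + 1) = x := by
  show pw x m * x = x
  rw [h, one_mul]

theorem rho_odd {x : Q} {m : ℕ} (h : pw x m = 1) (hm : Odd m) :
    rho x ^ m = 1 ∧ ∃ n, (rho x ^ n) 1 = x := by
  obtain ⟨n, rfl⟩ := hm
  have e : 2 * (n + 1) = 2 * n + 1 + 1 := by ring
  refine ⟨?_, n + 1, by rw [rho_pow_one, e, pw_succ_eq h]⟩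
  have h1 := rho_pow_J x (n + 1)
  rw [e, pw_succ_eq h, pow_succ] at h1
  have h2 : rho x * J Q = sy x := by rw [rho, mul_assoc, J_mul_J, mul_one]
  rw [mul_assoc, h2] at h1
  exact mul_right_cancel (h1.trans (one_mul _).symm)

theorem conj_rho {g : Perm Q} (hg : g ∈ Mlt Q) (x : Q) :
    g * rho x * g⁻¹ = rho (g x) * (rho (g 1))⁻¹ := by
  simp only [rho]
  rw [← conj_sy hg, ← conj_sy hg, sy_one]
  simp only [mul_inv_rev, inv_inv, J_inv]
  calc g * (sy x * J Q) * g⁻¹ = g * sy x * g⁻¹ * (J Q * J Q) * (g * J Q * g⁻¹) := by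
        rw [J_mul_J]; group
    _ = _ := by group

variable (Q) in
/-- the group generated by the rotations -/
def Kr : Subgroup (Perm Q) := Subgroup.closure (Set.range rho)

theorem rho_mem_Kr (x : Q) : rho x ∈ Kr Q := Subgroup.subset_closure ⟨x, rfl⟩

theorem Kr_le : Kr Q ≤ Mlt Q := by
  rw [Kr, Subgroup.closure_le]
  rintro _ ⟨x, rfl⟩
  exact rho_mem x

theorem Kr_norm : Mlt Q ≤ Subgroup.normalizer (Kr Q : Set (Perm Q)) := by
  rw [Kr, Subgroup.le_normalizer_closure_iff]
  rintro g hg _ ⟨x, rfl⟩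
  rw [conj_rho hg]
  exact mul_mem (rho_mem_Kr _) (inv_mem (rho_mem_Kr _))

theorem zpowers_norm {G : Type*} [Group G] [Finite G] {a j : G} (h : j * a * j⁻¹ = a⁻¹) :
    j ∈ Subgroup.normalizer (Subgroup.zpowers a : Set G) := by
  apply Subgroup.mem_normalizer_fintype
  rintro _ ⟨n, rfl⟩
  exact ⟨-n, by show a ^ (-n) = j * a ^ n * j⁻¹; rw [← conj_zpow, h, inv_zpow']⟩

theorem norm_sup {G : Type*} [Group G] {A B : Subgroup G} {j : G}
    (h1 : j ∈ Subgroup.normalizer (A : Set G)) (h2 : j ∈ Subgroup.normalizer (B : Set G)) :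
    j ∈ Subgroup.normalizer ((A ⊔ B : Subgroup G) : Set G) := by
  rw [Subgroup.mem_normalizer_iff_map_conj_eq] at h1 h2 ⊢
  rw [Subgroup.map_sup, h1, h2]

theorem norm_comm {G : Type*} [Group G] {A : Subgroup G} {j : G}
    (h1 : j ∈ Subgroup.normalizer (A : Set G)) :
    j ∈ Subgroup.normalizer ((⁅A, A⁆ : Subgroup G) : Set G) := by
  rw [Subgroup.mem_normalizer_iff_map_conj_eq] at h1 ⊢
  rw [Subgroup.map_commutator, h1]

variable [Finite Q]

theorem J_norm_Kr : J Q ∈ Subgroup.normalizer (Kr Q : Set (Perm Q)) := by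
  have : Subgroup.zpowers (J Q) ≤ Subgroup.normalizer (Kr Q : Set (Perm Q)) := by
    rw [Subgroup.zpowers_le]
    apply Subgroup.mem_normalizer_fintype
    intro n hn
    induction hn using Subgroup.closure_induction with
    | mem g hg => obtain ⟨x, rfl⟩ := hg; rw [J_rho]; exact inv_mem (rho_mem_Kr x)
    | one => simpa using one_mem _
    | mul g h _ _ ihg ihh => rw [← conj_mul]; exact mul_mem ihg ihh
    | inv g _ ih => rw [← conj_inv]; exact inv_mem ih
  exact this (Subgroup.mem_zpowers _)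

theorem rho_facts {p k : ℕ} (hp : p.Prime) (h2 : p ≠ 2) (hk : Nat.card Q = p ^ k) (x : Q) :
    (∃ j, rho x ^ p ^ j = 1) ∧ ∃ n, (rho x ^ n) 1 = x := by
  obtain ⟨j, hj⟩ := pp_elt_of_card hp hk x
  obtain ⟨e1, e2⟩ := rho_odd hj (hp.odd_of_ne_two h2).pow
  exact ⟨⟨j, e1⟩, e2⟩

theorem Kr_pgroup {p k : ℕ} (hp : p.Prime) (h2 : p ≠ 2) (hk : Nat.card Q = p ^ k) :
    IsPGroup p (Kr Q) := by
  haveI := Fact.mk hp
  obtain ⟨S, -, hS⟩ := Finite.exists_le_maximal (p := fun S : Subgroup (Perm Q) =>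
    S ≤ Mlt Q ∧ IsPGroup p S ∧ J Q ∈ Subgroup.normalizer (S : Set (Perm Q))) (a := ⊥)
    ⟨bot_le, IsPGroup.of_bot, Subgroup.le_normalizer_of_normal (Subgroup.mem_top _)⟩
  obtain ⟨hS1, hS2, hS3⟩ := hS.prop
  have grow : ∀ c ∈ Mlt Q, (∃ j, c ^ p ^ j = 1) → c ∈ Subgroup.normalizer (S : Set (Perm Q)) →
      J Q ∈ Subgroup.normalizer (Subgroup.zpowers c : Set (Perm Q)) → c ∈ S := by
    rintro c hc ⟨j, hj⟩ hn hJ
    have := hS.le_of_ge (y := S ⊔ Subgroup.zpowers c) ⟨sup_le hS1 (Subgroup.zpowers_le.2 hc),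
      hS2.to_sup_of_normal_left' (pgroup_zpowers hj) (Subgroup.zpowers_le.2 hn),
      norm_sup hS3 hJ⟩ le_sup_left
    exact this (Subgroup.mem_sup_right (Subgroup.mem_zpowers c))
  have hrho : ∀ g ∈ Mlt Q, g ∈ Subgroup.normalizer (S : Set (Perm Q)) → rho (g 1) ∈ S := by
    intro g hg hn
    refine grow _ (rho_mem _) (rho_facts hp h2 hk _).1 ?_ (zpowers_norm (J_rho _))
    rw [rho, ← conj_sy hg, sy_one]
    exact mul_mem (mul_mem (mul_mem hn hS3) (inv_mem hn)) hS3
  rcases growth hk (Mlt Q) S 1 (fun y => ⟨L y, L_mem y, mul_one y⟩) hS2 hS1 with h | h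
  · apply hS2.to_le
    rw [Kr, Subgroup.closure_le]
    rintro _ ⟨x, rfl⟩
    obtain ⟨r, hr, rfl⟩ := h x
    exact hrho r (hS1 hr) (Subgroup.le_normalizer hr)
  · exfalso
    obtain ⟨g, hg, hgS, hn, j, hj⟩ := h
    obtain ⟨n, hn1⟩ := (rho_facts hp h2 hk (g 1)).2
    have hr : rho (g 1) ^ n ∈ S := pow_mem (hrho g hg hn) n
    set r := rho (g 1) ^ n with hr0
    have hc : r⁻¹ * g ∈ Mlt Q := mul_mem (inv_mem (hS1 hr)) hg
    have hc1 : (r⁻¹ * g) 1 = 1 := by rw [Perm.mul_apply, ← hn1]; simp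
    have hP : IsPGroup p (S ⊔ Subgroup.zpowers g : Subgroup (Perm Q)) :=
      hS2.to_sup_of_normal_left' (pgroup_zpowers hj) (Subgroup.zpowers_le.2 hn)
    obtain ⟨i, hi⟩ := hP ⟨r⁻¹ * g, mul_mem (Subgroup.mem_sup_left (inv_mem hr))
      (Subgroup.mem_sup_right (Subgroup.mem_zpowers g))⟩
    have h3 := grow _ hc ⟨i, congrArg Subtype.val hi⟩
      (mul_mem (inv_mem (Subgroup.le_normalizer hr)) hn) (by
        apply Subgroup.mem_normalizer_fintype
        rintro _ ⟨n, rfl⟩
        refine ⟨n, ?_⟩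
        show (r⁻¹ * g) ^ n = J Q * (r⁻¹ * g) ^ n * (J Q)⁻¹
        rw [← conj_zpow, ← aut_J (aut_of_mem hc hc1), mul_inv_cancel_right])
    apply hgS
    simpa using mul_mem hr h3

theorem lie_case {F : Type} [ALoop F] [Finite F] {p k : ℕ} (hp : p.Prime) (h2 : p ≠ 2)
    (hk : Nat.card F = p ^ k) (hc : ∀ a b : F, Commute (rho a) (rho b)) :
    ∃ U : Subgroup (Perm F), IsPGroup p U ∧ ∀ x y, mm x y ∈ U := by
  have hcK : ∀ a ∈ Kr F, ∀ b ∈ Kr F, a * b = b * a := by
    have h1 : ∀ x : F, Kr F ≤ Subgroup.centralizer {rho x} := by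
      intro x
      rw [Kr, Subgroup.closure_le]
      rintro _ ⟨y, rfl⟩
      exact Subgroup.mem_centralizer_singleton_iff.2 (hc y x).eq
    intro a ha b hb
    have h3 : Kr F ≤ Subgroup.centralizer {a} := by
      rw [Kr, Subgroup.closure_le]
      rintro _ ⟨y, rfl⟩
      exact Subgroup.mem_centralizer_singleton_iff.2
        (Subgroup.mem_centralizer_singleton_iff.1 (h1 y ha)).symm
    exact (Subgroup.mem_centralizer_singleton_iff.1 (h3 hb)).symm
  have hex : ∀ x : F, ∃ t ∈ Kr F, t 1 = x := fun x => by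
    obtain ⟨n, hn⟩ := (rho_facts hp h2 hk x).2
    exact ⟨_, pow_mem (rho_mem_Kr x) n, hn⟩
  choose τ hτ hτ1 using hex
  have uniq : ∀ a ∈ Kr F, τ (a 1) = a := by
    intro a ha
    ext y
    rw [← hτ1 y, ← Perm.mul_apply, hcK _ (hτ _) _ (hτ _), ← Perm.mul_apply a, hcK _ ha _ (hτ _),
      Perm.mul_apply, Perm.mul_apply, hτ1]
  have hmul : ∀ x y, τ (τ x y) = τ x * τ y := fun x y => by
    rw [← uniq _ (mul_mem (hτ x) (hτ y)), Perm.mul_apply, hτ1]
  have hJK : ∀ a ∈ Kr F, J F * a * (J F)⁻¹ = a⁻¹ := by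
    intro a ha
    induction ha using Subgroup.closure_induction with
    | mem g hg => obtain ⟨x, rfl⟩ := hg; exact J_rho x
    | one => simp
    | mul g h hg hh ihg ihh =>
      rw [← conj_mul, ihg, ihh, mul_inv_rev]
      exact hcK _ (inv_mem hg) _ (inv_mem hh)
    | inv g _ ih => rw [← conj_inv, ih]
  have hneg : ∀ x, τ (iv x) = (τ x)⁻¹ := fun x => by
    rw [← uniq _ (inv_mem (hτ x)), ← hJK _ (hτ x), J_inv]
    simp [iv_one, hτ1]
  letI : Add F := ⟨fun x y => τ x y⟩
  letI : Zero F := ⟨1⟩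
  letI : Neg F := ⟨iv⟩
  letI : AddGroup F := AddGroup.ofLeftAxioms
    (fun a b c => by show τ (τ a b) c = τ a (τ b c); rw [hmul]; rfl)
    (fun a => by
      show τ 1 a = a
      have := uniq 1 (one_mem _)
      rw [Perm.one_apply] at this
      rw [this]; rfl)
    (fun a => by
      show τ (iv a) a = 1
      rw [hneg]
      apply (τ a).injective
      simp [hτ1])
  letI : AddCommGroup F :=
    { (inferInstance : AddGroup F) with
      add_comm := fun a b => by
        show τ a b = τ b a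
        conv_lhs => rw [← hτ1 b]
        conv_rhs => rw [← hτ1 a]
        rw [← Perm.mul_apply, hcK _ (hτ a) _ (hτ b), Perm.mul_apply] }
  have hadd : ∀ h ∈ Mlt F, h 1 = 1 → ∀ x y : F, h (x + y) = h x + h y := by
    intro h hh h1 x y
    show h (τ x y) = τ (h x) (h y)
    have := uniq _ (conj_mem' Kr_norm hh (hτ x))
    simp only [Perm.mul_apply, H284Z.inv_one h1, hτ1] at this
    rw [this]; simp
  have hlm : ∀ x : F, (τ x)⁻¹ * L x ∈ Mlt F := fun x => mul_mem (inv_mem (Kr_le (hτ x))) (L_mem x)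
  have hrm : ∀ x : F, (τ x)⁻¹ * R x ∈ Mlt F := fun x => mul_mem (inv_mem (Kr_le (hτ x))) (R_mem x)
  have hl1 : ∀ x : F, ((τ x)⁻¹ * L x) 1 = 1 := fun x => by
    apply (τ x).injective; simp [hτ1]
  have hr1 : ∀ x : F, ((τ x)⁻¹ * R x) 1 = 1 := fun x => by
    apply (τ x).injective; simp [hτ1]
  have hcard : ∀ v : F, (p ^ k) • v = 0 := fun v => hk ▸ card_nsmul_eq_zero'
  obtain ⟨W, hW1, hW2⟩ := lie_abs (fun x y : F => x * y)
    (fun x => AddMonoidHom.mk' ((τ x)⁻¹ * L x : Perm F) (hadd _ (hlm x) (hl1 x)))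
    (fun x => AddMonoidHom.mk' ((τ x)⁻¹ * R x : Perm F) (hadd _ (hrm x) (hr1 x)))
    (fun x y => by show x * y = τ x ((τ x)⁻¹ (x * y)); simp)
    (fun x y => by show x * y = τ y ((τ y)⁻¹ (x * y)); simp)
    aaip (fun x y z => aut_of_mem (hlm x) (hl1 x) y z)
    (fun v hv => by
      have h3 : 2 • v = 0 := by rw [two_nsmul, hv]
      exact (nsmul_eq_zero_iff_of_coprime
        (((Nat.coprime_primes Nat.prime_two hp).2 h2.symm).pow_right k)).1 ⟨h3, hcard v⟩)
  let U : Subgroup (Perm F) :=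
    { carrier := {g | (∀ v, g v - v ∈ W) ∧ ∀ w ∈ W, ∀ v, g (v + w) = g v + w}
      one_mem' := ⟨fun v => by simp, fun w _ v => rfl⟩
      mul_mem' := by
        rintro a b ⟨ha1, ha2⟩ ⟨hb1, hb2⟩
        refine ⟨fun v => ?_, fun w hw v => ?_⟩
        · have := add_mem (ha1 (b v)) (hb1 v)
          rwa [sub_add_sub_cancel] at this
        · rw [Perm.mul_apply, hb2 w hw, ha2 w hw]; rfl
      inv_mem' := by
        rintro a ⟨ha1, ha2⟩
        refine ⟨fun v => ?_, fun w hw v => ?_⟩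
        · have := neg_mem (ha1 (a⁻¹ v))
          simpa using this
        · apply a.injective
          rw [ha2 w hw]; simp }
  refine ⟨U, ?_, fun x y => ⟨fun v => hW1 x y _ _ (mm_spec x y v), fun w hw v => ?_⟩⟩
  · rintro ⟨g, hg1, hg2⟩
    refine ⟨k, Subtype.ext ?_⟩
    have : ∀ (n : ℕ) v, (g ^ n) v = v + n • (g v - v) := by
      intro n v
      induction n with
      | zero => simp
      | succ n ih =>
        rw [pow_succ', Perm.mul_apply, ih, hg2 _ (nsmul_mem (hg1 v) n), succ_nsmul]; abel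
    ext v
    show (g ^ p ^ k) v = v
    rw [this, hcard, add_zero]
  · rw [hadd _ (mm_mem x y) (mm_one x y), mm_eq (hW2 x y w hw)]

theorem hom_iv {F : Type} [ALoop F] (π : Q →* F) (x : Q) : π (iv x) = iv (π x) :=
  (iv_eq (by rw [← map_mul, mul_iv, map_one])).symm

theorem hom_Linv {F : Type} [ALoop F] (π : Q →* F) (x y : Q) :
    π ((L x)⁻¹ y) = (L (π x))⁻¹ (π y) := by
  apply lcan (a := π x)
  rw [← map_mul, mul_Linv, mul_Linv]

theorem hom_rho {F : Type} [ALoop F] (π : Q →* F) (x y : Q) : π (rho x y) = rho (π x) (π y) := by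
  rw [rho_eq, rho_eq]
  simp only [Perm.mul_apply, H284Z.R_apply, map_mul, hom_Linv, hom_iv]

theorem card_quot_pow {F : Type} [ALoop F] (π : Q →* F) (hs : Function.Surjective π) {p k : ℕ}
    (hp : p.Prime) (hk : Nat.card Q = p ^ k) : ∃ j, Nat.card F = p ^ j := by
  have hc := card_comap π hs ⊤
  rw [Submonoid.comap_top, Nat.card_congr (Submonoid.topEquiv (M := Q)).toEquiv,
    Nat.card_congr (Submonoid.topEquiv (M := F)).toEquiv, hk] at hc
  obtain ⟨j, -, hj⟩ := (Nat.dvd_prime_pow hp).1 ⟨_, hc⟩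
  exact ⟨j, hj⟩

theorem Mg_odd {p k : ℕ} (hp : p.Prime) (h2 : p ≠ 2) (hk : Nat.card Q = p ^ k) :
    IsPGroup p (Mg Q) := by
  have hle : ⁅Kr Q, Kr Q⁆ ≤ Kr Q := Subgroup.commutator_le.2 (fun a ha b hb =>
      mul_mem (mul_mem (mul_mem ha hb) (inv_mem ha)) (inv_mem hb))
  refine Mg_pgroup hp (Kr Q) ⁅Kr Q, Kr Q⁆ (Kr_pgroup hp h2 hk) hle
    (fun g hg => norm_comm (Kr_norm hg)) rho rfl (fun h hh h1 x => ?_) (fun c hc x => ?_) ?_
  · rw [conj_rho hh, h1, rho, rho, sy_one, J_mul_J]; simp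
  · have h3 : sy x ∈ Subgroup.normalizer (Kr Q : Set (Perm Q)) := by
      have : sy x = rho x * J Q := by rw [rho, mul_assoc, J_mul_J, mul_one]
      rw [this]
      exact mul_mem (Subgroup.le_normalizer (rho_mem_Kr x)) J_norm_Kr
    have h4 := (Subgroup.mem_normalizer_iff.1 (norm_comm h3) _).1 (inv_mem hc)
    have : rho (c x) * (rho x)⁻¹ = c * (sy x * c⁻¹ * (sy x)⁻¹) := by
      rw [rho, rho, ← conj_sy (Kr_le (hle hc))]; group
    rw [this]
    exact mul_mem hc h4
  · intro F _ π hs hker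
    haveI : Finite F := Finite.of_surjective π hs
    obtain ⟨j, hj⟩ := card_quot_pow π hs hp hk
    refine lie_case hp h2 hj (fun a b => ?_)
    obtain ⟨a, rfl⟩ := hs a
    obtain ⟨b, rfl⟩ := hs b
    ext y
    obtain ⟨y, rfl⟩ := hs y
    simp only [Perm.mul_apply, ← hom_rho]
    refine (orb_iff π hker _ _).2 ⟨rho a * rho b * (rho a)⁻¹ * (rho b)⁻¹, Subgroup.commutator_mem_commutator
      (rho_mem_Kr a) (rho_mem_Kr b), ?_⟩
    simp

end Pool.Agent.H921Z.Loop
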