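import Pool.Agent.H284Z.Basic
import Pool.Agent.H921Z.Loop.Eqn

set_option autoImplicit false
set_option linter.all false

namespace Pool.Agent.H921Z.Loop

open Pool.Agent.H284Z Equiv

variable {Q : Type} [ALoop Q]

/-- the inverse `x \ 1` -/
noncomputable def iv (x : Q) : Q := (L x)⁻¹ 1

theorem mul_iv (x : Q) : x * iv x = 1 := mul_Linv x 1

theorem iv_mul (x : Q) : iv x * x = 1 := by
  have h1 : tt x x = x := by apply lcan (a := x); rw [tt_spec]
  have h2 := tt_aut x x (iv x)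
  rw [h1, mul_iv, aut_one (tt_aut x), tt_spec] at h2
  exact h2.symm

theorem iv_eq {x y : Q} (h : x * y = 1) : iv x = y := lcan (a := x) (by rw [mul_iv, h])

theorem iv_iv (x : Q) : iv (iv x) = x := iv_eq (iv_mul x)

theorem iv_one : iv (1 : Q) = 1 := iv_eq (mul_one 1)

theorem aut_iv {g : Perm Q} (hg : g ∈ AutG Q) (x : Q) : g (iv x) = iv (g x) :=
  (iv_eq (by rw [← hg, mul_iv, aut_one hg])).symm

/-- the ternary operation `u ((u \ v) (u \ w))` -/
noncomputable def tern (u v w : Q) : Q := u * ((L u)⁻¹ v * (L u)⁻¹ w)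

theorem conj_aut {g : Perm Q} (hg : g ∈ Mlt Q) (u : Q) : (L (g u))⁻¹ * g * L u ∈ AutG Q :=
  aut_of_mem (mul_mem (mul_mem (inv_mem (L_mem _)) hg) (L_mem _)) (by simp)

theorem tern_equiv {g : Perm Q} (hg : g ∈ Mlt Q) (u v w : Q) :
    g (tern u v w) = tern (g u) (g v) (g w) := by
  have h := conj_aut hg u ((L u)⁻¹ v) ((L u)⁻¹ w)
  simp only [Perm.mul_apply, H284Z.L_apply, mul_Linv] at h
  unfold tern
  rw [← h, mul_Linv]

theorem L_one : L (1 : Q) = 1 := by ext; simp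

theorem tern_one (v w : Q) : tern 1 v w = v * w := by simp [tern, L_one]

theorem aaip (a b : Q) : iv (a * b) = iv b * iv a := by
  apply iv_eq
  exact aaip_eq (fun x y => x * y) (fun x y => (R y)⁻¹ x) (fun x y => (L x)⁻¹ y) tern
    1 a (iv a) b (iv b) one_mul mul_one mul_Linv Linv_mul Rinv_mul Rinv_mul' tern_one
    (fun x => tern_equiv (L_mem x)) (fun x => tern_equiv (R_mem x))
    (fun x => tern_equiv (inv_mem (R_mem x))) (mul_iv a) (mul_iv b) (iv_mul b)

variable (Q) in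
/-- inversion as a permutation -/
noncomputable def J : Perm Q := ⟨iv, iv, iv_iv, iv_iv⟩

@[simp] theorem J_apply (x : Q) : J Q x = iv x := rfl

theorem J_mul_J : J Q * J Q = 1 := by ext x; exact iv_iv x

theorem J_inv : (J Q)⁻¹ = J Q := inv_eq_of_mul_eq_one_right J_mul_J

theorem aut_J {g : Perm Q} (hg : g ∈ AutG Q) : g * J Q = J Q * g := by
  ext x; exact aut_iv hg x

/-- the point symmetry at `u` -/
noncomputable def sy (u : Q) : Perm Q := L u * J Q * (L u)⁻¹

theorem sy_one : sy (1 : Q) = J Q := by simp [sy, L_one]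

theorem sy_mul_self (u : Q) : sy u * sy u = 1 := by
  have : sy u * sy u = L u * (J Q * J Q) * (L u)⁻¹ := by unfold sy; group
  rw [this, J_mul_J]; group

theorem sy_inv (u : Q) : (sy u)⁻¹ = sy u := inv_eq_of_mul_eq_one_right (sy_mul_self u)

theorem conj_sy {g : Perm Q} (hg : g ∈ Mlt Q) (u : Q) : g * sy u * g⁻¹ = sy (g u) := by
  have h := aut_J (conj_aut hg u)
  have : g * sy u * g⁻¹ = L (g u) * ((L (g u))⁻¹ * g * L u * J Q) * (L u)⁻¹ * g⁻¹ := by
    unfold sy; group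
  rw [this, h]; unfold sy; group

theorem JLJ (x : Q) : J Q * L x * J Q = R (iv x) := by
  ext y; simp [aaip, iv_iv]

theorem JRJ (x : Q) : J Q * R x * J Q = L (iv x) := by
  ext y; simp [aaip, iv_iv]

theorem J_sy (u : Q) : J Q * sy u * J Q = sy (iv u) := by
  have h := conj_sy (R_mem (iv u)) 1
  rw [sy_one, H284Z.R_apply, one_mul, ← JLJ] at h
  rw [← h]
  simp only [mul_inv_rev, J_inv, sy]
  have e : ∀ a b : Perm Q, a * J Q * J Q * (J Q * b) = a * J Q * b := by
    intro a b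
    calc a * J Q * J Q * (J Q * b) = a * J Q * (J Q * J Q) * b := by group
      _ = _ := by rw [J_mul_J, mul_one]
  rw [e]; group

theorem sy_conj (v u : Q) : sy v * sy u * (sy v)⁻¹ = sy (sy v u) := by
  have h1 := conj_sy (inv_mem (L_mem v)) u
  have h2 := J_sy ((L v)⁻¹ u)
  have h3 := conj_sy (L_mem v) (iv ((L v)⁻¹ u))
  have h4 : sy v u = L v (iv ((L v)⁻¹ u)) := rfl
  rw [h4, ← h3, ← h2, ← h1, sy_inv]
  unfold sy; group

theorem sy_apply_one (x : Q) : sy x 1 = x * x := by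
  show x * iv (iv x) = x * x
  rw [iv_iv]

/-- the rotation `s_x s_1` -/
noncomputable def rho (x : Q) : Perm Q := sy x * J Q

theorem rho_eq (x : Q) : rho x = R x * (L (iv x))⁻¹ := by
  have h := conj_sy (R_mem x) 1
  rw [sy_one, H284Z.R_apply, one_mul] at h
  rw [rho, ← h, ← JRJ]
  simp only [mul_inv_rev, J_inv]
  group

theorem rho_mem (x : Q) : rho x ∈ Mlt Q := by
  rw [rho_eq]; exact mul_mem (R_mem _) (inv_mem (L_mem _))

theorem iv_mul_sq (x : Q) : iv x * (x * x) = x := by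
  have h1 := aut_iv (LL_aut (iv x) x) (iv x)
  rw [LL_fix, iv_iv] at h1
  have h2 := LL_spec (iv x) x x
  rw [h1, iv_mul, one_mul] at h2
  exact h2.symm

theorem comm_LR (x : Q) : Commute (R x) (L (iv x)) := by
  have h1 : L (iv x) * R x ∈ AutG Q :=
    aut_of_mem (mul_mem (L_mem _) (R_mem _)) (by simp [iv_mul])
  have h2 := aut_R h1 x
  have h3 : (L (iv x) * R x) x = x := by simp [iv_mul_sq]
  rw [h3, ← mul_assoc] at h2
  exact (mul_right_cancel h2).symm

theorem comm_rho (x : Q) : Commute (R x) (rho x) := by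
  rw [rho_eq]; exact (Commute.refl _).mul_right (comm_LR x).inv_right

theorem iv_mul_pw (x : Q) : ∀ k, iv x * pw x (k + 1) = pw x k
  | 0 => by simp [pw, iv_mul]
  | k + 1 => by
    have h := congrArg (fun g : Perm Q => g (pw x (k + 1))) (comm_LR x).eq
    simp only [Perm.mul_apply, H284Z.L_apply, H284Z.R_apply] at h
    rw [iv_mul_pw x k] at h
    exact h.symm

theorem rho_pw (x : Q) (k : ℕ) : rho x (pw x k) = pw x (k + 2) := by
  rw [rho_eq, Perm.mul_apply, ← iv_mul_pw x k, Linv_mul]; rfl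

theorem rho_pow_one (x : Q) : ∀ n : ℕ, (rho x ^ n) 1 = pw x (2 * n)
  | 0 => rfl
  | n + 1 => by rw [pow_succ', Perm.mul_apply, rho_pow_one x n, rho_pw]; rfl

theorem pw_eq (x : Q) : ∀ n : ℕ, pw x n = (fun y => y * x)^[n] 1
  | 0 => rfl
  | n + 1 => by rw [Function.iterate_succ_apply', ← pw_eq x n]; rfl

theorem pw_mul_eq_one {x : Q} {m : ℕ} (h : pw x m = 1) (k : ℕ) : pw x (k * m) = 1 := by
  rw [pw_eq] at h ⊢
  rw [mul_comm]
  exact Function.IsPeriodicPt.mul_const h k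

theorem rho_pow_eq_one {x : Q} {m : ℕ} (h : pw x m = 1) : rho x ^ (2 * m) = 1 := by
  have h1 := conj_sy (pow_mem (rho_mem x) m) 1
  rw [rho_pow_one, pw_mul_eq_one h, sy_one] at h1
  have h2 : J Q * (rho x)⁻¹ * (J Q)⁻¹ = rho x := by
    rw [rho, mul_inv_rev, J_inv, sy_inv, ← mul_assoc, J_mul_J, one_mul]
  have h3 : J Q * ((rho x)⁻¹) ^ m * (J Q)⁻¹ = rho x ^ m := by
    rw [← conj_pow, h2]
  rw [two_mul, pow_add]
  calc rho x ^ m * rho x ^ m = rho x ^ m * (J Q * ((rho x)⁻¹) ^ m * (J Q)⁻¹) := by rw [h3]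
    _ = (rho x ^ m * J Q * (rho x ^ m)⁻¹) * (J Q)⁻¹ := by rw [inv_pow]; group
    _ = 1 := by rw [h1]; group

end Pool.Agent.H921Z.Loop
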