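import Pool.Agent.H921Z.Loop.Odd
import Pool.Agent.H921Z.Loop.Eqn2

set_option autoImplicit false
set_option linter.all false

namespace Pool.Agent.H921Z.Loop

open Pool.Agent.H284Z Equiv

/-- a submonoid of a finite group is a subgroup -/
def subOf {G : Type*} [Group G] [Finite G] (S : Submonoid G) : Subgroup G where
  toSubmonoid := S
  inv_mem' := by
    intro g hg
    obtain ⟨n, hn⟩ := mem_powers_iff_mem_zpowers.2 (inv_mem (Subgroup.mem_zpowers g))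
    show g⁻¹ ∈ S
    rw [← hn]
    exact pow_mem hg n

variable {Q : Type} [ALoop Q]

section e2

variable (h : ∀ y : Q, y * y = 1)
include h

theorem e2_comm (a b : Q) : a * b = b * a := by
  have hiv : ∀ y : Q, iv y = y := fun y => iv_eq (h y)
  rw [← hiv (a * b), aaip, hiv, hiv]

theorem e2_t23 (x y z : Q) : tern x y z = tern x z y := by
  unfold tern
  rw [e2_comm h ((L x)⁻¹ y)]

theorem e2_t1 (y z : Q) : tern y 1 z = y * z := by
  show y * (iv y * (L y)⁻¹ z) = y * z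
  rw [iv_eq (h y), mul_Linv]

theorem e2_t12 (x y z : Q) : tern x y z = tern y x z := by
  apply (L x)⁻¹.injective
  rw [tern_equiv (inv_mem (L_mem x)), tern_equiv (inv_mem (L_mem x)), Linv_self, e2_t1 h, tern_one]

theorem sand1 {a b u w : Q} (h1 : a * (b * u) = b) (h2 : a * w = u) (z : Q) :
    u * z = a * (w * z) :=
  sandwich_eq (fun x y => x * y) (fun x y => (L x)⁻¹ y) tern 1 a b u w z (e2_comm h) (e2_t12 h)
    (e2_t23 h) mul_one h mul_Linv Linv_mul (fun x y => by rw [e2_t23 h, e2_t1 h])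
    (fun x => tern_equiv (L_mem x)) (fun x => tern_equiv (inv_mem (L_mem x))) h1 h2

theorem sand2 {a b u : Q} (h1 : a * (b * u) = b) : b * (a * u) = a * (a * b) :=
  sandwich2_eq (fun x y => x * y) (fun x y => (L x)⁻¹ y) tern 1 a b u (e2_comm h) (e2_t12 h)
    (e2_t23 h) mul_one h mul_Linv Linv_mul (fun x y => by rw [e2_t23 h, e2_t1 h])
    (fun x => tern_equiv (L_mem x)) (fun x => tern_equiv (inv_mem (L_mem x))) h1

theorem R_eq_L (x : Q) : R x = L x := by ext y; exact e2_comm h y x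

end e2

/-- elements `w` with `L (x w) = L x L w` -/
def Ist (x : Q) : Submonoid Q where
  carrier := {w | ∀ z, (x * w) * z = x * (w * z)}
  one_mem' := fun z => by simp
  mul_mem' := by
    intro a b ha hb z
    rw [← mm_spec, mm_aut, mm_eq (ha z).symm, mm_eq (hb z).symm]

theorem Ist_aut {x : Q} {g : Perm Q} (hg : g ∈ AutG Q) (hx : g x = x) {w : Q} (hw : w ∈ Ist x) :
    g w ∈ Ist x := by
  intro z
  obtain ⟨z, rfl⟩ := g.surjective z
  have := congrArg g (hw z)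
  rwa [hg, hg, hg, hg, hx] at this

/-- displacements of `x` under automorphisms fixing `Ist x` -/
def Ipr (x : Q) : Submonoid Q where
  carrier := {w | w ∈ Ist x ∧ ∃ c ∈ AutG Q, (∀ v ∈ Ist x, c v = v) ∧ c x = x * w}
  one_mem' := ⟨one_mem _, 1, one_mem _, fun _ _ => rfl, by simp⟩
  mul_mem' := by
    rintro a b ⟨ha, c, hc, hc1, hc2⟩ ⟨hb, d, hd, hd1, hd2⟩
    refine ⟨mul_mem ha hb, c * d, mul_mem hc hd, fun v hv => ?_, ?_⟩
    · rw [Perm.mul_apply, hd1 v hv, hc1 v hv]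
    · rw [Perm.mul_apply, hd2, hc, hc2, hc1 b hb, ha]

theorem Ipr_assoc {x a b : Q} (ha : a ∈ Ipr x) (hb : b ∈ Ipr x) (z : Q) :
    (a * b) * z = a * (b * z) := by
  obtain ⟨ha, c, hc, hc1, hc2⟩ := ha
  obtain ⟨hb, d, hd, hd1, hd2⟩ := hb
  obtain ⟨z, rfl⟩ := c.surjective z
  apply lcan (a := x)
  rw [← mul_mem ha hb, ← ha, ← ha, ← hc2]
  conv_lhs => rw [← hc1 b hb]
  conv_rhs => rw [← hc1 b hb]
  rw [← hc, ← hc, ← hc, ← hc, hb]

theorem Ipr_aut {x : Q} {g : Perm Q} (hg : g ∈ AutG Q) (hx : g x = x) {w : Q} (hw : w ∈ Ipr x) :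
    g w ∈ Ipr x := by
  obtain ⟨hw, c, hc, hc1, hc2⟩ := hw
  have hx' : g⁻¹ x = x := by rw [Perm.inv_eq_iff_eq, hx]
  refine ⟨Ist_aut hg hx hw, g * c * g⁻¹, mul_mem (mul_mem hg hc) (inv_mem hg), fun v hv => ?_, ?_⟩
  · simp only [Perm.mul_apply]
    rw [hc1 _ (Ist_aut (inv_mem hg) hx' hv)]; simp
  · simp only [Perm.mul_apply]
    rw [hx', hc2, hg, hx]

theorem aff_of (h : ∀ y : Q, y * y = 1) {I : Submonoid Q}
    (hI : ∀ a ∈ I, ∀ b ∈ I, ∀ z, (a * b) * z = a * (b * z)) (y : Q) {a b : Q} (ha : a ∈ I)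
    (hb : b ∈ I) : (y * a) * b = y * (a * b) := by
  rw [e2_comm h (y * a), e2_comm h y a, ← hI b hb a ha, e2_comm h y, e2_comm h a]

theorem beta_pow (h : ∀ y : Q, y * y = 1) (x : Q) (n : ℕ) (y : Q) :
    ∃ w ∈ Ipr x, ((L x * L x) ^ n) y = y * w := by
  have hβ : L x * L x ∈ AutG Q := aut_of_mem (mul_mem (L_mem x) (L_mem x)) (by simp [h])
  have hβx : (L x * L x) x = x := by simp [h]
  have h0 : ∃ w ∈ Ipr x, (L x * L x) y = y * w := by
    have e : x * (y * mm x y x) = y := by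
      rw [e2_comm h y, mm_spec, h, one_mul]
    have hw : (L x)⁻¹ (mm x y x) ∈ Ipr x :=
      ⟨fun z => by rw [mul_Linv]; exact sand1 h e (mul_Linv _ _) z, mm x y, mm_aut x y,
        fun v hv => mm_eq (hv y).symm, (mul_Linv _ _).symm⟩
    refine ⟨_, Ipr_aut hβ hβx hw, ?_⟩
    simp only [Perm.mul_apply, H284Z.L_apply, mul_Linv]
    exact (sand2 h e).symm
  obtain ⟨w0, hw0, e0⟩ := h0
  induction n with
  | zero => exact ⟨1, one_mem _, by simp⟩
  | succ n ih =>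
    obtain ⟨w, hw, e⟩ := ih
    have hw' := Ipr_aut hβ hβx hw
    refine ⟨_, mul_mem hw0 hw', ?_⟩
    rw [pow_succ', Perm.mul_apply, e, hβ, e0,
      aff_of h (fun a ha b hb => Ipr_assoc ha hb) y hw0 hw']

variable [Finite Q]

theorem card_coset (U : Submonoid Q) (y : Q) :
    Nat.card {z | ∃ w ∈ U, z = y * w} = Nat.card U := by
  symm
  refine Nat.card_congr (Equiv.ofBijective
    (fun n : U => (⟨y * n, n, n.2, rfl⟩ : {z | ∃ w ∈ U, z = y * w})) ⟨?_, ?_⟩)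
  · intro n n' e
    exact Subtype.ext (lcan (congrArg Subtype.val e))
  · rintro ⟨_, n, hn, rfl⟩
    exact ⟨⟨n, hn⟩, rfl⟩

theorem not_dvd_sub (h : ∀ y : Q, y * y = 1) (U : Submonoid Q) {q : ℕ} (hq : q.Prime)
    (h2 : q ≠ 2) : ¬ q ∣ Nat.card U := by
  obtain ⟨k, hk⟩ := card_of_exp_two (F := U) (fun y => Subtype.ext (h y))
  rw [hk]
  exact not_dvd_pow Nat.prime_two hq h2

theorem non_engel (h : ∀ y : Q, y * y = 1) (I : Submonoid Q)
    (hI : ∀ a ∈ I, ∀ b ∈ I, ∀ z, (a * b) * z = a * (b * z)) {b : Perm Q} (hbm : b ∈ Mlt Q)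
    (hb1 : b 1 = 1) {q a : ℕ} (hq : q.Prime) (h2 : q ≠ 2) (hba : b ^ q ^ a = 1)
    (hb : ∀ y, ∃ w ∈ I, b y = y * w) :
    ∃ V : Subgroup (Perm Q), V ≤ Mlt Q ∧ Mlt Q ≤ Subgroup.normalizer (V : Set (Perm Q)) ∧
      IsPGroup 2 V ∧ ∀ y w, b y = y * w → ∀ z, (L z)⁻¹ * L (z * w) ∈ V := by
  have hba' := aut_of_mem hbm hb1
  have aff := @aff_of Q _ h I hI
  have hc := e2_comm h
  have fixc : ∀ J : Submonoid Q, J ≤ I → (∀ w ∈ J, b w ∈ J) → ∀ y, (∃ w ∈ J, b y = y * w) →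
      ∃ v, b v = v ∧ ∃ w ∈ J, y = v * w := by
    rintro J hJ hbJ y ⟨w0, hw0, e0⟩
    obtain ⟨_, ⟨w, hw, rfl⟩, hv⟩ := fix_pp hq hba (X := {z | ∃ w ∈ J, z = y * w}) (by
      rintro _ ⟨w, hw, rfl⟩
      exact ⟨_, mul_mem hw0 (hbJ w hw), by rw [hba', e0, aff y (hJ hw0) (hJ (hbJ w hw))]⟩)
      (by rw [card_coset]; exact not_dvd_sub h J hq h2)
    exact ⟨_, hv, w, hw, by rw [aff y (hJ hw) (hJ hw), h, mul_one]⟩
  have hbI : ∀ w ∈ I, b w ∈ I := by
    intro w hw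
    obtain ⟨v, hv, e⟩ := hb w
    rw [e]; exact mul_mem hw hv
  have hchar : ∀ w, (∃ y, b y = y * w) ↔ ∃ v ∈ I, w = v * b v := by
    intro w
    constructor
    · rintro ⟨y, e⟩
      obtain ⟨u, hu, v, hv, rfl⟩ := fixc I le_rfl hbI y (hb y)
      refine ⟨v, hv, lcan (a := u * v) ?_⟩
      rw [← e, hba', hu, aff u hv (mul_mem hv (hbI v hv)), ← hI v hv v hv, h, one_mul]
    · rintro ⟨v, hv, rfl⟩
      exact ⟨v, by rw [← hI v hv v hv, h, one_mul]⟩
  let N : Submonoid Q :=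
    { carrier := {w | ∃ y, b y = y * w}
      one_mem' := ⟨1, by simp [hb1]⟩
      mul_mem' := by
        intro w w' hw hw'
        obtain ⟨v, hv, rfl⟩ := (hchar w).1 hw
        obtain ⟨v', hv', rfl⟩ := (hchar w').1 hw'
        refine (hchar _).2 ⟨v * v', mul_mem hv hv', ?_⟩
        rw [hba', hI v hv _ (hbI v hv), hI v hv v' hv', ← hI _ (hbI v hv) v' hv',
          ← hI v' hv' _ (hbI v hv), hc v' (b v)] }
  have hNI : N ≤ I := by
    intro w hw
    obtain ⟨v, hv, rfl⟩ := (hchar w).1 hw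
    exact mul_mem hv (hbI v hv)
  have hNc : ∀ g ∈ AutG Q, (∀ z, g (b z) = b (g z)) → ∀ w ∈ N, g w ∈ N := by
    rintro g hg hgb w ⟨y, e⟩
    exact ⟨g y, by rw [← hgb, e, hg]⟩
  have dec : ∀ y, ∃ v, b v = v ∧ ∃ w ∈ N, y = v * w := fun y =>
    fixc N hNI (hNc b hba' (fun _ => rfl)) y
      ⟨(L y)⁻¹ (b y), ⟨y, (mul_Linv _ _).symm⟩, (mul_Linv _ _).symm⟩
  have affN : ∀ y, ∀ {a b : Q}, a ∈ N → b ∈ N → (y * a) * b = y * (a * b) :=
    fun y a b ha hb => aff y (hNI ha) (hNI hb)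
  let Pres : Subgroup (Perm Q) := subOf
    { carrier := {g | ∀ y, ∀ w ∈ N, ∃ w' ∈ N, g (y * w) = g y * w'}
      one_mem' := fun y w hw => ⟨w, hw, rfl⟩
      mul_mem' := by
        intro g k hg hk y w hw
        obtain ⟨w1, hw1, e1⟩ := hk y w hw
        obtain ⟨w2, hw2, e2⟩ := hg (k y) w1 hw1
        exact ⟨w2, hw2, by simp only [Perm.mul_apply]; rw [e1, e2]⟩ }
  have kfix : ∀ z, ∀ w ∈ N, ∀ w' ∈ N, LL z w w' = w' := by
    intro z w hw w' hw'
    apply lcan (a := z * w)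
    rw [LL_spec, affN z hw hw']
  have Ldec : ∀ z w : Q, L (z * w) = L z * L w * (LL z w)⁻¹ := by
    intro z w; unfold LL; group
  have hL : ∀ z, L z ∈ Pres := by
    intro z
    obtain ⟨u, hu, w0, hw0, rfl⟩ := dec z
    rw [Ldec]
    refine mul_mem (mul_mem ?_ ?_) (inv_mem ?_)
    · intro y w hw
      obtain ⟨v, hv, w1, hw1, rfl⟩ := dec y
      have hk := hNc (LL u v) (LL_aut u v) (fun z => by
        apply lcan (a := u * v)
        have e := congrArg b (LL_spec u v z)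
        rw [hba', hba', hba', hba', hu, hv] at e
        rw [LL_spec, e])
      refine ⟨_, hk w hw, ?_⟩
      simp only [H284Z.L_apply]
      rw [affN v hw1 hw, ← LL_spec, ← LL_spec, LL_aut, affN _ (hk _ hw1) (hk _ hw)]
    · intro y w hw
      refine ⟨w, hw, ?_⟩
      simp only [H284Z.L_apply]
      rw [hc w0, hc w0, affN y hw hw0, affN y hw0 hw, hc w0]
    · intro y w hw
      exact ⟨w, hw, by rw [LL_aut, kfix u w0 hw0 w hw]⟩
  have hPres : Mlt Q ≤ Pres := by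
    rw [Mlt, Subgroup.closure_le]
    rintro _ (⟨z, rfl⟩ | ⟨z, rfl⟩)
    · exact hL z
    · rw [R_eq_L h]; exact hL z
  have hN : IsNormal N := by
    intro g hg g1 w hw
    obtain ⟨w', hw', e⟩ := hPres hg 1 w hw
    rw [one_mul, g1, one_mul] at e
    rw [e]; exact hw'
  let V : Subgroup (Perm Q) := subOf
    { carrier := {g | g ∈ Mlt Q ∧ ∀ y, (∃ n ∈ N, g y = y * n) ∧ ∀ w ∈ N, g (y * w) = g y * w}
      one_mem' := ⟨one_mem _, fun y => ⟨⟨1, one_mem _, by simp⟩, fun _ _ => rfl⟩⟩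
      mul_mem' := by
        rintro g k ⟨hg, hg'⟩ ⟨hk, hk'⟩
        refine ⟨mul_mem hg hk, fun y => ⟨?_, fun w hw => ?_⟩⟩
        · obtain ⟨n, hn, e⟩ := (hk' y).1
          obtain ⟨n', hn', e'⟩ := (hg' y).1
          exact ⟨_, mul_mem hn' hn, by
            rw [Perm.mul_apply, e, (hg' y).2 n hn, e', affN y hn' hn]⟩
        · simp only [Perm.mul_apply]
          rw [(hk' y).2 w hw, (hg' _).2 w hw] }
  refine ⟨V, fun g hg => hg.1, fun k hk => Subgroup.mem_normalizer_fintype ?_, ?_, ?_⟩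
  · rintro g ⟨hg, hg'⟩
    refine ⟨mul_mem (mul_mem hk hg) (inv_mem hk), fun y => ?_⟩
    obtain ⟨y, rfl⟩ := k.surjective y
    have hm : (L (k y))⁻¹ * k * L y ∈ Mlt Q :=
      mul_mem (mul_mem (inv_mem (L_mem _)) hk) (L_mem _)
    have ha := conj_aut hk y
    set γ := (L (k y))⁻¹ * k * L y with hγ
    have spec : ∀ w, k (y * w) = k y * γ w := fun w => by simp [hγ]
    have kk : ∀ z, (k * g * k⁻¹) (k z) = k (g z) := fun z => by simp
    obtain ⟨n, hn, e⟩ := (hg' y).1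
    have hγn := hN γ hm (aut_one ha) n hn
    have e1 : (k * g * k⁻¹) (k y) = k y * γ n := by
      rw [kk, e, spec]
    refine ⟨⟨_, hγn, e1⟩, fun w hw => ?_⟩
    have hw' := hN γ⁻¹ (inv_mem hm) (H284Z.inv_one (aut_one ha)) w hw
    have e2 : k y * w = k (y * γ⁻¹ w) := by rw [spec]; simp
    rw [e1, e2, kk]
    rw [(hg' y).2 _ hw', e, affN y hn hw', spec, ha, affN _ hγn hw]; simp
  · rintro ⟨g, hg, hg'⟩
    refine ⟨1, Subtype.ext ?_⟩
    ext y
    obtain ⟨n, hn, e⟩ := (hg' y).1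
    show (g ^ 2 ^ 1) y = y
    rw [pow_one, pow_two, Perm.mul_apply, e, (hg' y).2 n hn, e, affN y hn hn, h, mul_one]
  · intro y0 w e0 z
    have hw : w ∈ N := ⟨y0, e0⟩
    rw [Ldec, ← mul_assoc, ← mul_assoc, inv_mul_cancel, one_mul]
    refine mul_mem ⟨L_mem w, fun y => ⟨⟨w, hw, hc w y⟩, fun w' hw' => ?_⟩⟩ (inv_mem ?_)
    · simp only [H284Z.L_apply]
      rw [hc w, hc w, affN y hw' hw, affN y hw hw', hc w]
    · refine ⟨LL_mem z w, fun y => ⟨?_, fun w' hw' => by rw [LL_aut, kfix z w hw w' hw']⟩⟩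
      obtain ⟨w1, hw1, e1⟩ := hL (LL z w y) z w hw
      obtain ⟨w2, hw2, e2⟩ := hL z y w hw
      simp only [H284Z.L_apply] at e1 e2
      rw [hc, LL_spec, hc w y, e2, hc (LL z w y)] at e1
      have e3 : z * LL z w y = (z * y) * (w2 * w1) := by
        rw [← affN _ hw2 hw1, e1, affN _ hw1 hw1, h, mul_one]
      obtain ⟨w3, hw3, e4⟩ := hPres (inv_mem (L_mem z)) (z * y) _ (mul_mem hw2 hw1)
      rw [← e3, Linv_mul, Linv_mul] at e4
      exact ⟨w3, hw3, e4⟩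

end Pool.Agent.H921Z.Loop
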